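import Pool.Agent.TRK.Tc
import Pool.Agent.RKO.Sv
import Pool.Agent.UNK.Blk

/-!
Project TRK (MP_e2be99_lc), module Ai.  Text: /team-store/trk_h34.md (section 4, induction).
Definitions in `Pool/Agent/TRK/Defs.lean` (and `RKO/Defs.lean`, `UNK/Defs.lean`).

Induction on the rank and on the Strahler number: at generic points of the generator all contexts with side trees
of Strahler number at most `σ` have their greatest rank.
-/

set_option autoImplicit false

namespace Pool.Agent.TRK

open MvPolynomial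
open Pool.Agent.UNK (zar PF dot tp fc Fc)
open Pool.Agent.RKO (Letter wv pt sv tf Srt)

universe u

section

variable {k : Type u} [Field k] [Infinite k] {V : Type} [Fintype V] {w : ℕ}

private theorem Ai_pow {R : Type*} [CommSemiring R] {k : Type*} [CommSemiring k] [Algebra k R]
    {M N : Submodule k R} (h : M ≤ N) (n : ℕ) : M ^ n ≤ N ^ n := by
  induction n with
  | zero => rw [pow_zero, pow_zero]
  | succ n ih =>
    rw [pow_succ, pow_succ]
    exact mul_le_mul' ih h

private theorem Ai_blk {α : Type*} (P : List α → Prop) (h0 : P []) (L : List α) :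
    ∃ (Bs : List (List α)) (T : List α), L = Bs.flatten ++ T ∧ P T ∧
      ∀ B ∈ Bs, ¬ P B ∧ ∃ P' u, B = P' ++ [u] ∧ P P' := by
  classical
  induction hn : L.length using Nat.strong_induction_on generalizing L with
  | _ n ih =>
    by_cases hP : P L
    · exact ⟨[], L, by simp, hP, by simp⟩
    · have hex : ∃ k, ¬ P (L.take k) := ⟨L.length, by simpa using hP⟩
      obtain ⟨k, hk1, hkmin⟩ : ∃ k, ¬ P (L.take k) ∧ ∀ j < k, P (L.take j) :=
        ⟨Nat.find hex, Nat.find_spec hex, fun j hj => not_not.mp (Nat.find_min hex hj)⟩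
      have hk0 : k ≠ 0 := by
        intro h
        rw [h] at hk1
        exact hk1 (by simpa using h0)
      have hkle : k ≤ L.length := by
        by_contra hlt
        exact hP (by simpa using hkmin L.length (by omega))
      obtain ⟨j, hj⟩ := Nat.exists_eq_succ_of_ne_zero hk0
      have hjlt : j < L.length := by omega
      have htake : L.take k = L.take j ++ [L[j]] := by
        rw [hj, Nat.succ_eq_add_one, List.take_succ_eq_append_getElem hjlt]
      obtain ⟨Bs, T, h1, h2, h3⟩ := ih (L.drop k).length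
        (by rw [List.length_drop]; omega) (L.drop k) rfl
      refine ⟨L.take k :: Bs, T, ?_, h2, ?_⟩
      · rw [List.flatten_cons, List.append_assoc, ← h1, List.take_append_drop]
      · intro B hB
        rcases List.mem_cons.mp hB with rfl | hB
        · exact ⟨hk1, L.take j, L[j], htake, hkmin j (by omega)⟩
        · exact h3 B hB

omit [Infinite k] [Fintype V] in
private theorem Ai_append3 (a b c : List (Frame k V w)) (x : V → k) :
    ctxv (a ++ b ++ c) x = ctxv a x * ctxv b x * ctxv c x := by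
  rw [ctxv_append, ctxv_append]

omit [Infinite k] [Fintype V] in
private theorem Ai_rank_infix {J fs : List (Frame k V w)} (h : J <:+: fs) (x : V → k) :
    (ctxv fs x).rank ≤ (ctxv J x).rank := by
  obtain ⟨a, c, rfl⟩ := h
  rw [Ai_append3]
  exact (Matrix.rank_mul_le_left _ _).trans (Matrix.rank_mul_le_right _ _)

omit [Infinite k] in
private theorem Ai_lift (al : V → k) (hal : Function.Injective al) {K K' : ℕ} (hK : K ≤ K')
    (fs : List (Frame k V w)) (θ : Fin K ⊕ Fin K → k) (r : ℕ)
    (hr : r ≤ (ctxv fs (sv al K θ)).rank) :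
    ∀ᶠ θ' in zar k (Fin K' ⊕ Fin K'), r ≤ (ctxv fs (sv al K' θ')).rank := by
  obtain ⟨θ₁, h₁⟩ := RKO.sv_mono al hal hK θ
  refine RKO.rank_ev (fun θ' : Fin K' ⊕ Fin K' → k => ctxv fs (sv al K' θ')) (fun p q => ?_) r θ₁ ?_
  · exact PF.comp (ctxv_pf fs p q) (fun u => RKO.sv_pf al K' u)
  · show r ≤ (ctxv fs (sv al K' θ₁)).rank
    rw [h₁]
    exact hr

theorem alive_prodT (al : V → k) (hal : Function.Injective al) (σ : ℕ) (hσ : 1 ≤ σ)
    (ρ b K r : ℕ) (Xs : List (Pc k V w)) (hlen : Xs.length ≤ 4) (fs : List (Frame k V w))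
    (hfs : EE (Pc.ctx fs) ≤ (Xs.map EE).prod) (hcnt : ∀ u, (Xs.map (pcnt u)).sum ≤ ρ)
    (hbd : ∀ X ∈ Xs, pbd b X)
    (hX : ∀ᶠ θ in zar k (Fin K ⊕ Fin K), ∀ X ∈ Xs, SA σ (sv al K θ) X) (a : V → k)
    (ha : r ≤ (ctxv fs a).rank) :
    ∀ᶠ θ in zar k (Fin (K + MT w ρ b) ⊕ Fin (K + MT w ρ b)),
      r ≤ (ctxv fs (sv al (K + MT w ρ b) θ)).rank := by
  have := UNK.zar_neBot k (Fin K ⊕ Fin K)
  obtain ⟨θ, hθ⟩ := hX.exists
  obtain ⟨U, W, hUW⟩ := UNK.fac_ge ha
  have hF : (fun x : V → k => (U * ctxv fs x * W).det) ∈ ((Xs.map EE).prod) ^ r :=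
    Ai_pow hfs r (det_mem fs U W)
  have hr : r ≤ w := ha.trans (Matrix.rank_le_width _)
  have hne : (fun x : V → k => (U * ctxv fs x * W).det) a ≠ 0 := by
    show (U * ctxv fs a * W).det ≠ 0
    rw [hUW, Matrix.det_one]
    exact one_ne_zero
  obtain ⟨S, a', hS, hne'⟩ := tc σ hσ (sv al K θ) ρ b r hr Xs hlen hθ hcnt hbd _ hF a hne
  obtain ⟨θ', hθ'⟩ := RKO.sv_pt al hal K (MT w ρ b) θ S hS a'
  have h1 := RKO.sv_ev al hal (le_refl (K + MT w ρ b)) _ (pf_mem Xs r hF) θ' (by
    rw [hθ']
    exact hne')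
  filter_upwards [h1] with θ'' h2
  exact UNK.ge_of_fac h2

omit [Infinite k] [Fintype V] in
private theorem Ai_ha {σ r : ℕ} {T : Tr k V w} {v : V → k} (h : AA σ r T v) : HA σ T v :=
  fun hs T' hd J hJ hst x => h hs T' hd J hJ (fun f hf => (hst f hf).le) (Or.inl hst) x

omit [Infinite k] [Fintype V] in
private theorem Ai_pc {σ r : ℕ} {T₀ T'' : Tr k V w} {v : V → k} (h : AA σ (r + 1) T₀ v)
    {hs P' : List (Frame k V w)} (hd : Dec T₀ hs T'') (hP : P' <:+: hs)
    (hst : ∀ f ∈ P', st f.2 ≤ σ) (hr : P' = [] ∨ ∃ x : V → k, r + 1 ≤ (ctxv P' x).rank) :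
    SA σ v (Pc.ctx P') := by
  refine ⟨fun f hf => ⟨hst f hf, ha_side hd (Ai_ha h) (hP.subset hf)⟩, Or.inl ?_⟩
  intro J hJ x
  refine h hs T'' hd J (hJ.trans hP) (fun f hf => hst f (hJ.subset hf)) ?_ x
  rcases hr with hr | ⟨x', hx'⟩
  · refine Or.inl fun f hf => ?_
    have h1 := hJ.subset hf
    rw [hr] at h1
    exact absurd h1 List.not_mem_nil
  · exact Or.inr ⟨x', hx'.trans (Ai_rank_infix hJ x')⟩

omit [Infinite k] [Fintype V] in
private theorem Ai_one {σ r : ℕ} {T₀ T'' : Tr k V w} {v : V → k} (h : AA σ (r + 1) T₀ v)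
    {hs : List (Frame k V w)} (hd : Dec T₀ hs T'') {f : Frame k V w} (hf : f ∈ hs)
    (hst : st f.2 ≤ σ) : SA σ v (Pc.ctx [f]) := by
  refine ⟨fun g hg => ?_, Or.inr (by simp)⟩
  rw [List.mem_singleton] at hg
  subst hg
  exact ⟨hst, ha_side hd (Ai_ha h) hf⟩

omit [Infinite k] [Fintype V] in
private theorem Ai_flat (Bs : List (List (Frame k V w))) (x : V → k) :
    ctxv Bs.flatten x = (Bs.map fun B => ctxv B x).prod := by
  induction Bs with
  | nil => rw [List.flatten_nil, ctxv_nil, List.map_nil, List.prod_nil]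
  | cons B Bs ih => rw [List.flatten_cons, ctxv_append, ih, List.map_cons, List.prod_cons]

omit [Infinite k] [Fintype V] in
private theorem Ai_cnt {hs J : List (Frame k V w)} (h : J <:+: hs) (u : V) :
    (J.map fun f => cnt u f.2).sum ≤ (hs.map fun f => cnt u f.2).sum := by
  obtain ⟨a, c, rfl⟩ := h
  rw [List.map_append, List.map_append, List.sum_append, List.sum_append]
  omega

theorem aa_step (al : V → k) (hal : Function.Injective al) (σ : ℕ) (hσ : 1 ≤ σ)
    (ρ b K r : ℕ) (T₀ : Tr k V w) (hcnt : ∀ u, cnt u T₀ ≤ ρ) (hbd : bd b T₀)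
    (h : ∀ᶠ θ in zar k (Fin K ⊕ Fin K), AA σ (r + 1) T₀ (sv al K θ)) :
    ∀ᶠ θ in zar k (Fin (K + MT w ρ b) ⊕ Fin (K + MT w ρ b)),
      AA σ r T₀ (sv al (K + MT w ρ b) θ) := by
  have := UNK.zar_neBot k (Fin K ⊕ Fin K)
  have key : ∀ J ∈ {J : List (Frame k V w) | ∃ hs T', Dec T₀ hs T' ∧ J <:+: hs},
      ∀ᶠ θ in zar k (Fin (K + MT w ρ b) ⊕ Fin (K + MT w ρ b)), (∀ f ∈ J, st f.2 ≤ σ) →
        ((∀ f ∈ J, st f.2 < σ) ∨ ∃ x : V → k, r ≤ (ctxv J x).rank) →
          ∀ x : V → k, (ctxv J x).rank ≤ (ctxv J (sv al (K + MT w ρ b) θ)).rank := by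
    rintro J ⟨hs, T', hd, hJ⟩
    by_cases hst : ∀ f ∈ J, st f.2 ≤ σ
    swap
    · exact Filter.Eventually.of_forall fun θ h1 => absurd h1 hst
    by_cases h1 : (∀ f ∈ J, st f.2 < σ) ∨ ∃ x : V → k, r + 1 ≤ (ctxv J x).rank
    · obtain ⟨θ, hθ⟩ := h.exists
      have h2 := hθ hs T' hd J hJ hst h1
      have h3 := Ai_lift al hal (Nat.le_add_right K (MT w ρ b)) J θ _ (le_refl _)
      filter_upwards [h3] with θ' h4 _ _ x
      exact (h2 x).trans h4
    · have hlt : ¬ ∀ f ∈ J, st f.2 < σ := fun h2 => h1 (Or.inl h2)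
      have hr : ∀ x : V → k, (ctxv J x).rank ≤ r := by
        intro x
        by_contra h2
        exact h1 (Or.inr ⟨x, by omega⟩)
      by_cases hx : ∃ x : V → k, r ≤ (ctxv J x).rank
      swap
      · refine Filter.Eventually.of_forall fun θ _ h3 => ?_
        rcases h3 with h3 | h3
        · exact absurd h3 hlt
        · exact absurd h3 hx
      obtain ⟨x₀, hx₀⟩ := hx
      have hJne : J ≠ [] := by
        rintro rfl
        exact hlt fun f hf => absurd hf List.not_mem_nil
      obtain ⟨Bs, T1, hB1, hB2, hB3⟩ := Ai_blk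
        (fun J' : List (Frame k V w) => J' = [] ∨ ∃ x : V → k, r + 1 ≤ (ctxv J' x).rank)
        (Or.inl rfl) J
      have hBne : Bs ≠ [] := by
        rintro rfl
        rw [List.flatten_nil, List.nil_append] at hB1
        rw [← hB1] at hB2
        rcases hB2 with h2 | h2
        · exact hJne h2
        · exact h1 (Or.inr h2)
      -- the general tool
      have tool : ∀ (fs : List (Frame k V w)) (Xs : List (Pc k V w)), fs <:+: J →
          Xs.length ≤ 4 → EE (Pc.ctx fs) ≤ (Xs.map EE).prod →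
          (∀ u, (Xs.map (pcnt u)).sum = (fs.map fun f => cnt u f.2).sum) →
          (∀ X ∈ Xs, ∃ P', X = Pc.ctx P' ∧ P' <:+: fs ∧
            ((P' = [] ∨ ∃ x : V → k, r + 1 ≤ (ctxv P' x).rank) ∨ ∃ f, P' = [f])) →
          ∀ᶠ θ in zar k (Fin (K + MT w ρ b) ⊕ Fin (K + MT w ρ b)),
            r ≤ (ctxv fs (sv al (K + MT w ρ b) θ)).rank := by
        intro fs Xs hfs hlen hE hc hXs
        refine alive_prodT al hal σ hσ ρ b K r Xs hlen fs hE (fun u => ?_) (fun X hX => ?_) ?_ x₀
          (hx₀.trans (Ai_rank_infix hfs x₀))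
        · rw [hc u]
          have h2 := Ai_cnt (hfs.trans hJ) u
          have h3 := cnt_dec hd u
          have h4 := hcnt u
          omega
        · obtain ⟨P', rfl, hP', -⟩ := hXs X hX
          exact fun f hf => (bd_dec hd hbd).2 f ((hP'.trans (hfs.trans hJ)).subset hf)
        · filter_upwards [h] with θ hθ X hX
          obtain ⟨P', rfl, hP', h5⟩ := hXs X hX
          rcases h5 with h5 | ⟨f, rfl⟩
          · exact Ai_pc hθ hd (hP'.trans (hfs.trans hJ))
              (fun f hf => hst f ((hP'.trans hfs).subset hf)) h5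
          · have hf : f ∈ ([f] : List (Frame k V w)) := List.mem_singleton.2 rfl
            exact Ai_one hθ hd ((hP'.trans (hfs.trans hJ)).subset hf)
              (hst f ((hP'.trans hfs).subset hf))
      have pair : ∀ᶠ θ in zar k (Fin (K + MT w ρ b) ⊕ Fin (K + MT w ρ b)),
          ∀ A ∈ {A | A ∈ Bs}, ∀ B ∈ {B | B ∈ Bs}, (∃ P S, Bs = P ++ A :: B :: S) →
            r ≤ (ctxv (A ++ B) (sv al (K + MT w ρ b) θ)).rank := by
        refine (Filter.eventually_all_finite (List.finite_toSet Bs)).2 fun A hA => ?_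
        refine (Filter.eventually_all_finite (List.finite_toSet Bs)).2 fun B hB => ?_
        by_cases hPS : ∃ P S, Bs = P ++ A :: B :: S
        swap
        · exact Filter.Eventually.of_forall fun θ h2 => absurd h2 hPS
        obtain ⟨P, S, hPS⟩ := hPS
        obtain ⟨-, P1, f1, hA1, hP1⟩ := hB3 A hA
        obtain ⟨-, P2, f2, hB1', hP2⟩ := hB3 B hB
        have hinf : A ++ B <:+: J := by
          refine ⟨P.flatten, S.flatten ++ T1, ?_⟩
          rw [hB1, hPS]
          simp only [List.flatten_append, List.flatten_cons, List.append_assoc]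
        have h2 := tool (A ++ B) [Pc.ctx P1, Pc.ctx [f1], Pc.ctx P2, Pc.ctx [f2]] hinf
          (by simp) (by
            rw [hA1, hB1']
            simp only [List.map_cons, List.map_nil, List.prod_cons, List.prod_nil, mul_one]
            rw [← mul_assoc]
            exact (ee_append _ _).trans (mul_le_mul' (ee_append _ _) (ee_append _ _)))
          (fun u => by
            rw [hA1, hB1']
            simp only [List.map_cons, List.map_nil, List.sum_cons, List.sum_nil, pcnt,
              List.map_append, List.sum_append]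
            ring)
          (fun X hX => by
            simp only [List.mem_cons, List.not_mem_nil, or_false] at hX
            rcases hX with rfl | rfl | rfl | rfl
            · exact ⟨P1, rfl, ⟨[], [f1] ++ B, by rw [hA1]; simp⟩, Or.inl hP1⟩
            · exact ⟨[f1], rfl, ⟨P1, B, by rw [hA1]⟩, Or.inr ⟨f1, rfl⟩⟩
            · exact ⟨P2, rfl, ⟨A, [f2], by rw [hB1']; simp⟩, Or.inl hP2⟩
            · exact ⟨[f2], rfl, ⟨A ++ P2, [], by rw [hB1']; simp⟩, Or.inr ⟨f2, rfl⟩⟩)
        filter_upwards [h2] with θ h3 _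
        exact h3
      have last : ∀ᶠ θ in zar k (Fin (K + MT w ρ b) ⊕ Fin (K + MT w ρ b)),
          ∀ A ∈ {A | A ∈ Bs}, (∃ P, Bs = P ++ [A]) →
            r ≤ (ctxv (A ++ T1) (sv al (K + MT w ρ b) θ)).rank := by
        refine (Filter.eventually_all_finite (List.finite_toSet Bs)).2 fun A hA => ?_
        by_cases hPS : ∃ P, Bs = P ++ [A]
        swap
        · exact Filter.Eventually.of_forall fun θ h2 => absurd h2 hPS
        obtain ⟨P, hPS⟩ := hPS
        obtain ⟨-, P1, f1, hA1, hP1⟩ := hB3 A hA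
        have hinf : A ++ T1 <:+: J := by
          refine ⟨P.flatten, [], ?_⟩
          rw [hB1, hPS]
          simp only [List.flatten_append, List.flatten_cons, List.append_assoc, List.flatten_nil,
            List.append_nil]
        have h2 := tool (A ++ T1) [Pc.ctx P1, Pc.ctx [f1], Pc.ctx T1] hinf
          (by simp) (by
            rw [hA1]
            simp only [List.map_cons, List.map_nil, List.prod_cons, List.prod_nil, mul_one]
            rw [← mul_assoc]
            exact (ee_append _ _).trans (mul_le_mul' (ee_append _ _) (le_refl _)))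
          (fun u => by
            rw [hA1]
            simp only [List.map_cons, List.map_nil, List.sum_cons, List.sum_nil, pcnt,
              List.map_append, List.sum_append]
            ring)
          (fun X hX => by
            simp only [List.mem_cons, List.not_mem_nil, or_false] at hX
            rcases hX with rfl | rfl | rfl
            · exact ⟨P1, rfl, ⟨[], [f1] ++ T1, by rw [hA1]; simp⟩, Or.inl hP1⟩
            · exact ⟨[f1], rfl, ⟨P1, T1, by rw [hA1]⟩, Or.inr ⟨f1, rfl⟩⟩
            · exact ⟨T1, rfl, ⟨A, [], by simp⟩, Or.inl hB2⟩)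
        filter_upwards [h2] with θ h3 _
        exact h3
      filter_upwards [pair, last] with θ hp hl _ _ x
      refine (hr x).trans ?_
      rw [hB1, ctxv_append, Ai_flat]
      refine RKO.chainr r _ _ ?_ ?_ ?_ ?_
      · intro h2
        exact hBne (List.map_eq_nil_iff.1 h2)
      · intro X hX
        obtain ⟨B, hB, rfl⟩ := List.mem_map.1 hX
        by_contra h2
        exact (hB3 B hB).1 (Or.inr ⟨_, by
          show r + 1 ≤ (ctxv B (sv al (K + MT w ρ b) θ)).rank
          omega⟩)
      · intro P A B S h2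
        obtain ⟨P', R', e1, e2, e3⟩ := List.map_eq_append_iff.1 h2
        obtain ⟨A', R'', e4, e5, e6⟩ := List.map_eq_cons_iff.1 e3
        obtain ⟨B', S', e7, e8, e9⟩ := List.map_eq_cons_iff.1 e6
        have hA' : A' ∈ Bs := by rw [e1, e4]; simp
        have hB' : B' ∈ Bs := by rw [e1, e4, e7]; simp
        have h3 := hp A' hA' B' hB' ⟨P', S', by rw [e1, e4, e7]⟩
        rw [ctxv_append] at h3
        rw [← e5, ← e8]
        exact h3
      · intro P A h2
        obtain ⟨P', R', e1, e2, e3⟩ := List.map_eq_append_iff.1 h2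
        obtain ⟨A', R'', e4, e5, e6⟩ := List.map_eq_cons_iff.1 e3
        have e7 : R'' = [] := List.map_eq_nil_iff.1 e6
        have hA' : A' ∈ Bs := by rw [e1, e4]; simp
        have h3 := hl A' hA' ⟨P', by rw [e1, e4, e7]⟩
        rw [ctxv_append] at h3
        rw [← e5]
        exact h3
  have hall := (Filter.eventually_all_finite (dec_fin T₀)).2 key
  filter_upwards [hall] with θ hθ hs T' hd J hJ hst hc x
  exact hθ J ⟨hs, T', hd, hJ⟩ hst hc x

theorem ha_all (al : V → k) (hal : Function.Injective al) (ρ b : ℕ) (T₀ : Tr k V w)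
    (hcnt : ∀ u, cnt u T₀ ≤ ρ) (hbd : bd b T₀) (σ : ℕ) :
    ∀ᶠ θ in zar k (Fin (KT w ρ b σ) ⊕ Fin (KT w ρ b σ)),
      HA (σ + 1) T₀ (sv al (KT w ρ b σ) θ) := by
  induction σ with
  | zero =>
    refine Filter.Eventually.of_forall fun θ hs T' hd J hJ hst x => le_of_eq ?_
    rw [ctxv_dep J (x' := sv al (KT w ρ b 0) θ) ?_]
    rintro u ⟨f, hf, hu⟩
    have h1 := hst f hf
    rw [st_zero f.2 (by omega)] at hu
    exact absurd hu (Finset.notMem_empty u)
  | succ σ ih =>
    have hj : ∀ j, j ≤ w + 1 →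
        ∀ᶠ θ in zar k (Fin (KT w ρ b σ + j * MT w ρ b) ⊕ Fin (KT w ρ b σ + j * MT w ρ b)),
          AA (σ + 1) (w + 1 - j) T₀ (sv al (KT w ρ b σ + j * MT w ρ b) θ) := by
      intro j
      induction j with
      | zero =>
        intro _
        rw [Nat.zero_mul, Nat.add_zero]
        filter_upwards [ih] with θ hθ hs T' hd J hJ hst hc x
        refine hθ hs T' hd J hJ ?_ x
        rcases hc with hc | ⟨x', hx'⟩
        · exact hc
        · have h1 := Matrix.rank_le_width (ctxv J x')
          exact absurd hx' (by omega)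
      | succ j ihj =>
        intro hj
        have h1 := ihj (by omega)
        have e1 : KT w ρ b σ + (j + 1) * MT w ρ b = KT w ρ b σ + j * MT w ρ b + MT w ρ b := by
          ring
        have e2 : w + 1 - j = (w + 1 - (j + 1)) + 1 := by omega
        rw [e2] at h1
        rw [e1]
        exact aa_step al hal (σ + 1) (by omega) ρ b _ _ T₀ hcnt hbd h1
    have h1 := hj (w + 1) (le_refl _)
    have e1 : KT w ρ b (σ + 1) = KT w ρ b σ + (w + 1) * MT w ρ b := by
      unfold KT
      ring
    rw [e1]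
    filter_upwards [h1] with θ hθ hs T' hd J hJ hst x
    exact hθ hs T' hd J hJ (fun f hf => by have := hst f hf; omega)
      (Or.inr ⟨x, by rw [Nat.sub_self]; exact Nat.zero_le _⟩) x

end

end Pool.Agent.TRK
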