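import Pool.Agent.TRK.Defs
import Pool.Agent.UNK.Zar
import Pool.Agent.RKO.Wo

/-!
Project TRK (MP_e2be99_lc), module Ba.  Text: /team-store/trk_h34.md (section 1, values).
Definitions in `Pool/Agent/TRK/Defs.lean` (and `RKO/Defs.lean`, `UNK/Defs.lean`).  Keep the
statements; helper lemmas private.

PLAN.
* `val_dep`, `val_pf`: induction on the tree (leaf: the fields; node: sums and products, `PF.sum`, `PF.mul`, `PF.const`).
* `fl`: the letter of a frame: fields from `val_dep`, `val_pf` (give the definition; it must satisfy `fl_B`, `fl_f` by `rfl`).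
* `val_dec`: induction on `Dec`; the frame of `left` is `(μ, T₂)`: `val (node μ T₁ T₂) x i = ∑ j, (∑ l, μ i j l * val T₂ x l) * val T₁ x j`; for `right` exchange the sums.
* `st_zero`: by induction; `st = 0` at a node forces both children 0.
-/

set_option autoImplicit false

namespace Pool.Agent.TRK

open MvPolynomial
open Pool.Agent.UNK (zar PF dot tp fc Fc)
open Pool.Agent.RKO (Letter wv pt sv tf Srt)

universe u

section

variable {k : Type u} [Field k] {V : Type} {w : ℕ}

theorem val_dep (T : Tr k V w) {x x' : V → k} (h : ∀ u ∈ tv T, x u = x' u) : val T x = val T x' := by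
  classical
  induction T with
  | leaf B y dep pf =>
    show y x = y x'
    exact dep x x' h
  | node μ T₁ T₂ ih₁ ih₂ =>
    have h1 : val T₁ x = val T₁ x' := ih₁ fun u hu => h u (by
      unfold tv
      exact Finset.mem_union_left _ hu)
    have h2 : val T₂ x = val T₂ x' := ih₂ fun u hu => h u (by
      unfold tv
      exact Finset.mem_union_right _ hu)
    funext i
    show (∑ j, ∑ l, μ i j l * val T₁ x j * val T₂ x l) = ∑ j, ∑ l, μ i j l * val T₁ x' j * val T₂ x' l
    rw [h1, h2]

theorem val_pf (T : Tr k V w) (i : Fin w) : PF (fun x : V → k => val T x i) := by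
  induction T generalizing i with
  | leaf B y dep pf => exact pf i
  | node μ T₁ T₂ ih₁ ih₂ =>
    show PF (fun x : V → k => ∑ j, ∑ l, μ i j l * val T₁ x j * val T₂ x l)
    exact UNK.PF.sum _ fun j _ => UNK.PF.sum _ fun l _ =>
      UNK.PF.mul (UNK.PF.mul (UNK.PF.const _) (ih₁ j)) (ih₂ l)

theorem frm_dep (f : Frame k V w) {x x' : V → k} (h : ∀ u ∈ tv f.2, x u = x' u) :
    frm f x = frm f x' := by
  unfold frm
  rw [val_dep f.2 h]

theorem frm_pf (f : Frame k V w) (p q : Fin w) : PF (fun x : V → k => frm f x p q) := by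
  show PF (fun x : V → k => ∑ l, f.1 p q l * val f.2 x l)
  exact UNK.PF.sum _ fun l _ => UNK.PF.mul (UNK.PF.const _) (val_pf f.2 l)

/-- the letter of a frame -/
noncomputable def fl (f : Frame k V w) : Letter k V w where
  B := tv f.2
  f := frm f
  dep := fun _ _ h => frm_dep f h
  pf := fun p q => frm_pf f p q

theorem ctxv_wv (fs : List (Frame k V w)) (x : V → k) : ctxv fs x = wv (fs.map fl) x := by
  unfold ctxv wv
  rw [List.map_map]
  rfl

theorem ctxv_nil (x : V → k) : ctxv ([] : List (Frame k V w)) x = 1 := by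
  simp [ctxv]

theorem ctxv_append (fs gs : List (Frame k V w)) (x : V → k) :
    ctxv (fs ++ gs) x = ctxv fs x * ctxv gs x := by
  simp [ctxv]

theorem ctxv_pf (fs : List (Frame k V w)) (p q : Fin w) : PF (fun x : V → k => ctxv fs x p q) := by
  have h : (fun x : V → k => ctxv fs x p q) = fun x => wv (fs.map fl) x p q := by
    funext x
    rw [ctxv_wv]
  rw [h]
  exact RKO.wv_pf _ p q

theorem ctxv_dep (fs : List (Frame k V w)) {x x' : V → k}
    (h : ∀ u, inc fs u → x u = x' u) : ctxv fs x = ctxv fs x' := by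
  rw [ctxv_wv, ctxv_wv]
  refine RKO.wv_congr _ fun l hl u hu => ?_
  obtain ⟨f, hf, rfl⟩ := List.mem_map.1 hl
  exact h u ⟨f, hf, hu⟩

theorem val_dec {T T' : Tr k V w} {hs : List (Frame k V w)} (h : Dec T hs T') (x : V → k) :
    val T x = (ctxv hs x).mulVec (val T' x) := by
  induction h with
  | nil T => rw [ctxv_nil, Matrix.one_mulVec]
  | left μ T₁ T₂ fs T' h ih =>
    have h1 : ctxv ((μ, T₂) :: fs) x = frm (μ, T₂) x * ctxv fs x := by
      simp [ctxv]
    rw [h1, ← Matrix.mulVec_mulVec, ← ih]
    funext i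
    show (∑ j, ∑ l, μ i j l * val T₁ x j * val T₂ x l) =
      ∑ j, (∑ l, μ i j l * val T₂ x l) * val T₁ x j
    refine Finset.sum_congr rfl fun j _ => ?_
    rw [Finset.sum_mul]
    exact Finset.sum_congr rfl fun l _ => by ring
  | right μ T₁ T₂ fs T' h ih =>
    have h1 : ctxv (((fun i j l => μ i l j), T₁) :: fs) x =
        frm ((fun i j l => μ i l j), T₁) x * ctxv fs x := by
      simp [ctxv]
    rw [h1, ← Matrix.mulVec_mulVec, ← ih]
    funext i
    show (∑ j, ∑ l, μ i j l * val T₁ x j * val T₂ x l) =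
      ∑ j, (∑ l, μ i l j * val T₁ x l) * val T₂ x j
    rw [Finset.sum_comm]
    refine Finset.sum_congr rfl fun j _ => ?_
    rw [Finset.sum_mul]

theorem st_zero (T : Tr k V w) (h : st T = 0) : tv T = ∅ := by
  classical
  induction T with
  | leaf B y dep pf =>
    show B = ∅
    by_contra hB
    have h1 : st (Tr.leaf B y dep pf : Tr k V w) = 1 := by
      unfold st
      rw [if_neg hB]
    rw [h1] at h
    exact one_ne_zero h
  | node μ T₁ T₂ ih₁ ih₂ =>
    have h1 : st T₁ = 0 ∧ st T₂ = 0 := by
      unfold st at h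
      split_ifs at h with h2 h3
      · exact ⟨h3, h2 ▸ h3⟩
      · omega
    unfold tv
    rw [ih₁ h1.1, ih₂ h1.2]
    simp

end

end Pool.Agent.TRK
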