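import Pool.Agent.TRK.Defs

/-!
Project TRK (MP_e2be99_lc), module Bb.  Text: /team-store/trk_h34.md (section 1, decompositions).
Definitions in `Pool/Agent/TRK/Defs.lean` (and `RKO/Defs.lean`, `UNK/Defs.lean`).

Paths in trees: composition, cutting, side trees, variables and counts, Strahler numbers along a path (if
`st T ≤ σ` then at most one side tree has Strahler number `σ`), finiteness of the set of contexts.
-/

set_option autoImplicit false

namespace Pool.Agent.TRK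

open MvPolynomial
open Pool.Agent.UNK (zar PF dot tp fc Fc)
open Pool.Agent.RKO (Letter wv pt sv tf Srt)

universe u

section

variable {k : Type u} [Field k] {V : Type} {w : ℕ}

theorem dec_trans {T T' T'' : Tr k V w} {fs gs : List (Frame k V w)} (h : Dec T fs T')
    (h' : Dec T' gs T'') : Dec T (fs ++ gs) T'' := by
  induction h with
  | nil T => exact h'
  | left μ T₁ T₂ fs T' _ ih => exact Dec.left μ T₁ T₂ _ _ (ih h')
  | right μ T₁ T₂ fs T' _ ih => exact Dec.right μ T₁ T₂ _ _ (ih h')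

theorem dec_split {T T'' : Tr k V w} {fs gs : List (Frame k V w)} (h : Dec T (fs ++ gs) T'') :
    ∃ T', Dec T fs T' ∧ Dec T' gs T'' := by
  induction fs generalizing T with
  | nil => exact ⟨T, Dec.nil T, h⟩
  | cons f fs ih =>
    rw [List.cons_append] at h
    cases h with
    | left μ T₁ T₂ _ _ h =>
      obtain ⟨T', h1, h2⟩ := ih h
      exact ⟨T', Dec.left μ T₁ T₂ _ _ h1, h2⟩
    | right μ T₁ T₂ _ _ h =>
      obtain ⟨T', h1, h2⟩ := ih h
      exact ⟨T', Dec.right μ T₁ T₂ _ _ h1, h2⟩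

private theorem Bb_child {T T' : Tr k V w} {hs : List (Frame k V w)} {f : Frame k V w}
    (h : Dec T (f :: hs) T') : ∃ g : Frame k V w, Dec T [g] f.2 := by
  cases h with
  | left μ T₁ T₂ _ _ h =>
    exact ⟨_, Dec.right μ T₁ T₂ [] T₂ (Dec.nil T₂)⟩
  | right μ T₁ T₂ _ _ h =>
    exact ⟨_, Dec.left μ T₁ T₂ [] T₁ (Dec.nil T₁)⟩

theorem dec_side {T T' : Tr k V w} {hs₁ hs₂ : List (Frame k V w)} {f : Frame k V w}
    (h : Dec T (hs₁ ++ f :: hs₂) T') : ∃ g : Frame k V w, Dec T (hs₁ ++ [g]) f.2 := by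
  obtain ⟨T₀, h1, h2⟩ := dec_split h
  obtain ⟨g, hg⟩ := Bb_child h2
  exact ⟨g, dec_trans h1 hg⟩

theorem ha_sub {σ : ℕ} {v : V → k} {T T' : Tr k V w} {hs : List (Frame k V w)} (h : Dec T hs T')
    (hT : HA σ T v) : HA σ T' v := by
  intro gs T'' h' J hJ hst x
  exact hT (hs ++ gs) T'' (dec_trans h h') J (hJ.trans (List.suffix_append hs gs).isInfix) hst x

theorem ha_side {σ : ℕ} {v : V → k} {T T' : Tr k V w} {hs : List (Frame k V w)} (h : Dec T hs T')
    (hT : HA σ T v) {f : Frame k V w} (hf : f ∈ hs) : HA σ f.2 v := by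
  obtain ⟨hs₁, hs₂, rfl⟩ := List.append_of_mem hf
  obtain ⟨g, hg⟩ := dec_side h
  exact ha_sub hg hT

private theorem Bb_inc_cons (f : Frame k V w) (fs : List (Frame k V w)) (s : V) :
    inc (f :: fs) s ↔ s ∈ tv f.2 ∨ inc fs s := by
  unfold inc
  constructor
  · rintro ⟨g, hg, h⟩
    rcases List.mem_cons.1 hg with rfl | hg
    · exact Or.inl h
    · exact Or.inr ⟨g, hg, h⟩
  · rintro (h | ⟨g, hg, h⟩)
    · exact ⟨f, List.mem_cons_self, h⟩
    · exact ⟨g, List.mem_cons_of_mem _ hg, h⟩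

private theorem Bb_tv_node (μ : Fin w → Fin w → Fin w → k) (T₁ T₂ : Tr k V w) (s : V) :
    s ∈ tv (Tr.node μ T₁ T₂) ↔ s ∈ tv T₁ ∨ s ∈ tv T₂ := by
  classical
  simp only [tv, Finset.mem_union]

theorem tv_dec {T T' : Tr k V w} {hs : List (Frame k V w)} (h : Dec T hs T') (s : V) :
    s ∈ tv T ↔ inc hs s ∨ s ∈ tv T' := by
  induction h with
  | nil T =>
    constructor
    · exact fun h => Or.inr h
    · rintro (⟨f, hf, -⟩ | h)
      · exact absurd hf List.not_mem_nil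
      · exact h
  | left μ T₁ T₂ fs T' _ ih =>
    rw [Bb_tv_node, Bb_inc_cons, ih]
    tauto
  | right μ T₁ T₂ fs T' _ ih =>
    rw [Bb_tv_node, Bb_inc_cons, ih]
    tauto

theorem cnt_dec {T T' : Tr k V w} {hs : List (Frame k V w)} (h : Dec T hs T') (u : V) :
    cnt u T = (hs.map fun f => cnt u f.2).sum + cnt u T' := by
  induction h with
  | nil T => simp
  | left μ T₁ T₂ fs T' _ ih =>
    rw [List.map_cons, List.sum_cons]
    show cnt u T₁ + cnt u T₂ = cnt u T₂ + _ + _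
    rw [ih]
    ring
  | right μ T₁ T₂ fs T' _ ih =>
    rw [List.map_cons, List.sum_cons]
    show cnt u T₁ + cnt u T₂ = cnt u T₁ + _ + _
    rw [ih]
    ring

theorem bd_dec {T T' : Tr k V w} {hs : List (Frame k V w)} (h : Dec T hs T') {b : ℕ}
    (hb : bd b T) : bd b T' ∧ ∀ f ∈ hs, bd b f.2 := by
  induction h with
  | nil T => exact ⟨hb, fun f hf => absurd hf List.not_mem_nil⟩
  | left μ T₁ T₂ fs T' _ ih =>
    have hb' : bd b T₁ ∧ bd b T₂ := hb
    refine ⟨(ih hb'.1).1, fun f hf => ?_⟩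
    rcases List.mem_cons.1 hf with rfl | hf
    · exact hb'.2
    · exact (ih hb'.1).2 f hf
  | right μ T₁ T₂ fs T' _ ih =>
    have hb' : bd b T₁ ∧ bd b T₂ := hb
    refine ⟨(ih hb'.2).1, fun f hf => ?_⟩
    rcases List.mem_cons.1 hf with rfl | hf
    · exact hb'.1
    · exact (ih hb'.2).2 f hf

theorem ind_dec {T T' : Tr k V w} {hs : List (Frame k V w)} (h : Dec T hs T') {S : Finset V}
    (hS : ind S T) : ind S T' ∧ ∀ f ∈ hs, ind S f.2 := by
  induction h with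
  | nil T => exact ⟨hS, fun f hf => absurd hf List.not_mem_nil⟩
  | left μ T₁ T₂ fs T' _ ih =>
    have hb' : ind S T₁ ∧ ind S T₂ := hS
    refine ⟨(ih hb'.1).1, fun f hf => ?_⟩
    rcases List.mem_cons.1 hf with rfl | hf
    · exact hb'.2
    · exact (ih hb'.1).2 f hf
  | right μ T₁ T₂ fs T' _ ih =>
    have hb' : ind S T₁ ∧ ind S T₂ := hS
    refine ⟨(ih hb'.2).1, fun f hf => ?_⟩
    rcases List.mem_cons.1 hf with rfl | hf
    · exact hb'.1
    · exact (ih hb'.2).2 f hf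

theorem ind_mono {S S' : Finset V} (h : S' ⊆ S) {T : Tr k V w} (hS : ind S T) : ind S' T := by
  induction T with
  | leaf B y dep pf =>
    have hS' : ∀ s ∈ S, ∀ s' ∈ S, s ∈ B → s' ∈ B → s = s' := hS
    show ∀ s ∈ S', ∀ s' ∈ S', s ∈ B → s' ∈ B → s = s'
    exact fun s hs s' hs' => hS' s (h hs) s' (h hs')
  | node μ T₁ T₂ ih₁ ih₂ =>
    have hS' : ind S T₁ ∧ ind S T₂ := hS
    exact ⟨ih₁ hS'.1, ih₂ hS'.2⟩

theorem cnt_pos (T : Tr k V w) (s : V) : 0 < cnt s T ↔ s ∈ tv T := by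
  classical
  induction T with
  | leaf B y dep pf =>
    simp only [cnt, tv]
    by_cases hs : s ∈ B
    · simp [hs]
    · simp [hs]
  | node μ T₁ T₂ ih₁ ih₂ =>
    rw [Bb_tv_node, ← ih₁, ← ih₂]
    show 0 < cnt s T₁ + cnt s T₂ ↔ _
    omega

private theorem Bb_st_node (μ : Fin w → Fin w → Fin w → k) (T₁ T₂ : Tr k V w) :
    st T₁ ≤ st (Tr.node μ T₁ T₂) ∧ st T₂ ≤ st (Tr.node μ T₁ T₂) ∧
      ∀ σ, 1 ≤ σ → st T₁ = σ → st T₂ = σ → σ < st (Tr.node μ T₁ T₂) := by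
  classical
  have h : st (Tr.node μ T₁ T₂) =
      if st T₁ = st T₂ then (if st T₁ = 0 then 0 else st T₁ + 1) else max (st T₁) (st T₂) := by
    simp only [st]
  rw [h]
  refine ⟨?_, ?_, ?_⟩
  · split_ifs with h1 h2
    · omega
    · omega
    · exact le_max_left _ _
  · split_ifs with h1 h2
    · omega
    · omega
    · exact le_max_right _ _
  · intro σ h0 h1 h2
    rw [if_pos (h1.trans h2.symm), if_neg (by omega), h1]
    omega

private theorem Bb_st_mono {T T' : Tr k V w} {hs : List (Frame k V w)} (h : Dec T hs T') :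
    st T' ≤ st T ∧ ∀ f ∈ hs, st f.2 ≤ st T := by
  induction h with
  | nil T => exact ⟨le_refl _, fun f hf => absurd hf List.not_mem_nil⟩
  | left μ T₁ T₂ fs T' _ ih =>
    obtain ⟨a1, a2, -⟩ := Bb_st_node μ T₁ T₂
    refine ⟨ih.1.trans a1, fun f hf => ?_⟩
    rcases List.mem_cons.1 hf with rfl | hf
    · exact a2
    · exact (ih.2 f hf).trans a1
  | right μ T₁ T₂ fs T' _ ih =>
    obtain ⟨a1, a2, -⟩ := Bb_st_node μ T₁ T₂
    refine ⟨ih.1.trans a2, fun f hf => ?_⟩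
    rcases List.mem_cons.1 hf with rfl | hf
    · exact a1
    · exact (ih.2 f hf).trans a2

private theorem Bb_step {σ : ℕ} {a s : Tr k V w} {T' : Tr k V w} {fs : List (Frame k V w)}
    (g : Fin w → Fin w → Fin w → k) (h : Dec a fs T') (h1 : st a ≤ σ) (h2 : st s ≤ σ)
    (h3 : st s = σ → st a < σ)
    (ih : (∀ f ∈ fs, st f.2 < σ) ∨ ∃ hs₁ f hs₂, fs = hs₁ ++ f :: hs₂ ∧
      (∀ g ∈ hs₁, st g.2 < σ) ∧ ∀ g ∈ hs₂, st g.2 < σ) :
    (∀ f ∈ ((g, s) : Frame k V w) :: fs, st f.2 < σ) ∨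
      ∃ hs₁ f hs₂, ((g, s) : Frame k V w) :: fs = hs₁ ++ f :: hs₂ ∧
        (∀ g ∈ hs₁, st g.2 < σ) ∧ ∀ g ∈ hs₂, st g.2 < σ := by
  by_cases hs : st s = σ
  · refine Or.inr ⟨[], (g, s), fs, rfl, fun g hg => absurd hg List.not_mem_nil, fun f hf => ?_⟩
    exact lt_of_le_of_lt ((Bb_st_mono h).2 f hf) (h3 hs)
  · have hs' : st s < σ := lt_of_le_of_ne h2 hs
    rcases ih with ih | ⟨hs₁, f, hs₂, e1, e2, e3⟩
    · refine Or.inl fun f hf => ?_
      rcases List.mem_cons.1 hf with rfl | hf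
      · exact hs'
      · exact ih f hf
    · refine Or.inr ⟨(g, s) :: hs₁, f, hs₂, by rw [e1]; rfl, fun x hx => ?_, e3⟩
      rcases List.mem_cons.1 hx with rfl | hx
      · exact hs'
      · exact e2 x hx

theorem st_dec {σ : ℕ} (hσ : 1 ≤ σ) {T T' : Tr k V w} {hs : List (Frame k V w)} (h : Dec T hs T')
    (hT : st T ≤ σ) : st T' ≤ σ ∧ (∀ f ∈ hs, st f.2 ≤ σ) ∧
      ((∀ f ∈ hs, st f.2 < σ) ∨ ∃ hs₁ f hs₂, hs = hs₁ ++ f :: hs₂ ∧
        (∀ g ∈ hs₁, st g.2 < σ) ∧ ∀ g ∈ hs₂, st g.2 < σ) := by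
  refine ⟨(Bb_st_mono h).1.trans hT, fun f hf => ((Bb_st_mono h).2 f hf).trans hT, ?_⟩
  induction h with
  | nil T => exact Or.inl fun f hf => absurd hf List.not_mem_nil
  | left μ T₁ T₂ fs T' h ih =>
    obtain ⟨a1, a2, a3⟩ := Bb_st_node μ T₁ T₂
    refine Bb_step μ h (a1.trans hT) (a2.trans hT) (fun hs => ?_) (ih (a1.trans hT))
    refine lt_of_le_of_ne (a1.trans hT) fun he => ?_
    exact absurd (a3 σ hσ he hs) (not_lt.2 hT)
  | right μ T₁ T₂ fs T' h ih =>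
    obtain ⟨a1, a2, a3⟩ := Bb_st_node μ T₁ T₂
    refine Bb_step _ h (a2.trans hT) (a1.trans hT) (fun hs => ?_) (ih (a2.trans hT))
    refine lt_of_le_of_ne (a2.trans hT) fun he => ?_
    exact absurd (a3 σ hσ hs he) (not_lt.2 hT)

private theorem Bb_paths (T : Tr k V w) : {hs : List (Frame k V w) | ∃ T', Dec T hs T'}.Finite := by
  induction T with
  | leaf B y dep pf =>
    refine (Set.finite_singleton ([] : List (Frame k V w))).subset ?_
    rintro hs ⟨T', h⟩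
    cases h
    rfl
  | node μ T₁ T₂ ih₁ ih₂ =>
    refine (((Set.finite_singleton ([] : List (Frame k V w))).union
      (ih₁.image fun fs => ((μ, T₂) : Frame k V w) :: fs)).union
      (ih₂.image fun fs => (((fun i j l => μ i l j), T₁) : Frame k V w) :: fs)).subset ?_
    rintro hs ⟨T', h⟩
    cases h with
    | nil => exact Or.inl (Or.inl rfl)
    | left _ _ _ fs _ h => exact Or.inl (Or.inr ⟨fs, ⟨T', h⟩, rfl⟩)
    | right _ _ _ fs _ h => exact Or.inr ⟨fs, ⟨T', h⟩, rfl⟩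

theorem dec_fin (T : Tr k V w) :
    {J : List (Frame k V w) | ∃ hs T', Dec T hs T' ∧ J <:+: hs}.Finite := by
  refine ((Bb_paths T).biUnion (t := fun hs => {J | J ∈ hs.sublists})
    fun hs _ => List.finite_toSet _).subset ?_
  rintro J ⟨hs, T', h, hJ⟩
  simp only [Set.mem_iUnion]
  exact ⟨hs, ⟨T', h⟩, List.mem_sublists.2 hJ.sublist⟩

end

end Pool.Agent.TRK
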