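import Pool.Agent.RKO.Defs

/-!
Project TRK (MP_e2be99_lc): tree programs of constant width and constant read.  Definitions.
Text of the proof: /team-store/trk_h34.md
-/

set_option autoImplicit false

namespace Pool.Agent.TRK

open MvPolynomial
open Pool.Agent.UNK (zar PF dot tp fc Fc)
open Pool.Agent.RKO (Letter wv pt sv tf Srt)

universe u

/-- tree programs of width `w`: leaves are vectors of polynomial functions of the variables in `B`,
the nodes are bilinear maps -/
inductive Tr (k : Type u) [Field k] (V : Type) (w : ℕ) : Type u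
  | leaf (B : Finset V) (y : (V → k) → Fin w → k)
      (dep : ∀ x x' : V → k, (∀ u ∈ B, x u = x' u) → y x = y x')
      (pf : ∀ i, PF fun x => y x i) : Tr k V w
  | node (μ : Fin w → Fin w → Fin w → k) (T₁ T₂ : Tr k V w) : Tr k V w

section

variable {k : Type u} [Field k] {V : Type} {w : ℕ}

/-- the value of a tree program -/
def val : Tr k V w → (V → k) → Fin w → k
  | Tr.leaf _ y _ _, x => y x
  | Tr.node μ T₁ T₂, x => fun i => ∑ j, ∑ l, μ i j l * val T₁ x j * val T₂ x l

open scoped Classical in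
/-- the variables of a tree -/
noncomputable def tv : Tr k V w → Finset V
  | Tr.leaf B _ _ _ => B
  | Tr.node _ T₁ T₂ => tv T₁ ∪ tv T₂

open scoped Classical in
/-- the number of leaves which read the variable `u` -/
noncomputable def cnt (u : V) : Tr k V w → ℕ
  | Tr.leaf B _ _ _ => if u ∈ B then 1 else 0
  | Tr.node _ T₁ T₂ => cnt u T₁ + cnt u T₂

/-- every leaf reads at most `b` variables -/
def bd (b : ℕ) : Tr k V w → Prop
  | Tr.leaf B _ _ _ => B.card ≤ b
  | Tr.node _ T₁ T₂ => bd b T₁ ∧ bd b T₂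

/-- every leaf reads at most one variable of the set `S` -/
def ind (S : Finset V) : Tr k V w → Prop
  | Tr.leaf B _ _ _ => ∀ s ∈ S, ∀ s' ∈ S, s ∈ B → s' ∈ B → s = s'
  | Tr.node _ T₁ T₂ => ind S T₁ ∧ ind S T₂

open scoped Classical in
/-- the Strahler number (leaves without variables do not count) -/
noncomputable def st : Tr k V w → ℕ
  | Tr.leaf B _ _ _ => if B = ∅ then 0 else 1
  | Tr.node _ T₁ T₂ =>
      if st T₁ = st T₂ then (if st T₁ = 0 then 0 else st T₁ + 1) else max (st T₁) (st T₂)

/-- frames: a bilinear map and the tree in its second argument -/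
abbrev Frame (k : Type u) [Field k] (V : Type) (w : ℕ) : Type u :=
  (Fin w → Fin w → Fin w → k) × Tr k V w

/-- the matrix of a frame -/
def frm (f : Frame k V w) (x : V → k) : Matrix (Fin w) (Fin w) k :=
  Matrix.of fun i j => ∑ l, f.1 i j l * val f.2 x l

/-- the matrix of a context (a list of frames) -/
def ctxv (fs : List (Frame k V w)) (x : V → k) : Matrix (Fin w) (Fin w) k :=
  (fs.map fun f => frm f x).prod

/-- `Dec T fs T'`: the tree `T` is the context `fs` around the subtree `T'` -/
inductive Dec : Tr k V w → List (Frame k V w) → Tr k V w → Prop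
  | nil (T : Tr k V w) : Dec T [] T
  | left (μ : Fin w → Fin w → Fin w → k) (T₁ T₂ : Tr k V w) (fs : List (Frame k V w))
      (T' : Tr k V w) (h : Dec T₁ fs T') : Dec (Tr.node μ T₁ T₂) ((μ, T₂) :: fs) T'
  | right (μ : Fin w → Fin w → Fin w → k) (T₁ T₂ : Tr k V w) (fs : List (Frame k V w))
      (T' : Tr k V w) (h : Dec T₂ fs T') :
      Dec (Tr.node μ T₁ T₂) ((fun i j l => μ i l j, T₁) :: fs) T'

/-- the variable `s` occurs in the context -/
def inc (fs : List (Frame k V w)) (s : V) : Prop := ∃ f ∈ fs, s ∈ tv f.2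

/-- all intervals of the context have their greatest rank at `v` -/
def AlvC (fs : List (Frame k V w)) (v : V → k) : Prop :=
  ∀ J : List (Frame k V w), J <:+: fs → ∀ x : V → k, (ctxv J x).rank ≤ (ctxv J v).rank

/-- inside `T` all contexts with side trees of Strahler number less than `σ` have their greatest
rank at `v` -/
def HA (σ : ℕ) (T : Tr k V w) (v : V → k) : Prop :=
  ∀ hs T', Dec T hs T' → ∀ J : List (Frame k V w), J <:+: hs → (∀ f ∈ J, st f.2 < σ) →
    ∀ x : V → k, (ctxv J x).rank ≤ (ctxv J v).rank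

/-- the same for the contexts with side trees of Strahler number at most `σ`, and less than `σ` or
of generic rank at least `r` -/
def AA (σ r : ℕ) (T : Tr k V w) (v : V → k) : Prop :=
  ∀ hs T', Dec T hs T' → ∀ J : List (Frame k V w), J <:+: hs → (∀ f ∈ J, st f.2 ≤ σ) →
    ((∀ f ∈ J, st f.2 < σ) ∨ ∃ x : V → k, r ≤ (ctxv J x).rank) →
      ∀ x : V → k, (ctxv J x).rank ≤ (ctxv J v).rank

end

/-- pieces: contexts and closed trees -/
inductive Pc (k : Type u) [Field k] (V : Type) (w : ℕ) : Type u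
  | ctx (fs : List (Frame k V w)) : Pc k V w
  | cl (T : Tr k V w) : Pc k V w

section

variable {k : Type u} [Field k] {V : Type} {w : ℕ}

/-- the space spanned by the entries of the value of a piece -/
def EE : Pc k V w → Submodule k ((V → k) → k)
  | Pc.ctx fs => Submodule.span k {h | ∃ p q, h = fun x => ctxv fs x p q}
  | Pc.cl T => Submodule.span k {h | ∃ i, h = fun x => val T x i}

/-- the variable `s` occurs in the piece -/
def oc : Pc k V w → V → Prop
  | Pc.ctx fs, s => inc fs s
  | Pc.cl T, s => s ∈ tv T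

/-- number of leaves of the piece which read `u` -/
noncomputable def pcnt (u : V) : Pc k V w → ℕ
  | Pc.ctx fs => (fs.map fun f => cnt u f.2).sum
  | Pc.cl T => cnt u T

/-- every leaf of the piece reads at most `b` variables -/
def pbd (b : ℕ) : Pc k V w → Prop
  | Pc.ctx fs => ∀ f ∈ fs, bd b f.2
  | Pc.cl T => bd b T

/-- every leaf of the piece reads at most one variable of `S` -/
def pind (S : Finset V) : Pc k V w → Prop
  | Pc.ctx fs => ∀ f ∈ fs, ind S f.2
  | Pc.cl T => ind S T

/-- admissible pieces at `v` -/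
def SA (σ : ℕ) (v : V → k) : Pc k V w → Prop
  | Pc.ctx fs => (∀ f ∈ fs, st f.2 ≤ σ ∧ HA σ f.2 v) ∧ (AlvC fs v ∨ fs.length ≤ 1)
  | Pc.cl T => st T ≤ σ ∧ HA σ T v

open scoped Classical in
/-- no cut of a path of `T` splits `q₁` variables of `S` -/
def tightT (q₁ : ℕ) (S : Finset V) (T : Tr k V w) : Prop :=
  ∀ hs T', Dec T hs T' → (S.filter fun s => inc hs s ∧ s ∈ tv T').card < q₁

open scoped Classical in
/-- no cut of the piece splits `q₁` variables of `S` -/
def tight (q₁ : ℕ) (S : Finset V) : Pc k V w → Prop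
  | Pc.ctx fs => (∀ gs₁ gs₂, fs = gs₁ ++ gs₂ →
      (S.filter fun s => inc gs₁ s ∧ inc gs₂ s).card < q₁) ∧ ∀ f ∈ fs, tightT q₁ S f.2
  | Pc.cl T => tightT q₁ S T

/-- the piece is free of the variables of `ss` -/
def free (ss : List V) (X : Pc k V w) : Prop := ∀ s ∈ ss, ¬ oc X s

/-- the piece is a context with all intervals alive at `v`, sorted for `ss` or for its reverse, and
every frame contains at most one element of `ss` -/
def good (v : V → k) (ss : List V) (X : Pc k V w) : Prop :=
  ∃ fs : List (Frame k V w), X = Pc.ctx fs ∧ AlvC fs v ∧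
    (Srt (fun (f : Frame k V w) s => s ∈ tv f.2) ss fs ∨
      Srt (fun (f : Frame k V w) s => s ∈ tv f.2) ss.reverse fs) ∧
    ∀ f ∈ fs, ∀ s ∈ ss, ∀ s' ∈ ss, s ∈ tv f.2 → s' ∈ tv f.2 → s = s'

end

/-- threshold for the heavy path -/
def HV (q₁ : ℕ) : ℕ → ℕ
  | 0 => 0
  | m + 1 => 2 * HV q₁ m + 2 * q₁ + 4

/-- threshold for one piece -/
def PP (q₁ m : ℕ) : ℕ := m + (m + 1) * (2 * q₁ + HV q₁ (m + 1) + 1)

/-- threshold for `c` pieces -/
def H2 (q₁ : ℕ) : ℕ → ℕ → ℕ
  | 0, q => q
  | c + 1, q => PP q₁ (H2 q₁ c (q * q))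

/-- threshold for the first phase -/
def TT (c q : ℕ) : ℕ → ℕ
  | 0 => H2 1 c q
  | t + 1 => H2 (TT c q t) c q

/-- the number of pieces before the second phase -/
def cc (ρ : ℕ) : ℕ := 4 + 5 * ρ

/-- bound for critical sets -/
def MT (w ρ b : ℕ) : ℕ := TT (cc ρ) (fc (w ^ (w * (6 * cc ρ))) + 1) ρ * (ρ * b + 1)

/-- the level -/
def KT (w ρ b σ : ℕ) : ℕ := σ * ((w + 1) * MT w ρ b)

end Pool.Agent.TRK
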