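import Pool.Agent.TRK.Ba
import Pool.Agent.UNK.Tp
import Pool.Agent.RKO.Tf

/-!
Project TRK (MP_e2be99_lc), module Ea.  Text: /team-store/trk_h34.md (section 1, the spaces E).
Definitions in `Pool/Agent/TRK/Defs.lean` (and `RKO/Defs.lean`, `UNK/Defs.lean`).  Helper lemmas are
private.

PLAN.
`Submodule k ((V → k) → k)` is a commutative semiring (the functions form a commutative algebra); products of spans: `Submodule.span_mul_span`, `Submodule.mul_mem_mul`.
* `ee_append`: an entry of a product of two matrices is a sum of products of entries (`ctxv_append`).  `ee_frame`: an entry of `frm f` is a linear combination of the coordinates of `val f.2`.  `ee_dec`: `val_dec`.  `ee_nil`: entries 0 or 1.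
* `ee_split`: three parts, from the others.
* `det_mem`: `Matrix.det_apply`: a linear combination of products of `r` entries of `U * ctxv fs x * W`, each in `EE (ctx fs)`.
* `pf_mem`: the polynomial functions are closed under products and sums (show that `{h | PF h}` is a submodule, each `EE X` is contained in it, `Submodule.pow_induction_on..` or: the set of PF functions is the carrier of a subalgebra `P`, and `EE X ≤ P.toSubmodule`, which is
  idempotent under products).
* `rep`: the set of functions `x ↦ dot Φ (tf ..)` is a submodule; `((Ms.map ES).prod) ^ g` is spanned by products over `Fin g × Fin m` of entries; each product `∏ ij, Ms.get ij.2 x (P ij) (P' ij)` is an entry of `tf`.  (Induction on `g` and on the list, or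
  `Submodule.span_induction` after writing the product of spans as a span.)
-/

set_option autoImplicit false

namespace Pool.Agent.TRK

open MvPolynomial
open Pool.Agent.UNK (zar PF dot tp fc Fc)
open Pool.Agent.RKO (Letter wv pt sv tf Srt)

universe u

section

variable {k : Type u} [Field k] {V : Type} {w : ℕ}

private theorem ea_ctx (fs : List (Frame k V w)) (p q : Fin w) :
    (fun x : V → k => ctxv fs x p q) ∈ EE (Pc.ctx fs) :=
  Submodule.subset_span ⟨p, q, rfl⟩

private theorem ea_cl (T : Tr k V w) (i : Fin w) :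
    (fun x : V → k => val T x i) ∈ EE (Pc.cl T) :=
  Submodule.subset_span ⟨i, rfl⟩

private theorem ea_sum {J : Type} [Fintype J] {S : Submodule k ((V → k) → k)}
    {f : J → (V → k) → k} (hf : ∀ j, f j ∈ S) : (fun x => ∑ j, f j x) ∈ S := by
  have h1 : (fun x => ∑ j, f j x) = ∑ j, f j := by
    funext x
    rw [Finset.sum_apply]
  rw [h1]
  exact Submodule.sum_mem _ fun j _ => hf j

private theorem ea_smul {S : Submodule k ((V → k) → k)} (c : k)
    {f : (V → k) → k} (hf : f ∈ S) : (fun x => c * f x) ∈ S :=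
  Submodule.smul_mem S c hf

private theorem ea_mul {S T : Submodule k ((V → k) → k)}
    {f g : (V → k) → k} (hf : f ∈ S) (hg : g ∈ T) : (fun x => f x * g x) ∈ S * T :=
  Submodule.mul_mem_mul hf hg

theorem ee_append (fs gs : List (Frame k V w)) :
    EE (Pc.ctx (fs ++ gs)) ≤ EE (Pc.ctx fs) * EE (Pc.ctx gs) := by
  refine Submodule.span_le.mpr ?_
  rintro h ⟨p, q, rfl⟩
  have h1 : (fun x : V → k => ctxv (fs ++ gs) x p q) =
      fun x => ∑ j, ctxv fs x p j * ctxv gs x j q := by
    funext x
    rw [ctxv_append, Matrix.mul_apply]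
  show (fun x : V → k => ctxv (fs ++ gs) x p q) ∈ EE (Pc.ctx fs) * EE (Pc.ctx gs)
  rw [h1]
  exact ea_sum fun j => ea_mul (ea_ctx fs p j) (ea_ctx gs j q)

theorem ee_frame (f : Frame k V w) : EE (Pc.ctx [f]) ≤ EE (Pc.cl f.2) := by
  refine Submodule.span_le.mpr ?_
  rintro h ⟨p, q, rfl⟩
  have h1 : (fun x : V → k => ctxv [f] x p q) =
      fun x => ∑ l, f.1 p q l * val f.2 x l := by
    funext x
    have h2 : ctxv [f] x = frm f x := by
      show (List.map (fun f => frm f x) [f]).prod = frm f x
      rw [List.map_singleton, List.prod_singleton]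
    rw [h2]
    rfl
  show (fun x : V → k => ctxv [f] x p q) ∈ EE (Pc.cl f.2)
  rw [h1]
  exact ea_sum fun l => ea_smul _ (ea_cl f.2 l)

theorem ee_dec {T T' : Tr k V w} {hs : List (Frame k V w)} (h : Dec T hs T') :
    EE (Pc.cl T) ≤ EE (Pc.ctx hs) * EE (Pc.cl T') := by
  refine Submodule.span_le.mpr ?_
  rintro h' ⟨i, rfl⟩
  have h1 : (fun x : V → k => val T x i) =
      fun x => ∑ j, ctxv hs x i j * val T' x j := by
    funext x
    rw [val_dec h x]
    rfl
  show (fun x : V → k => val T x i) ∈ EE (Pc.ctx hs) * EE (Pc.cl T')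
  rw [h1]
  exact ea_sum fun j => ea_mul (ea_ctx hs i j) (ea_cl T' j)

theorem ee_nil : EE (Pc.ctx ([] : List (Frame k V w))) ≤ 1 := by
  refine Submodule.span_le.mpr ?_
  rintro h' ⟨p, q, rfl⟩
  refine Submodule.mem_one.mpr ⟨(1 : Matrix (Fin w) (Fin w) k) p q, ?_⟩
  funext x
  rw [ctxv_nil]
  rfl

private theorem ea_prod {S : Submodule k ((V → k) → k)} :
    ∀ (r : ℕ) (f : Fin r → (V → k) → k), (∀ i, f i ∈ S) → (fun x => ∏ i, f i x) ∈ S ^ r
  | 0, f, _ => by
      rw [pow_zero]
      refine Submodule.mem_one.mpr ⟨1, ?_⟩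
      funext x
      rw [Fin.prod_univ_zero, map_one]
      rfl
  | r + 1, f, hf => by
      have h1 : (fun x => ∏ i, f i x) =
          fun x => (∏ i : Fin r, f i.castSucc x) * f (Fin.last r) x := by
        funext x
        rw [Fin.prod_univ_castSucc]
      rw [h1, pow_succ]
      exact ea_mul (ea_prod r (fun i => f i.castSucc) fun i => hf _) (hf _)

theorem det_mem {r : ℕ} (fs : List (Frame k V w)) (U : Matrix (Fin r) (Fin w) k)
    (W : Matrix (Fin w) (Fin r) k) :
    (fun x : V → k => (U * ctxv fs x * W).det) ∈ EE (Pc.ctx fs) ^ r := by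
  have h1 : (fun x : V → k => (U * ctxv fs x * W).det) = fun x =>
      ∑ τ : Equiv.Perm (Fin r), ((Equiv.Perm.sign τ : ℤ) : k) *
        ∏ i, (U * ctxv fs x * W) (τ i) i := by
    funext x
    rw [Matrix.det_apply']
  rw [h1]
  refine ea_sum fun τ => ea_smul _ ?_
  refine ea_prod r (fun i x => (U * ctxv fs x * W) (τ i) i) fun i => ?_
  have h2 : (fun x : V → k => (U * ctxv fs x * W) (τ i) i) = fun x =>
      ∑ q, ∑ p, (W q i * U (τ i) p) * ctxv fs x p q := by
    funext x
    rw [Matrix.mul_apply]
    refine Finset.sum_congr rfl fun q _ => ?_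
    rw [Matrix.mul_apply, Finset.sum_mul]
    exact Finset.sum_congr rfl fun p _ => by ring
  show (fun x : V → k => (U * ctxv fs x * W) (τ i) i) ∈ EE (Pc.ctx fs)
  rw [h2]
  exact ea_sum fun q => ea_sum fun p => ea_smul _ (ea_ctx fs p q)

theorem pf_mem (Xs : List (Pc k V w)) (g : ℕ) {F : (V → k) → k}
    (hF : F ∈ ((Xs.map EE).prod) ^ g) : PF F := by
  let P : Submodule k ((V → k) → k) :=
    { carrier := {h | PF h}
      add_mem' := fun ha hb => PF.add ha hb
      zero_mem' := PF.const 0
      smul_mem' := fun c _ ha => PF.mul (PF.const c) ha }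
  have h1 : (1 : Submodule k ((V → k) → k)) ≤ P := by
    intro f hf
    obtain ⟨c, rfl⟩ := Submodule.mem_one.mp hf
    exact PF.const c
  have h2 : P * P ≤ P := Submodule.mul_le.mpr fun m hm n hn => PF.mul hm hn
  have h3 : ∀ X : Pc k V w, EE X ≤ P := by
    intro X
    cases X with
    | ctx fs =>
        refine Submodule.span_le.mpr ?_
        rintro h ⟨p, q, rfl⟩
        exact ctxv_pf fs p q
    | cl T =>
        refine Submodule.span_le.mpr ?_
        rintro h ⟨i, rfl⟩
        exact val_pf T i
  have h4 : (Xs.map EE).prod ≤ P := by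
    clear hF
    induction Xs with
    | nil => exact h1
    | cons X Xs ih =>
        rw [List.map_cons, List.prod_cons]
        exact (mul_le_mul' (h3 X) ih).trans h2
  have h5 : ∀ n : ℕ, ((Xs.map EE).prod) ^ n ≤ P := by
    intro n
    induction n with
    | zero => rw [pow_zero]; exact h1
    | succ n ih =>
        rw [pow_succ]
        exact (mul_le_mul' ih h4).trans h2
  exact h5 g hF

/-- the span of the entries of a matrix function -/
def ES {X : Type*} (M : X → Matrix (Fin w) (Fin w) k) : Submodule k (X → k) :=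
  Submodule.span k {h | ∃ p q, h = fun x => M x p q}

private theorem rep_one {X : Type*} : ∀ Ms : List (X → Matrix (Fin w) (Fin w) k),
    (Ms.map ES).prod ≤ Submodule.span k {h : X → k | ∃ p p' : Fin Ms.length → Fin w,
      h = fun x => ∏ j, Ms.get j x (p j) (p' j)}
  | [] => by
      rw [List.map_nil, List.prod_nil]
      intro f hf
      obtain ⟨c, rfl⟩ := Submodule.mem_one.mp hf
      have h1 : (algebraMap k (X → k)) c = c • (1 : X → k) := by
        rw [Algebra.algebraMap_eq_smul_one]
      rw [h1]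
      refine Submodule.smul_mem _ c (Submodule.subset_span ⟨fun j => j.elim0, fun j => j.elim0, ?_⟩)
      funext x
      exact (Fin.prod_univ_zero _).symm
  | M :: Ms => by
      rw [List.map_cons, List.prod_cons]
      refine (mul_le_mul' le_rfl (rep_one Ms)).trans ?_
      unfold ES
      rw [Submodule.span_mul_span]
      refine Submodule.span_mono ?_
      rintro _ ⟨_, ⟨a, b, rfl⟩, _, ⟨p, p', rfl⟩, rfl⟩
      refine ⟨Fin.cons a p, Fin.cons b p', ?_⟩
      funext x
      have h1 : (∏ j : Fin (Ms.length + 1), (M :: Ms).get j x ((Fin.cons a p : Fin (Ms.length + 1) → Fin w) j)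
          ((Fin.cons b p' : Fin (Ms.length + 1) → Fin w) j)) =
          M x a b * ∏ j : Fin Ms.length, Ms.get j x (p j) (p' j) := by
        rw [Fin.prod_univ_succ]
        rfl
      exact h1.symm

private theorem rep_pow {X : Type*} (Ms : List (X → Matrix (Fin w) (Fin w) k)) : ∀ g : ℕ,
    ((Ms.map ES).prod) ^ g ≤ Submodule.span k {h : X → k |
      ∃ P P' : Fin g → Fin Ms.length → Fin w,
        h = fun x => ∏ i, ∏ j, Ms.get j x (P i j) (P' i j)}
  | 0 => by
      rw [pow_zero]
      intro f hf
      obtain ⟨c, rfl⟩ := Submodule.mem_one.mp hf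
      have h1 : (algebraMap k (X → k)) c = c • (1 : X → k) := by
        rw [Algebra.algebraMap_eq_smul_one]
      rw [h1]
      refine Submodule.smul_mem _ c (Submodule.subset_span ⟨fun j => j.elim0, fun j => j.elim0, ?_⟩)
      funext x
      exact (Fin.prod_univ_zero _).symm
  | g + 1 => by
      rw [pow_succ]
      refine (mul_le_mul' (rep_pow Ms g) (rep_one Ms)).trans ?_
      rw [Submodule.span_mul_span]
      refine Submodule.span_mono ?_
      rintro _ ⟨_, ⟨P, P', rfl⟩, _, ⟨p, p', rfl⟩, rfl⟩
      refine ⟨Fin.snoc P p, Fin.snoc P' p', ?_⟩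
      funext x
      rw [Fin.prod_univ_castSucc]
      simp only [Fin.snoc_castSucc, Fin.snoc_last]
      rfl

theorem rep {X : Type*} (Ms : List (X → Matrix (Fin w) (Fin w) k)) (g : ℕ) (h : X → k)
    (hh : h ∈ ((Ms.map ES).prod) ^ g) :
    ∃ Φ : Matrix (Fin g × Fin Ms.length → Fin w) (Fin g × Fin Ms.length → Fin w) k,
      ∀ x, h x = dot Φ (tf fun ij : Fin g × Fin Ms.length => Ms.get ij.2 x) := by
  classical
  have hh' := rep_pow Ms g hh
  refine Submodule.span_induction (p := fun h _ =>
    ∃ Φ : Matrix (Fin g × Fin Ms.length → Fin w) (Fin g × Fin Ms.length → Fin w) k,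
      ∀ x, h x = dot Φ (tf fun ij : Fin g × Fin Ms.length => Ms.get ij.2 x)) ?_ ?_ ?_ ?_ hh'
  · rintro _ ⟨P, P', rfl⟩
    refine ⟨Matrix.of fun a b => if a = (fun ij => P ij.1 ij.2) then
      (if b = (fun ij => P' ij.1 ij.2) then 1 else 0) else 0, fun x => ?_⟩
    unfold dot
    rw [Finset.sum_eq_single (fun ij : Fin g × Fin Ms.length => P ij.1 ij.2),
      Finset.sum_eq_single (fun ij : Fin g × Fin Ms.length => P' ij.1 ij.2)]
    · rw [Matrix.of_apply, if_pos rfl, if_pos rfl, one_mul]
      exact (Fintype.prod_prod_type (f := fun ij : Fin g × Fin Ms.length =>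
        Ms.get ij.2 x (P ij.1 ij.2) (P' ij.1 ij.2))).symm
    · intro b _ hb
      rw [Matrix.of_apply, if_pos rfl, if_neg hb, zero_mul]
    · intro hb
      exact absurd (Finset.mem_univ _) hb
    · intro a _ ha
      refine Finset.sum_eq_zero fun b _ => ?_
      rw [Matrix.of_apply, if_neg ha, zero_mul]
    · intro hb
      exact absurd (Finset.mem_univ _) hb
  · refine ⟨0, fun x => ?_⟩
    unfold dot
    simp only [Matrix.zero_apply, zero_mul, Finset.sum_const_zero]
    rfl
  · rintro a b _ _ ⟨Φ, hΦ⟩ ⟨Ψ, hΨ⟩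
    refine ⟨Φ + Ψ, fun x => ?_⟩
    have h1 := hΦ x
    have h2 := hΨ x
    unfold dot at h1 h2 ⊢
    rw [Pi.add_apply, h1, h2]
    simp only [Matrix.add_apply, add_mul, Finset.sum_add_distrib]
  · rintro c a _ ⟨Φ, hΦ⟩
    refine ⟨c • Φ, fun x => ?_⟩
    have h1 := hΦ x
    unfold dot at h1 ⊢
    rw [Pi.smul_apply, h1, smul_eq_mul, Finset.mul_sum]
    refine Finset.sum_congr rfl fun p _ => ?_
    rw [Finset.mul_sum]
    refine Finset.sum_congr rfl fun q _ => ?_
    rw [Matrix.smul_apply, smul_eq_mul, mul_assoc]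

end

end Pool.Agent.TRK
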