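import Pool.Agent.TRK.Ft
import Pool.Agent.RKO.Hs

/-!
Project TRK (MP_e2be99_lc), module Fo.  Text: /team-store/trk_h34.md (section 0, polynomial tree programs and formulas).
Definitions in `Pool/Agent/TRK/Defs.lean` (and `RKO/Defs.lean`, `UNK/Defs.lean`).

Polynomial tree programs are tree programs (`fo_tr`), formulas are tree programs of width two, the Strahler number is at
most logarithmic in the number of leaves, and the hitting property passes to products and divisors.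
-/

set_option autoImplicit false

namespace Pool.Agent.TRK

open MvPolynomial
open Pool.Agent.UNK (zar PF dot tp fc Fc)
open Pool.Agent.RKO (Letter wv pt sv tf Srt)

universe u

section

/-- tree programs of width `w` with polynomial leaves -/
inductive PTr (k : Type u) [Field k] (n w : ℕ) : Type u
  | leaf (y : Fin w → MvPolynomial (Fin n) k) : PTr k n w
  | node (μ : Fin w → Fin w → Fin w → k) (T₁ T₂ : PTr k n w) : PTr k n w

/-- formulas with leaves labelled by polynomials -/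
inductive Fm (k : Type u) [Field k] (n : ℕ) : Type u
  | leaf (p : MvPolynomial (Fin n) k) : Fm k n
  | add (F₁ F₂ : Fm k n) : Fm k n
  | mul (F₁ F₂ : Fm k n) : Fm k n

variable {k : Type u} [Field k] {n w : ℕ}

/-- the value of a tree program -/
noncomputable def PTr.val : PTr k n w → Fin w → MvPolynomial (Fin n) k
  | PTr.leaf y => y
  | PTr.node μ T₁ T₂ => fun i => ∑ j, ∑ l, C (μ i j l) * PTr.val T₁ j * PTr.val T₂ l

/-- the variables of a leaf -/
noncomputable def lvars (y : Fin w → MvPolynomial (Fin n) k) : Finset (Fin n) :=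
  Finset.univ.biUnion fun i => (y i).vars

/-- number of leaves which contain the variable `u` -/
noncomputable def PTr.cnt (u : Fin n) : PTr k n w → ℕ
  | PTr.leaf y => if u ∈ lvars y then 1 else 0
  | PTr.node _ T₁ T₂ => PTr.cnt u T₁ + PTr.cnt u T₂

/-- every leaf contains at most `b` variables -/
def PTr.bd (b : ℕ) : PTr k n w → Prop
  | PTr.leaf y => (lvars y).card ≤ b
  | PTr.node _ T₁ T₂ => PTr.bd b T₁ ∧ PTr.bd b T₂

/-- the Strahler number -/
noncomputable def PTr.st : PTr k n w → ℕ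
  | PTr.leaf y => if lvars y = ∅ then 0 else 1
  | PTr.node _ T₁ T₂ =>
      if PTr.st T₁ = PTr.st T₂ then (if PTr.st T₁ = 0 then 0 else PTr.st T₁ + 1)
      else max (PTr.st T₁) (PTr.st T₂)

/-- the polynomial of a formula -/
noncomputable def Fm.val : Fm k n → MvPolynomial (Fin n) k
  | Fm.leaf p => p
  | Fm.add F₁ F₂ => Fm.val F₁ + Fm.val F₂
  | Fm.mul F₁ F₂ => Fm.val F₁ * Fm.val F₂

/-- number of leaves which contain the variable `u` -/
noncomputable def Fm.cnt (u : Fin n) : Fm k n → ℕ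
  | Fm.leaf p => if u ∈ p.vars then 1 else 0
  | Fm.add F₁ F₂ => Fm.cnt u F₁ + Fm.cnt u F₂
  | Fm.mul F₁ F₂ => Fm.cnt u F₁ + Fm.cnt u F₂

/-- every leaf contains at most `b` variables -/
def Fm.bd (b : ℕ) : Fm k n → Prop
  | Fm.leaf p => p.vars.card ≤ b
  | Fm.add F₁ F₂ => Fm.bd b F₁ ∧ Fm.bd b F₂
  | Fm.mul F₁ F₂ => Fm.bd b F₁ ∧ Fm.bd b F₂

/-- the tree program of a polynomial tree program -/
private noncomputable def fo_tr : PTr k n w → Tr k (Fin n) w
  | PTr.leaf y => Tr.leaf (lvars y) (fun x i => eval x (y i))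
      (fun x x' h => by
        funext i
        refine eval₂Hom_congr' rfl (fun j hj _ => h j ?_) rfl
        rw [lvars, Finset.mem_biUnion]
        exact ⟨i, Finset.mem_univ i, hj⟩)
      (fun i => ⟨y i, fun _ => rfl⟩)
  | PTr.node μ T₁ T₂ => Tr.node μ (fo_tr T₁) (fo_tr T₂)

private theorem fo_val (T : PTr k n w) (x : Fin n → k) (i : Fin w) :
    val (fo_tr T) x i = eval x (PTr.val T i) := by
  induction T generalizing i with
  | leaf y => rfl
  | node μ T₁ T₂ ih₁ ih₂ =>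
    simp only [fo_tr, val, PTr.val, map_sum, map_mul, eval_C, ih₁, ih₂]

private theorem fo_cnt (T : PTr k n w) (u : Fin n) : cnt u (fo_tr T) = PTr.cnt u T := by
  induction T with
  | leaf y =>
    by_cases h : u ∈ lvars y
    · simp only [fo_tr, cnt, PTr.cnt, if_pos h]
    · simp only [fo_tr, cnt, PTr.cnt, if_neg h]
  | node μ T₁ T₂ ih₁ ih₂ =>
    simp only [fo_tr, cnt, PTr.cnt, ih₁, ih₂]

private theorem fo_bd (T : PTr k n w) (b : ℕ) (h : PTr.bd b T) : bd b (fo_tr T) := by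
  induction T with
  | leaf y => exact h
  | node μ T₁ T₂ ih₁ ih₂ => exact ⟨ih₁ h.1, ih₂ h.2⟩

private theorem fo_st (T : PTr k n w) : st (fo_tr T) = PTr.st T := by
  induction T with
  | leaf y =>
    by_cases h : lvars y = ∅
    · simp only [fo_tr, st, PTr.st, if_pos h]
    · simp only [fo_tr, st, PTr.st, if_neg h]
  | node μ T₁ T₂ ih₁ ih₂ =>
    simp only [fo_tr, st, PTr.st, ih₁, ih₂]

private theorem fo_sum (T : PTr k n w) (φ : Fin w → k) (x : Fin n → k) :
    eval x (∑ i, C (φ i) * PTr.val T i) = ∑ i, φ i * val (fo_tr T) x i := by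
  rw [map_sum]
  refine Finset.sum_congr rfl fun i _ => ?_
  rw [map_mul, eval_C, fo_val]

private theorem fo_ex [Infinite k] (f : MvPolynomial (Fin n) k) (hf : f ≠ 0) :
    ∃ a, eval a f ≠ 0 := by
  by_contra hcon
  apply hf
  refine MvPolynomial.funext fun x => ?_
  rw [map_zero]
  by_contra hx
  exact hcon ⟨x, hx⟩

theorem tree_gen [Infinite k] (ρ b σ : ℕ) (al : Fin n → k) (hal : Function.Injective al)
    (T : PTr k n w) (hcnt : ∀ u, PTr.cnt u T ≤ ρ) (hbd : PTr.bd b T) (hst : PTr.st T ≤ σ)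
    (φ : Fin w → k) (hf : ∑ i, C (φ i) * PTr.val T i ≠ 0) :
    ∃ θ : Fin (KT w ρ b σ) ⊕ Fin (KT w ρ b σ) → k,
      eval (sv al (KT w ρ b σ) θ) (∑ i, C (φ i) * PTr.val T i) ≠ 0 := by
  obtain ⟨a, ha⟩ := fo_ex _ hf
  rw [fo_sum] at ha
  obtain ⟨θ, hθ⟩ := val_hit al hal ρ b σ (fo_tr T) (fun u => by rw [fo_cnt]; exact hcnt u)
    (fo_bd T b hbd) (by rw [fo_st]; exact hst) φ a ha
  exact ⟨θ, by rw [fo_sum]; exact hθ⟩

/-- a formula as a tree program of width 2 -/
theorem fm_tree (F : Fm k n) : ∃ T : PTr k n 2, PTr.val T 0 = 1 ∧ PTr.val T 1 = Fm.val F ∧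
    (∀ u, PTr.cnt u T = Fm.cnt u F) ∧ ∀ b, PTr.bd b T ↔ Fm.bd b F := by
  induction F with
  | leaf p =>
    have hl : lvars (w := 2) ![1, p] = p.vars := by
      ext u
      rw [lvars, Finset.mem_biUnion]
      constructor
      · rintro ⟨i, _, hi⟩
        fin_cases i
        · simp at hi
        · exact hi
      · intro h
        exact ⟨1, Finset.mem_univ _, h⟩
    refine ⟨PTr.leaf ![1, p], rfl, rfl, fun u => ?_, fun b => ?_⟩
    · simp only [PTr.cnt, Fm.cnt, hl]
    · simp only [PTr.bd, Fm.bd, hl]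
  | add F₁ F₂ ih₁ ih₂ =>
    obtain ⟨T₁, h10, h11, hc1, hb1⟩ := ih₁
    obtain ⟨T₂, h20, h21, hc2, hb2⟩ := ih₂
    refine ⟨PTr.node (fun i j l => if i = 0 then (if j = 0 ∧ l = 0 then 1 else 0) else
      if (j = 1 ∧ l = 0) ∨ (j = 0 ∧ l = 1) then 1 else 0) T₁ T₂, ?_, ?_, fun u => ?_, fun b => ?_⟩
    · simp [PTr.val, Fin.sum_univ_two, h10, h20]
    · simp [PTr.val, Fin.sum_univ_two, h10, h20, h11, h21, Fm.val]
      try ring
    · simp only [PTr.cnt, Fm.cnt, hc1, hc2]
    · simp only [PTr.bd, Fm.bd, hb1, hb2]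
  | mul F₁ F₂ ih₁ ih₂ =>
    obtain ⟨T₁, h10, h11, hc1, hb1⟩ := ih₁
    obtain ⟨T₂, h20, h21, hc2, hb2⟩ := ih₂
    refine ⟨PTr.node (fun i j l => if j = i ∧ l = i then 1 else 0) T₁ T₂, ?_, ?_,
      fun u => ?_, fun b => ?_⟩
    · simp [PTr.val, Fin.sum_univ_two, h10, h20]
    · simp [PTr.val, Fin.sum_univ_two, h11, h21, Fm.val]
    · simp only [PTr.cnt, Fm.cnt, hc1, hc2]
    · simp only [PTr.bd, Fm.bd, hb1, hb2]

/-- the number of leaves with variables -/
private noncomputable def fo_l : PTr k n w → ℕ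
  | PTr.leaf y => if lvars y = ∅ then 0 else 1
  | PTr.node _ T₁ T₂ => fo_l T₁ + fo_l T₂

private theorem fo_lv (T : PTr k n w) (h : 0 < PTr.st T) : 2 ^ (PTr.st T - 1) ≤ fo_l T := by
  induction T with
  | leaf y =>
    by_cases h1 : lvars y = ∅
    · simp only [PTr.st, if_pos h1] at h
      omega
    · simp only [PTr.st, fo_l, if_neg h1]
      norm_num
  | node μ T₁ T₂ ih₁ ih₂ =>
    simp only [PTr.st, fo_l] at h ⊢
    by_cases h1 : PTr.st T₁ = PTr.st T₂
    · rw [if_pos h1] at h ⊢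
      by_cases h2 : PTr.st T₁ = 0
      · rw [if_pos h2] at h
        omega
      · rw [if_neg h2]
        have h3 := ih₁ (Nat.pos_of_ne_zero h2)
        have h4 := ih₂ (by omega)
        rw [← h1] at h4
        have h5 : 2 ^ (PTr.st T₁ + 1 - 1) = 2 * 2 ^ (PTr.st T₁ - 1) := by
          rw [← pow_succ']
          congr 1
          omega
        omega
    · rw [if_neg h1] at h ⊢
      rcases Nat.lt_or_gt_of_ne h1 with h2 | h2
      · rw [max_eq_right h2.le]
        have h3 := ih₂ (by omega)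
        omega
      · rw [max_eq_left h2.le]
        have h3 := ih₁ (by omega)
        omega

private theorem fo_lv_le (T : PTr k n w) : fo_l T ≤ ∑ u, PTr.cnt u T := by
  induction T with
  | leaf y =>
    by_cases h1 : lvars y = ∅
    · simp only [fo_l, if_pos h1]
      exact Nat.zero_le _
    · simp only [fo_l, if_neg h1]
      obtain ⟨u, hu⟩ := Finset.nonempty_iff_ne_empty.2 h1
      have h2 : PTr.cnt u (PTr.leaf y) = 1 := by
        simp only [PTr.cnt, if_pos hu]
      rw [← h2]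
      exact Finset.single_le_sum (f := fun u => PTr.cnt u (PTr.leaf y)) (fun _ _ => Nat.zero_le _)
        (Finset.mem_univ u)
  | node μ T₁ T₂ ih₁ ih₂ =>
    simp only [fo_l, PTr.cnt, Finset.sum_add_distrib]
    exact Nat.add_le_add ih₁ ih₂

theorem st_bound (ρ : ℕ) (T : PTr k n w) (hcnt : ∀ u, PTr.cnt u T ≤ ρ) :
    PTr.st T ≤ Nat.log 2 (ρ * n) + 1 := by
  rcases Nat.eq_zero_or_pos (PTr.st T) with h0 | h0
  · omega
  · have h1 := fo_lv T h0
    have h2 : fo_l T ≤ ρ * n := by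
      refine (fo_lv_le T).trans ((Finset.sum_le_card_nsmul _ _ ρ fun u _ => hcnt u).trans ?_)
      rw [Finset.card_univ, Fintype.card_fin, smul_eq_mul, mul_comm]
    have h3 := Nat.le_log_of_pow_le (b := 2) (by norm_num) (h1.trans h2)
    omega

theorem form_gen [Infinite k] (ρ b : ℕ) (al : Fin n → k) (hal : Function.Injective al)
    (F : Fm k n) (hcnt : ∀ u, Fm.cnt u F ≤ ρ) (hbd : Fm.bd b F) (hF : Fm.val F ≠ 0) :
    ∃ θ : Fin (KT 2 ρ b (Nat.log 2 (ρ * n) + 1)) ⊕ Fin (KT 2 ρ b (Nat.log 2 (ρ * n) + 1)) → k,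
      eval (sv al (KT 2 ρ b (Nat.log 2 (ρ * n) + 1)) θ) (Fm.val F) ≠ 0 := by
  obtain ⟨T, _, h1, hc, hb⟩ := fm_tree F
  have hs : ∑ i, C (![(0 : k), 1] i) * PTr.val T i = Fm.val F := by
    rw [Fin.sum_univ_two, h1]
    simp
  have hc' : ∀ u, PTr.cnt u T ≤ ρ := fun u => by rw [hc]; exact hcnt u
  obtain ⟨θ, hθ⟩ := tree_gen ρ b (Nat.log 2 (ρ * n) + 1) al hal T hc' ((hb b).2 hbd)
    (st_bound ρ T hc') ![(0 : k), 1] (by rw [hs]; exact hF)
  exact ⟨θ, by rw [hs] at hθ; exact hθ⟩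

theorem dvd_hit [Infinite k] (K D : ℕ) (al : Fin n → k) (hal : Function.Injective al) (e : ℕ → k)
    (he : Function.Injective e) (S : Multiset (MvPolynomial (Fin n) k))
    (hS : ∀ f ∈ S, ∃ θ : Fin K ⊕ Fin K → k, eval (sv al K θ) f ≠ 0)
    (g : MvPolynomial (Fin n) k) (hg : g ∣ S.prod) (hD : g.totalDegree ≤ D) :
    ∃ c s : Fin K → ℕ, (∀ j, c j ≤ D ∧ s j ≤ n * D) ∧
      eval (sv al K (Sum.elim (fun j => e (c j)) fun j => e (s j))) g ≠ 0 := by
  have h1 : ∀ᶠ θ in zar k (Fin K ⊕ Fin K), eval (sv al K θ) S.prod ≠ 0 := by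
    clear hg
    induction S using Multiset.induction_on with
    | empty =>
      refine Filter.Eventually.of_forall fun θ => ?_
      rw [Multiset.prod_zero, map_one]
      exact one_ne_zero
    | cons f S ih =>
      have h2 := ih fun f' hf' => hS f' (Multiset.mem_cons_of_mem hf')
      obtain ⟨θ, hθ⟩ := hS f (Multiset.mem_cons_self f S)
      have h3 := RKO.sv_ev al hal (le_refl K) (fun a => eval a f) ⟨f, fun a => rfl⟩ θ hθ
      filter_upwards [h2, h3] with θ' h4 h5
      rw [Multiset.prod_cons, map_mul]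
      exact mul_ne_zero h5 h4
  have := UNK.zar_neBot k (Fin K ⊕ Fin K)
  obtain ⟨θ, hθ⟩ := h1.exists
  refine RKO.grid n D K al e he g hD θ fun h2 => hθ ?_
  obtain ⟨q, hq⟩ := hg
  rw [hq, map_mul, h2, zero_mul]

end

end Pool.Agent.TRK
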