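import Pool.Agent.TRK.Ai

/-!
Project TRK (MP_e2be99_lc), module Ft: the final theorem for trees.

If the Strahler number is `0` the value is constant; otherwise all contexts are alive at a generic point of the
level `KT w ρ b τ` and critical sets are bounded.
-/

set_option autoImplicit false

namespace Pool.Agent.TRK

open MvPolynomial
open Pool.Agent.UNK (zar PF dot tp fc Fc)
open Pool.Agent.RKO (Letter wv pt sv tf Srt)

universe u

section

variable {k : Type u} [Field k] [Infinite k] {V : Type} [Fintype V] {w : ℕ}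

theorem val_hit (al : V → k) (hal : Function.Injective al) (ρ b σ : ℕ) (T : Tr k V w)
    (hcnt : ∀ u, cnt u T ≤ ρ) (hbd : bd b T) (hst : st T ≤ σ) (φ : Fin w → k) (a : V → k)
    (ha : ∑ i, φ i * val T a i ≠ 0) :
    ∃ θ : Fin (KT w ρ b σ) ⊕ Fin (KT w ρ b σ) → k,
      ∑ i, φ i * val T (sv al (KT w ρ b σ) θ) i ≠ 0 := by
  cases σ with
  | zero =>
    refine ⟨fun _ => 0, ?_⟩
    have h1 : val T (sv al (KT w ρ b 0) fun _ => 0) = val T a := by
      refine val_dep T fun u hu => ?_
      rw [st_zero T (Nat.le_zero.1 hst)] at hu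
      exact absurd hu (Finset.notMem_empty u)
    rw [h1]
    exact ha
  | succ τ =>
    have hw : 1 ≤ w := by
      rcases Nat.eq_zero_or_pos w with h0 | h0
      · exfalso
        subst h0
        exact ha (Finset.sum_eq_zero fun i _ => i.elim0)
      · exact h0
    have := UNK.zar_neBot k (Fin (KT w ρ b τ) ⊕ Fin (KT w ρ b τ))
    obtain ⟨θ, hθ⟩ := (ha_all al hal ρ b T hcnt hbd τ).exists
    have hF : (fun x : V → k => ∑ i, φ i * val T x i) ∈ ((([Pc.cl T].map EE).prod) ^ 1 :
        Submodule k ((V → k) → k)) := by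
      rw [pow_one, List.map_cons, List.map_nil, List.prod_singleton]
      have h1 : (fun x : V → k => ∑ i, φ i * val T x i) = ∑ i, φ i • fun x : V → k => val T x i := by
        funext x
        rw [Finset.sum_apply]
        rfl
      rw [h1]
      exact Submodule.sum_mem _ fun i _ => Submodule.smul_mem _ _ (Submodule.subset_span ⟨i, rfl⟩)
    obtain ⟨S, a', hS, hne⟩ := tc (τ + 1) (by omega) (sv al (KT w ρ b τ) θ) ρ b 1 hw [Pc.cl T]
      (by simp)
      (fun X hX => by
        rw [List.mem_singleton] at hX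
        rw [hX]
        exact ⟨hst, hθ⟩)
      (fun u => by
        rw [List.map_cons, List.map_nil, List.sum_singleton]
        exact hcnt u)
      (fun X hX => by
        rw [List.mem_singleton] at hX
        rw [hX]
        exact hbd) _ hF a ha
    obtain ⟨θ', hθ'⟩ := RKO.sv_pt al hal (KT w ρ b τ) (MT w ρ b) θ S hS a'
    have hle : KT w ρ b τ + MT w ρ b ≤ KT w ρ b (τ + 1) := by
      unfold KT
      nlinarith [Nat.zero_le (w * MT w ρ b)]
    obtain ⟨θ'', hθ''⟩ := RKO.sv_mono al hal hle θ'
    refine ⟨θ'', ?_⟩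
    rw [hθ'', hθ']
    exact hne

end

end Pool.Agent.TRK
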