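import Pool.Agent.TRK.Defs

/-!
Project TRK (MP_e2be99_lc), module Gr.  Text: /team-store/trk_h34.md (section 2, GREEDY).
Definitions in `Pool/Agent/TRK/Defs.lean` (and `RKO/Defs.lean`, `UNK/Defs.lean`).

Pure lists, induction on `m`. `Y` is the shortest prefix of `X = Y ++ Z` such that some `s₁` occurs in `Y` and not in
`Z`; the elements of `S` which occur in `Y` are few, and the induction hypothesis is applied to `Z` and the other ones.
-/

set_option autoImplicit false

namespace Pool.Agent.TRK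

open MvPolynomial
open Pool.Agent.UNK (zar PF dot tp fc Fc)
open Pool.Agent.RKO (Letter wv pt sv tf Srt)

universe u

private theorem gr_sub {α : Type*} {a b c : α} {l : List α} (h : List.Sublist [a, b] (c :: l)) :
    b ∈ l ∧ (a = c ∨ List.Sublist [a, b] l) := by
  rcases List.sublist_cons_iff.1 h with h1 | ⟨r, h1, h2⟩
  · exact ⟨h1.subset (by simp), Or.inr h1⟩
  · rw [List.cons.injEq] at h1
    rw [← h1.2] at h2
    exact ⟨h2.subset (by simp), Or.inl h1.1⟩

open scoped Classical in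
theorem greedy {α β : Type*} (occ : β → α → Prop) (q₁ N₂ m : ℕ) (X : List β) (S : Finset α)
    (hoc : ∀ s ∈ S, ∃ x ∈ X, occ x s)
    (hcut : ∀ Y Z, X = Y ++ Z →
      (S.filter fun s => (∃ x ∈ Y, occ x s) ∧ ∃ x ∈ Z, occ x s).card < q₁)
    (hfr : ∀ Y x Z, X = Y ++ x :: Z →
      (S.filter fun s => occ x s ∧ (∀ y ∈ Y, ¬ occ y s) ∧ ∀ z ∈ Z, ¬ occ z s).card < N₂)
    (hlen : m * (2 * q₁ + N₂) ≤ S.card) :
    ∃ ss : List α, ss.Nodup ∧ (∀ s ∈ ss, s ∈ S) ∧ ss.length = m ∧ Srt occ ss X ∧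
      ∀ x ∈ X, ∀ s ∈ ss, ∀ s' ∈ ss, occ x s → occ x s' → s = s' := by
  induction m generalizing X S with
  | zero =>
    refine ⟨[], List.nodup_nil, by simp, rfl, ?_, by simp⟩
    unfold Srt
    refine List.pairwise_of_forall fun l l' s s' _ _ h2 => ?_
    have := h2.length_le
    simp at this
  | succ m ih =>
    have hq : 0 < q₁ := lt_of_le_of_lt (Nat.zero_le _) (hcut [] X rfl)
    have hS : S.Nonempty := by
      rw [← Finset.card_pos]
      have h1 : (m + 1) * (2 * q₁ + N₂) = m * (2 * q₁ + N₂) + (2 * q₁ + N₂) := by ring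
      omega
    have hP : ∃ k, ∃ Y Z : List β, X = Y ++ Z ∧ Y.length = k ∧
        ∃ s ∈ S, (∃ x ∈ Y, occ x s) ∧ ∀ z ∈ Z, ¬ occ z s := by
      obtain ⟨s, hs⟩ := hS
      exact ⟨X.length, X, [], by simp, rfl, s, hs, hoc s hs, by simp⟩
    obtain ⟨Y, Z, hXY, hk, s₁, hs₁, hY₁, hZ₁⟩ := Nat.find_spec hP
    have hmin := fun k hk => Nat.find_min hP (m := k) hk
    rw [← hk] at hmin
    rcases List.eq_nil_or_concat Y with rfl | ⟨Y', x, rfl⟩
    · obtain ⟨y, hy, _⟩ := hY₁
      simp at hy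
    rw [List.concat_eq_append] at *
    have hY' : ∀ s ∈ S, (∃ y ∈ Y', occ y s) → ∃ z ∈ x :: Z, occ z s := by
      intro s hs hy
      by_contra hz
      push Not at hz
      refine hmin Y'.length (by simp) ⟨Y', x :: Z, ?_, rfl, s, hs, hy, hz⟩
      rw [hXY]
      simp
    have hXx : X = Y' ++ x :: Z := by
      rw [hXY]
      simp
    set S' := S.filter fun s => ∀ y ∈ Y' ++ [x], ¬ occ y s with hS'
    have hA := hcut _ _ hXY
    have hB := hcut _ _ hXx
    have hC := hfr _ _ _ hXx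
    have hsub : S ⊆ S' ∪ ((S.filter fun s => (∃ x_1 ∈ Y' ++ [x], occ x_1 s) ∧ ∃ x ∈ Z, occ x s) ∪
        ((S.filter fun s => (∃ x ∈ Y', occ x s) ∧ ∃ x_1 ∈ x :: Z, occ x_1 s) ∪
        (S.filter fun s => occ x s ∧ (∀ y ∈ Y', ¬ occ y s) ∧ ∀ z ∈ Z, ¬ occ z s))) := by
      intro s hs
      rw [Finset.mem_union, Finset.mem_union, Finset.mem_union, hS', Finset.mem_filter, Finset.mem_filter,
        Finset.mem_filter, Finset.mem_filter]
      by_cases h1 : ∃ y ∈ Y' ++ [x], occ y s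
      · by_cases h2 : ∃ z ∈ Z, occ z s
        · exact Or.inr (Or.inl ⟨hs, h1, h2⟩)
        · by_cases h3 : ∃ y ∈ Y', occ y s
          · exact Or.inr (Or.inr (Or.inl ⟨hs, h3, hY' s hs h3⟩))
          · refine Or.inr (Or.inr (Or.inr ⟨hs, ?_, ?_, ?_⟩))
            · obtain ⟨y, hy, ho⟩ := h1
              rw [List.mem_append, List.mem_singleton] at hy
              rcases hy with hy | hy
              · exact absurd ⟨y, hy, ho⟩ h3
              · exact hy ▸ ho
            · push Not at h3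
              exact h3
            · push Not at h2
              exact h2
      · push Not at h1
        exact Or.inl ⟨hs, h1⟩
    have hcard : m * (2 * q₁ + N₂) ≤ S'.card := by
      have h1 := Finset.card_le_card hsub
      have h2 := Finset.card_union_le S' ((S.filter fun s => (∃ x_1 ∈ Y' ++ [x], occ x_1 s) ∧ ∃ x ∈ Z, occ x s) ∪
        ((S.filter fun s => (∃ x ∈ Y', occ x s) ∧ ∃ x_1 ∈ x :: Z, occ x_1 s) ∪
        (S.filter fun s => occ x s ∧ (∀ y ∈ Y', ¬ occ y s) ∧ ∀ z ∈ Z, ¬ occ z s)))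
      have h3 := Finset.card_union_le (S.filter fun s => (∃ x_1 ∈ Y' ++ [x], occ x_1 s) ∧ ∃ x ∈ Z, occ x s)
        ((S.filter fun s => (∃ x ∈ Y', occ x s) ∧ ∃ x_1 ∈ x :: Z, occ x_1 s) ∪
        (S.filter fun s => occ x s ∧ (∀ y ∈ Y', ¬ occ y s) ∧ ∀ z ∈ Z, ¬ occ z s))
      have h4 := Finset.card_union_le (S.filter fun s => (∃ x ∈ Y', occ x s) ∧ ∃ x_1 ∈ x :: Z, occ x_1 s)
        (S.filter fun s => occ x s ∧ (∀ y ∈ Y', ¬ occ y s) ∧ ∀ z ∈ Z, ¬ occ z s)
      have h5 : (m + 1) * (2 * q₁ + N₂) = m * (2 * q₁ + N₂) + (2 * q₁ + N₂) := by ring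
      omega
    have hnot : ∀ s ∈ S', s ∈ S ∧ ∀ y ∈ Y' ++ [x], ¬ occ y s := fun s hs => by
      rw [hS', Finset.mem_filter] at hs
      exact hs
    obtain ⟨ss, a1, a2, a3, a4, a5⟩ := ih Z S' (by
        intro s hs
        obtain ⟨z, hz, ho⟩ := hoc s (hnot s hs).1
        rw [hXY, List.mem_append] at hz
        rcases hz with hz | hz
        · exact absurd ho ((hnot s hs).2 z hz)
        · exact ⟨z, hz, ho⟩) (by
        intro Z₁ Z₂ hZ
        refine lt_of_le_of_lt (Finset.card_le_card ?_) (hcut (Y' ++ [x] ++ Z₁) Z₂ (by rw [hXY, hZ]; simp))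
        intro s hs
        rw [Finset.mem_filter] at hs ⊢
        obtain ⟨z, hz, ho⟩ := hs.2.1
        exact ⟨(hnot s hs.1).1, ⟨z, List.mem_append_right _ hz, ho⟩, hs.2.2⟩) (by
        intro Z₁ z Z₂ hZ
        refine lt_of_le_of_lt (Finset.card_le_card ?_) (hfr (Y' ++ [x] ++ Z₁) z Z₂ (by rw [hXY, hZ]; simp))
        intro s hs
        rw [Finset.mem_filter] at hs ⊢
        refine ⟨(hnot s hs.1).1, hs.2.1, ?_, hs.2.2.2⟩
        intro y hy
        rw [List.mem_append] at hy
        rcases hy with hy | hy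
        · exact (hnot s hs.1).2 y hy
        · exact hs.2.2.1 y hy) hcard
    refine ⟨s₁ :: ss, ?_, ?_, by rw [List.length_cons, a3], ?_, ?_⟩
    · rw [List.nodup_cons]
      refine ⟨fun h => ?_, a1⟩
      obtain ⟨y, hy, ho⟩ := hY₁
      exact (hnot s₁ (a2 s₁ h)).2 y hy ho
    · intro s hs
      rcases List.mem_cons.1 hs with rfl | hs
      · exact hs₁
      · exact (hnot s (a2 s hs)).1
    · unfold Srt at a4 ⊢
      rw [hXY, List.pairwise_append]
      have hpw : ∀ T : List β, T.Pairwise fun _ _ : β => True := fun T =>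
        List.pairwise_of_forall fun _ _ => trivial
      refine ⟨(hpw _).imp_of_mem ?_, a4.imp_of_mem ?_, ?_⟩
      · intro l l' hl hl' _ s s' ho ho' hsub'
        exact (hnot s (a2 s (gr_sub hsub').1)).2 l hl ho
      · intro l l' hl hl' hp s s' ho ho' hsub'
        rcases (gr_sub hsub').2 with h | h
        · exact hZ₁ l' hl' (h ▸ ho')
        · exact hp s s' ho ho' h
      · intro l hl l' hl' s s' ho ho' hsub'
        exact (hnot s (a2 s (gr_sub hsub').1)).2 l hl ho
    · intro z hz s hs s' hs' ho ho'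
      rw [hXY, List.mem_append] at hz
      rcases List.mem_cons.1 hs with e | hs <;> rcases List.mem_cons.1 hs' with e' | hs'
      · rw [e, e']
      · rcases hz with hz | hz
        · exact absurd ho' ((hnot s' (a2 s' hs')).2 z hz)
        · exact absurd (e ▸ ho) (hZ₁ z hz)
      · rcases hz with hz | hz
        · exact absurd ho ((hnot s (a2 s hs)).2 z hz)
        · exact absurd (e' ▸ ho') (hZ₁ z hz)
      · rcases hz with hz | hz
        · exact absurd ho ((hnot s (a2 s hs)).2 z hz)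
        · exact a5 z hz s hs s' hs' ho ho'

end Pool.Agent.TRK
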