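import Pool.Agent.TRK.Bb

/-!
Project TRK (MP_e2be99_lc), module Hv.  Text: /team-store/trk_h34.md (section 2, HEAVY).
Definitions in `Pool/Agent/TRK/Defs.lean` (and `RKO/Defs.lean`, `UNK/Defs.lean`).  Replace the `sorry`; keep the
statements; helper lemmas private.

PLAN.
* `hv_step`: claim, by induction on the tree `T₁` (for all `hs`): if `Dec T hs T₁` and no element of `S` occurs only in `hs` (i.e. `inc hs s → s ∈ tv T₁`), then the conclusion holds.  Elements of `S` occur in `T` (`hoc`), so in `T₁`; less than `q₁` of them also in `hs`.  Leaf: at most one element of `S` in `T₁`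
  (`ind_dec`, `hind`): `|S| ≤ q₁ + 1`: contradiction with `hcard` (`2 * N + 2 * q₁ + 4 ≤ |S|`).  Node with children `A`, `B`: let `a` be the number of `s ∈ S` occurring in `A` only (not in `hs`, not in `B`), `b` the same for `B`; occurring in `A` and `B`: less than `q₁` (cut `hs ++ [frame]`, `A`).  `a + b + 2 * q₁ ≥ |S| + 2`.. so `N ≤ max a b`.
  Say `N ≤ a` (`a ≥ b`): `hs' = hs ++ [(μ, B)]`, `T₁' = A`.  If some element of `S` occurs in `hs'` and not in `A`: done.  Otherwise apply the claim to `A`, `hs'`.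
* `heavy`: induction on `m` (for all `T`, `S`).  `m = 0`: `H = []`.  Step: `hv_step` with `N = HV q₁ m`: `hs`, `T₁`, `s₁`, `S₁ = {s ∈ S : s ∈ tv T₁, ¬ inc hs s}`.  `tightT q₁ S₁ T₁` (a cut of `T₁` gives the cut `hs ++ hs'` of `T`: `dec_trans`).  Induction: `H₁`, `T'`, `ss₁`; `H = hs ++ H₁`, `ss = s₁ :: ss₁`.  In `hs` of `ss` only `s₁` occurs, in
  `H₁` not `s₁` (`s₁ ∉ tv T₁`).
-/

set_option autoImplicit false

namespace Pool.Agent.TRK

open MvPolynomial
open Pool.Agent.UNK (zar PF dot tp fc Fc)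
open Pool.Agent.RKO (Letter wv pt sv tf Srt)

universe u

section

variable {k : Type u} [Field k] {V : Type} {w : ℕ}

private theorem hv_inc_append (hs gs : List (Frame k V w)) (s : V) :
    inc (hs ++ gs) s ↔ inc hs s ∨ inc gs s := by
  unfold inc
  constructor
  · rintro ⟨f, hf, h⟩
    rcases List.mem_append.1 hf with hf | hf
    · exact Or.inl ⟨f, hf, h⟩
    · exact Or.inr ⟨f, hf, h⟩
  · rintro (⟨f, hf, h⟩ | ⟨f, hf, h⟩)
    · exact ⟨f, List.mem_append_left _ hf, h⟩
    · exact ⟨f, List.mem_append_right _ hf, h⟩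

private theorem hv_inc_single (f : Frame k V w) (s : V) : inc [f] s ↔ s ∈ tv f.2 := by
  unfold inc
  constructor
  · rintro ⟨g, hg, h⟩
    rw [List.mem_singleton.1 hg] at h
    exact h
  · intro h
    exact ⟨f, List.mem_singleton.2 rfl, h⟩

open scoped Classical in
private theorem hv_claim (q₁ N : ℕ) (T : Tr k V w) (S : Finset V) (hoc : ∀ s ∈ S, s ∈ tv T)
    (hind : ind S T) (ht : tightT q₁ S T) (hcard : 2 * N + 2 * q₁ + 4 ≤ S.card) (T₁ : Tr k V w) :
    ∀ hs : List (Frame k V w), Dec T hs T₁ → (∀ s ∈ S, inc hs s → s ∈ tv T₁) →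
    ∃ (hs : List (Frame k V w)) (T₁ : Tr k V w), Dec T hs T₁ ∧
      (∃ s ∈ S, inc hs s ∧ s ∉ tv T₁) ∧
      N ≤ (S.filter fun s => s ∈ tv T₁ ∧ ¬ inc hs s).card := by
  induction T₁ with
  | leaf B y dep pf =>
    intro hs hD hin
    exfalso
    have hall : ∀ s ∈ S, s ∈ B := by
      intro s hs'
      rcases (tv_dec hD s).1 (hoc s hs') with h | h
      · exact hin s hs' h
      · exact h
    have hi : ind S (Tr.leaf B y dep pf) := (ind_dec hD hind).1
    have hone : S.card ≤ 1 := by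
      rw [Finset.card_le_one]
      intro a ha b hb
      exact hi a ha b hb (hall a ha) (hall b hb)
    omega
  | node μ A B ihA ihB =>
    intro hs hD hin
    have hall : ∀ s ∈ S, s ∈ tv A ∨ s ∈ tv B := by
      intro s hs'
      have h1 : s ∈ tv (Tr.node μ A B) := by
        rcases (tv_dec hD s).1 (hoc s hs') with h | h
        · exact hin s hs' h
        · exact h
      unfold tv at h1
      exact Finset.mem_union.1 h1
    have hDA : Dec T (hs ++ [(μ, B)]) A := dec_trans hD (Dec.left μ A B [] A (Dec.nil A))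
    have hDB : Dec T (hs ++ [((fun i j l => μ i l j), A)]) B :=
      dec_trans hD (Dec.right μ A B [] B (Dec.nil B))
    have h1 : (S.filter fun s => inc hs s).card < q₁ := by
      refine lt_of_le_of_lt (Finset.card_le_card fun s hs' => ?_) (ht hs _ hD)
      rw [Finset.mem_filter] at hs' ⊢
      exact ⟨hs'.1, hs'.2, hin s hs'.1 hs'.2⟩
    have h2 : (S.filter fun s => s ∈ tv A ∧ s ∈ tv B).card < q₁ := by
      refine lt_of_le_of_lt (Finset.card_le_card fun s hs' => ?_) (ht _ _ hDA)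
      rw [Finset.mem_filter] at hs' ⊢
      refine ⟨hs'.1, ?_, hs'.2.1⟩
      rw [hv_inc_append, hv_inc_single]
      exact Or.inr hs'.2.2
    have h3 : S.card ≤ (S.filter fun s => inc hs s).card +
        (S.filter fun s => s ∈ tv A ∧ s ∈ tv B).card +
        ((S.filter fun s => s ∈ tv A ∧ ¬ (inc hs s ∨ s ∈ tv B)).card +
        (S.filter fun s => s ∈ tv B ∧ ¬ (inc hs s ∨ s ∈ tv A)).card) := by
      have h4 : S ⊆ ((S.filter fun s => inc hs s) ∪ (S.filter fun s => s ∈ tv A ∧ s ∈ tv B)) ∪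
          ((S.filter fun s => s ∈ tv A ∧ ¬ (inc hs s ∨ s ∈ tv B)) ∪
          (S.filter fun s => s ∈ tv B ∧ ¬ (inc hs s ∨ s ∈ tv A))) := by
        intro s hs'
        simp only [Finset.mem_union, Finset.mem_filter]
        have h5 := hall s hs'
        tauto
      refine (Finset.card_le_card h4).trans ((Finset.card_union_le _ _).trans ?_)
      exact add_le_add (Finset.card_union_le _ _) (Finset.card_union_le _ _)
    have eA : ∀ s, inc (hs ++ [(μ, B)]) s ↔ (inc hs s ∨ s ∈ tv B) := by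
      intro s
      rw [hv_inc_append, hv_inc_single]
    have eB : ∀ s, inc (hs ++ [((fun i j l => μ i l j), A)]) s ↔ (inc hs s ∨ s ∈ tv A) := by
      intro s
      rw [hv_inc_append, hv_inc_single]
    by_cases hab : N ≤ (S.filter fun s => s ∈ tv A ∧ ¬ (inc hs s ∨ s ∈ tv B)).card
    · by_cases hex : ∃ s ∈ S, inc (hs ++ [(μ, B)]) s ∧ s ∉ tv A
      · refine ⟨_, _, hDA, hex, ?_⟩
        simp only [eA]
        exact hab
      · refine ihA _ hDA ?_
        intro s hs' hi
        by_contra hn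
        exact hex ⟨s, hs', hi, hn⟩
    · have hab' : N ≤ (S.filter fun s => s ∈ tv B ∧ ¬ (inc hs s ∨ s ∈ tv A)).card := by
        omega
      by_cases hex : ∃ s ∈ S, inc (hs ++ [((fun i j l => μ i l j), A)]) s ∧ s ∉ tv B
      · refine ⟨_, _, hDB, hex, ?_⟩
        simp only [eB]
        exact hab'
      · refine ihB _ hDB ?_
        intro s hs' hi
        by_contra hn
        exact hex ⟨s, hs', hi, hn⟩

open scoped Classical in
theorem hv_step (q₁ N : ℕ) (T : Tr k V w) (S : Finset V) (hoc : ∀ s ∈ S, s ∈ tv T)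
    (hind : ind S T) (ht : tightT q₁ S T) (hcard : 2 * N + 2 * q₁ + 4 ≤ S.card) :
    ∃ (hs : List (Frame k V w)) (T₁ : Tr k V w), Dec T hs T₁ ∧
      (∃ s ∈ S, inc hs s ∧ s ∉ tv T₁) ∧
      N ≤ (S.filter fun s => s ∈ tv T₁ ∧ ¬ inc hs s).card := by
  refine hv_claim q₁ N T S hoc hind ht hcard T [] (Dec.nil T) ?_
  rintro s _ ⟨f, hf, _⟩
  exact absurd hf List.not_mem_nil

private theorem hv_sub {α : Type} {s s' s₁ : α} {ss : List α} (h : List.Sublist [s', s] (s₁ :: ss)) :
    s ∈ ss ∧ (s' = s₁ ∨ List.Sublist [s', s] ss) := by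
  cases h with
  | cons _ h => exact ⟨h.subset (by simp), Or.inr h⟩
  | cons_cons _ h => exact ⟨h.subset (by simp), Or.inl rfl⟩

theorem heavy (q₁ m : ℕ) (T : Tr k V w) (S : Finset V) (hoc : ∀ s ∈ S, s ∈ tv T)
    (hind : ind S T) (ht : tightT q₁ S T) (hcard : HV q₁ m ≤ S.card) :
    ∃ (H : List (Frame k V w)) (T' : Tr k V w) (ss : List V), Dec T H T' ∧ ss.Nodup ∧
      (∀ s ∈ ss, s ∈ S) ∧ ss.length = m ∧ (∀ s ∈ ss, s ∉ tv T') ∧
      Srt (fun (f : Frame k V w) s => s ∈ tv f.2) ss H ∧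
      ∀ f ∈ H, ∀ s ∈ ss, ∀ s' ∈ ss, s ∈ tv f.2 → s' ∈ tv f.2 → s = s' := by
  classical
  induction m generalizing T S with
  | zero =>
    refine ⟨[], T, [], Dec.nil T, List.nodup_nil, ?_, rfl, ?_, List.Pairwise.nil, ?_⟩
    · intro s hs
      exact absurd hs List.not_mem_nil
    · intro s hs
      exact absurd hs List.not_mem_nil
    · intro f hf
      exact absurd hf List.not_mem_nil
  | succ m ih =>
    obtain ⟨hs, T₁, hD, ⟨s₁, hs₁, hinc, hnot⟩, hN⟩ := hv_step q₁ (HV q₁ m) T S hoc hind ht hcard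
    have ht₁ : tightT q₁ (S.filter fun s => s ∈ tv T₁ ∧ ¬ inc hs s) T₁ := by
      intro hs' T'' hD'
      refine lt_of_le_of_lt (Finset.card_le_card fun s hs' => ?_) (ht _ _ (dec_trans hD hD'))
      rw [Finset.mem_filter] at hs' ⊢
      refine ⟨(Finset.mem_filter.1 hs'.1).1, ?_, hs'.2.2⟩
      rw [hv_inc_append]
      exact Or.inr hs'.2.1
    obtain ⟨H₁, T', ss₁, hD₁, hnd, hmem, hlen, hout, hsrt, hone⟩ := ih T₁
      (S.filter fun s => s ∈ tv T₁ ∧ ¬ inc hs s) (fun s hs' => (Finset.mem_filter.1 hs').2.1)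
      (ind_mono (Finset.filter_subset _ _) (ind_dec hD hind).1) ht₁ hN
    have hm1 : ∀ s ∈ ss₁, s ∈ S ∧ s ∈ tv T₁ ∧ ¬ inc hs s := fun s hs' => by
      have h := Finset.mem_filter.1 (hmem s hs')
      exact ⟨h.1, h.2⟩
    have hH1 : ∀ f ∈ H₁, s₁ ∉ tv f.2 := by
      intro f hf h
      exact hnot ((tv_dec hD₁ s₁).2 (Or.inl ⟨f, hf, h⟩))
    refine ⟨hs ++ H₁, T', s₁ :: ss₁, dec_trans hD hD₁, ?_, ?_, ?_, ?_, ?_, ?_⟩
    · rw [List.nodup_cons]
      exact ⟨fun h => hnot (hm1 s₁ h).2.1, hnd⟩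
    · intro s hs'
      rcases List.mem_cons.1 hs' with h | h
      · rw [h]
        exact hs₁
      · exact (hm1 s h).1
    · rw [List.length_cons, hlen]
    · intro s hs'
      rcases List.mem_cons.1 hs' with h | h
      · rw [h]
        exact fun h' => hnot ((tv_dec hD₁ s₁).2 (Or.inr h'))
      · exact hout s h
    · unfold Srt
      rw [List.pairwise_append]
      refine ⟨?_, ?_, ?_⟩
      · refine List.pairwise_of_forall_mem_list ?_
        intro l hl l' _ s s' h1 _ h3
        exact (hm1 s (hv_sub h3).1).2.2 ⟨l, hl, h1⟩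
      · refine List.Pairwise.imp_of_mem ?_ hsrt
        intro l l' _ hl' hp s s' h1 h2 h3
        rcases (hv_sub h3).2 with h4 | h4
        · rw [h4] at h2
          exact hH1 l' hl' h2
        · exact hp s s' h1 h2 h4
      · intro l hl l' _ s s' h1 _ h3
        exact (hm1 s (hv_sub h3).1).2.2 ⟨l, hl, h1⟩
    · intro f hf s hs' s' hs'' h1 h2
      rcases List.mem_append.1 hf with hf | hf
      · have key : ∀ t ∈ s₁ :: ss₁, t ∈ tv f.2 → t = s₁ := by
          intro t ht' h3
          rcases List.mem_cons.1 ht' with h | h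
          · exact h
          · exact absurd ⟨f, hf, h3⟩ (hm1 t h).2.2
        rw [key s hs' h1, key s' hs'' h2]
      · have key : ∀ t ∈ s₁ :: ss₁, t ∈ tv f.2 → t ∈ ss₁ := by
          intro t ht' h3
          rcases List.mem_cons.1 ht' with h | h
          · rw [h] at h3
            exact absurd h3 (hH1 f hf)
          · exact h
        exact hone f hf s (key s hs' h1) s' (key s' hs'' h2) h1 h2

end

end Pool.Agent.TRK
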