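import Pool.Agent.TRK.Bb

/-!
Project TRK (MP_e2be99_lc), module In.  Text: /team-store/trk_h34.md (section 3, independent sets).
Definitions in `Pool/Agent/TRK/Defs.lean` (and `RKO/Defs.lean`, `UNK/Defs.lean`).  Keep the statements.

PLAN.
* `ind_list`: as `Pool.Agent.RKO.indep`: greedy, induction on `q`: choose `s ∈ S`, remove it and all elements sharing one of the sets with it (at most `ρ * b`).
* `ind_pieces`: the list of the sets `B` of all leaves of all pieces: define (private) `lvs : Tr → List (Finset V)`, `cnt u T = ((lvs T).filter (u ∈ ·)).length`, `bd b T ↔ ∀ B ∈ lvs T, B.card ≤ b`, `ind S T ↔ ∀ B ∈ lvs T, ..`.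
-/

set_option autoImplicit false

namespace Pool.Agent.TRK

open MvPolynomial
open Pool.Agent.UNK (zar PF dot tp fc Fc)
open Pool.Agent.RKO (Letter wv pt sv tf Srt)

universe u

section

variable {k : Type u} [Field k] {V : Type} {w : ℕ}

open scoped Classical in
private noncomputable def Un (L : List (Finset V)) : Finset V := L.foldr (fun A B => A ∪ B) ∅

open scoped Classical in
private theorem Un_cons (A : Finset V) (L : List (Finset V)) : Un (A :: L) = A ∪ Un L := rfl

private theorem Un_sub (L : List (Finset V)) : ∀ B ∈ L, B ⊆ Un L := by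
  classical
  induction L with
  | nil => intro B hB; simp at hB
  | cons A L ih =>
    intro B hB
    rw [Un_cons]
    rcases List.mem_cons.1 hB with rfl | hB
    · intro x hx
      exact Finset.mem_union.2 (Or.inl hx)
    · intro x hx
      exact Finset.mem_union.2 (Or.inr (ih B hB hx))

private theorem Un_card (b : ℕ) (L : List (Finset V)) (h : ∀ B ∈ L, B.card ≤ b) :
    (Un L).card ≤ L.length * b := by
  classical
  induction L with
  | nil => simp [Un]
  | cons A L ih =>
    rw [Un_cons, List.length_cons, Nat.add_mul, one_mul]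
    have h1 := Finset.card_union_le A (Un L)
    have h2 := ih (fun B hB => h B (List.mem_cons_of_mem _ hB))
    have h3 := h A (by simp)
    omega

open scoped Classical in
theorem ind_list (Bs : List (Finset V)) (ρ b : ℕ)
    (hr : ∀ u, (Bs.filter fun B => u ∈ B).length ≤ ρ) (hB : ∀ B ∈ Bs, B.card ≤ b) (S : Finset V)
    (q : ℕ) (h : q * (ρ * b + 1) ≤ S.card) :
    ∃ S₁ : Finset V, S₁ ⊆ S ∧ S₁.card = q ∧
      ∀ B ∈ Bs, ∀ s ∈ S₁, ∀ s' ∈ S₁, s ∈ B → s' ∈ B → s = s' := by
  induction q generalizing S with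
  | zero => exact ⟨∅, Finset.empty_subset _, rfl, by simp⟩
  | succ q ih =>
    have hpos : 0 < S.card := by
      have : 0 < (q + 1) * (ρ * b + 1) := Nat.mul_pos (by omega) (by omega)
      omega
    obtain ⟨s, hs⟩ := Finset.card_pos.1 hpos
    have hU1 := Un_card b (Bs.filter fun B => s ∈ B)
      (fun B hB' => hB B (List.mem_of_mem_filter hB'))
    have hU2 : (Un (Bs.filter fun B => s ∈ B)).card ≤ ρ * b :=
      hU1.trans (Nat.mul_le_mul_right b (hr s))
    have hU3 : (insert s (Un (Bs.filter fun B => s ∈ B))).card ≤ ρ * b + 1 :=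
      (Finset.card_insert_le _ _).trans (by omega)
    have hS' : q * (ρ * b + 1) ≤ (S \ insert s (Un (Bs.filter fun B => s ∈ B))).card := by
      have h1 := Finset.le_card_sdiff (insert s (Un (Bs.filter fun B => s ∈ B))) S
      rw [Nat.add_mul, one_mul] at h
      omega
    obtain ⟨S₁, h1, h2, h3⟩ := ih _ hS'
    have hsn : s ∉ S₁ := by
      intro hc
      have := Finset.mem_sdiff.1 (h1 hc)
      exact this.2 (Finset.mem_insert_self _ _)
    have hno : ∀ B ∈ Bs, s ∈ B → ∀ t ∈ S₁, t ∉ B := by
      intro B hBB hsB t ht htB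
      have h4 := Finset.mem_sdiff.1 (h1 ht)
      apply h4.2
      apply Finset.mem_insert_of_mem
      exact Un_sub _ B (List.mem_filter.2 ⟨hBB, by simpa using hsB⟩) htB
    refine ⟨insert s S₁, ?_, ?_, ?_⟩
    · intro x hx
      rcases Finset.mem_insert.1 hx with rfl | hx
      · exact hs
      · exact (Finset.mem_sdiff.1 (h1 hx)).1
    · rw [Finset.card_insert_of_notMem hsn, h2]
    · intro B hBB x hx y hy hxB hyB
      rcases Finset.mem_insert.1 hx with hx' | hx'
      · rcases Finset.mem_insert.1 hy with hy' | hy'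
        · rw [hx', hy']
        · rw [hx'] at hxB
          exact absurd hyB (hno B hBB hxB y hy')
      · rcases Finset.mem_insert.1 hy with hy' | hy'
        · rw [hy'] at hyB
          exact absurd hxB (hno B hBB hyB x hx')
        · exact h3 B hBB x hx' y hy' hxB hyB

private def lvs : Tr k V w → List (Finset V)
  | Tr.leaf B _ _ _ => [B]
  | Tr.node _ T₁ T₂ => lvs T₁ ++ lvs T₂

open scoped Classical in
private theorem lvs_cnt (u : V) (T : Tr k V w) :
    cnt u T = ((lvs T).filter fun B => u ∈ B).length := by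
  induction T with
  | leaf B y dep pf =>
    by_cases hu : u ∈ B
    · simp [cnt, lvs, hu]
    · simp [cnt, lvs, hu]
  | node μ T₁ T₂ ih₁ ih₂ =>
    simp only [cnt, lvs, List.filter_append, List.length_append]
    rw [ih₁, ih₂]

private theorem lvs_bd (b : ℕ) (T : Tr k V w) : bd b T ↔ ∀ B ∈ lvs T, B.card ≤ b := by
  induction T with
  | leaf B y dep pf => simp [bd, lvs]
  | node μ T₁ T₂ ih₁ ih₂ =>
    simp only [bd, lvs, List.mem_append]
    rw [ih₁, ih₂]
    constructor
    · rintro ⟨h1, h2⟩ B (h | h)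
      · exact h1 B h
      · exact h2 B h
    · intro h
      exact ⟨fun B hB => h B (Or.inl hB), fun B hB => h B (Or.inr hB)⟩

private theorem lvs_ind (S : Finset V) (T : Tr k V w) :
    ind S T ↔ ∀ B ∈ lvs T, ∀ s ∈ S, ∀ s' ∈ S, s ∈ B → s' ∈ B → s = s' := by
  induction T with
  | leaf B y dep pf => simp [ind, lvs]
  | node μ T₁ T₂ ih₁ ih₂ =>
    simp only [ind, lvs, List.mem_append]
    rw [ih₁, ih₂]
    constructor
    · rintro ⟨h1, h2⟩ B (h | h)
      · exact h1 B h
      · exact h2 B h
    · intro h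
      exact ⟨fun B hB => h B (Or.inl hB), fun B hB => h B (Or.inr hB)⟩

private def plvs : Pc k V w → List (Finset V)
  | Pc.ctx fs => (fs.map fun f => lvs f.2).flatten
  | Pc.cl T => lvs T

open scoped Classical in
private theorem flat_cnt {α : Type*} (u : V) (g : α → List (Finset V)) (c : α → ℕ) (L : List α)
    (h : ∀ a ∈ L, c a = ((g a).filter fun B => u ∈ B).length) :
    (L.map c).sum = (((L.map g).flatten).filter fun B => u ∈ B).length := by
  induction L with
  | nil => simp
  | cons a L ih =>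
    rw [List.map_cons, List.sum_cons, List.map_cons, List.flatten_cons, List.filter_append,
      List.length_append, h a (by simp), ih (fun a' ha' => h a' (List.mem_cons_of_mem _ ha'))]

open scoped Classical in
private theorem plvs_cnt (u : V) (X : Pc k V w) :
    pcnt u X = ((plvs X).filter fun B => u ∈ B).length := by
  cases X with
  | ctx fs =>
    simp only [pcnt, plvs]
    exact flat_cnt u (fun f : Frame k V w => lvs f.2) (fun f => cnt u f.2) fs
      (fun f _ => lvs_cnt u f.2)
  | cl T => exact lvs_cnt u T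

private theorem plvs_bd (b : ℕ) (X : Pc k V w) (h : pbd b X) : ∀ B ∈ plvs X, B.card ≤ b := by
  cases X with
  | ctx fs =>
    intro B hB
    simp only [plvs, List.mem_flatten, List.mem_map] at hB
    obtain ⟨l, ⟨f, hf, rfl⟩, hB⟩ := hB
    exact (lvs_bd b f.2).1 (h f hf) B hB
  | cl T => exact (lvs_bd b T).1 h

private theorem plvs_ind (S : Finset V) (X : Pc k V w)
    (h : ∀ B ∈ plvs X, ∀ s ∈ S, ∀ s' ∈ S, s ∈ B → s' ∈ B → s = s') : pind S X := by
  cases X with
  | ctx fs =>
    intro f hf
    rw [lvs_ind]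
    intro B hB
    apply h B
    simp only [plvs, List.mem_flatten, List.mem_map]
    exact ⟨lvs f.2, ⟨f, hf, rfl⟩, hB⟩
  | cl T => exact (lvs_ind S T).2 h

theorem ind_pieces (Xs : List (Pc k V w)) (ρ b : ℕ) (hcnt : ∀ u, (Xs.map (pcnt u)).sum ≤ ρ)
    (hbd : ∀ X ∈ Xs, pbd b X) (S : Finset V) (q : ℕ) (h : q * (ρ * b + 1) ≤ S.card) :
    ∃ S₁ : Finset V, S₁ ⊆ S ∧ S₁.card = q ∧ ∀ X ∈ Xs, pind S₁ X := by
  classical
  obtain ⟨S₁, h1, h2, h3⟩ := ind_list ((Xs.map plvs).flatten) ρ b
    (fun u => by
      have h4 := hcnt u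
      rw [flat_cnt u plvs (pcnt u) Xs (fun X _ => plvs_cnt u X)] at h4
      exact h4)
    (fun B hB => by
      rw [List.mem_flatten] at hB
      obtain ⟨l, hl, hB⟩ := hB
      rw [List.mem_map] at hl
      obtain ⟨X, hX, rfl⟩ := hl
      exact plvs_bd b X (hbd X hX) B hB) S q h
  refine ⟨S₁, h1, h2, fun X hX => plvs_ind S₁ X (fun B hB => h3 B ?_)⟩
  rw [List.mem_flatten]
  exact ⟨plvs X, List.mem_map.2 ⟨X, hX, rfl⟩, hB⟩

end

end Pool.Agent.TRK
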