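import Pool.Agent.TRK.Rf

/-!
Project TRK (MP_e2be99_lc), module P1.  Text: /team-store/trk_h34.md (section 2, PHASE 1).
Definitions in `Pool/Agent/TRK/Defs.lean` (and `RKO/Defs.lean`, `UNK/Defs.lean`).

The first phase: the list of pieces is refined until all pieces are tight.
-/

set_option autoImplicit false

namespace Pool.Agent.TRK

open MvPolynomial
open Pool.Agent.UNK (zar PF dot tp fc Fc)
open Pool.Agent.RKO (Letter wv pt sv tf Srt)

universe u

section

variable {k : Type u} [Field k] {V : Type} {w : ℕ}

private theorem P1_pind_mono {S S' : Finset V} (h : S' ⊆ S) (X : Pc k V w) (hX : pind S X) :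
    pind S' X := by
  cases X with
  | ctx fs => exact fun f hf => ind_mono h (hX f hf)
  | cl T => exact ind_mono h hX

private theorem P1_sum_pos (fs : List (Frame k V w)) (s : V) (h : inc fs s) :
    1 ≤ (fs.map fun f => cnt s f.2).sum := by
  obtain ⟨f, hf, hs⟩ := h
  have h1 : 1 ≤ cnt s f.2 := (cnt_pos f.2 s).2 hs
  exact h1.trans (List.single_le_sum (fun _ _ => Nat.zero_le _) _ (List.mem_map.2 ⟨f, hf, rfl⟩))

private theorem P1_oc_pos (X : Pc k V w) (s : V) (h : oc X s) : 1 ≤ pcnt s X := by
  cases X with
  | ctx fs => exact P1_sum_pos fs s h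
  | cl T => exact (cnt_pos T s).2 h

private theorem P1_tightT (S : Finset V) (T : Tr k V w) (h : ∀ s ∈ S, cnt s T ≤ 1) :
    tightT 1 S T := by
  classical
  intro hs T' hd
  rw [Nat.lt_one_iff, Finset.card_eq_zero, Finset.filter_eq_empty_iff]
  rintro s hsS ⟨h1, h2⟩
  have h3 := h s hsS
  rw [cnt_dec hd s] at h3
  have h4 := P1_sum_pos hs s h1
  have h5 := (cnt_pos T' s).2 h2
  omega

private theorem P1_tight (S : Finset V) (X : Pc k V w) (h : ∀ s ∈ S, pcnt s X ≤ 1) :
    tight 1 S X := by
  classical
  cases X with
  | ctx fs =>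
    refine ⟨fun gs₁ gs₂ hg => ?_, fun f hf => P1_tightT S f.2 fun s hs => ?_⟩
    · rw [Nat.lt_one_iff, Finset.card_eq_zero, Finset.filter_eq_empty_iff]
      rintro s hsS ⟨h1, h2⟩
      have h3 : (fs.map fun f => cnt s f.2).sum ≤ 1 := h s hsS
      rw [hg, List.map_append, List.sum_append] at h3
      have h4 := P1_sum_pos gs₁ s h1
      have h5 := P1_sum_pos gs₂ s h2
      omega
    · have h3 : (fs.map fun f => cnt s f.2).sum ≤ 1 := h s hs
      exact (List.single_le_sum (fun _ _ => Nat.zero_le _) _
        (List.mem_map.2 ⟨f, hf, rfl⟩)).trans h3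
  | cl T => exact P1_tightT S T h

open scoped Classical in
private theorem P1_len {α : Type*} (p : α → Prop) (a : α → ℕ) :
    ∀ L : List α, (∀ X ∈ L, p X → 1 ≤ a X) → (L.filter fun X => p X).length ≤ (L.map a).sum
  | [], _ => by simp
  | X :: L, h => by
    have h1 := P1_len p a L fun Y hY => h Y (List.mem_cons_of_mem _ hY)
    have h2 := h X List.mem_cons_self
    rw [List.map_cons, List.sum_cons]
    by_cases hp : p X
    · rw [List.filter_cons_of_pos (by simpa using hp), List.length_cons]
      have h3 := h2 hp
      omega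
    · rw [List.filter_cons_of_neg (by simpa using hp)]
      omega

open scoped Classical in
private theorem P1_one {α : Type*} (p : α → Prop) (a : α → ℕ) :
    ∀ L : List α, (∀ X ∈ L, p X → 1 ≤ a X) →
      (L.map a).sum ≤ (L.filter fun X => p X).length → ∀ X ∈ L, a X ≤ 1
  | [], _, _ => fun X hX => absurd hX List.not_mem_nil
  | X :: L, h, hs => by
    have h0 : ∀ Y ∈ L, p Y → 1 ≤ a Y := fun Y hY => h Y (List.mem_cons_of_mem _ hY)
    have h1 := P1_len p a L h0
    have h2 := h X List.mem_cons_self
    rw [List.map_cons, List.sum_cons] at hs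
    have h4 : a X ≤ 1 ∧ (L.map a).sum ≤ (L.filter fun X => p X).length := by
      by_cases hp : p X
      · rw [List.filter_cons_of_pos (by simpa using hp), List.length_cons] at hs
        have h3 := h2 hp
        omega
      · rw [List.filter_cons_of_neg (by simpa using hp)] at hs
        omega
    intro Y hY
    rcases List.mem_cons.1 hY with rfl | hY
    · exact h4.1
    · exact P1_one p a L h0 h4.2 Y hY

open scoped Classical in
theorem phase1 (σ : ℕ) (hσ : 1 ≤ σ) (v : V → k) (c q ρ t : ℕ) (Xs : List (Pc k V w))
    (hX : ∀ X ∈ Xs, SA σ v X) (S : Finset V) (hind : ∀ X ∈ Xs, pind S X)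
    (hcnt : ∀ s ∈ S, (Xs.map (pcnt s)).sum ≤ ρ)
    (hp : ∀ s ∈ S, ρ ≤ (Xs.filter fun X => oc X s).length + t)
    (hc : Xs.length + 5 * t ≤ c) (hcard : TT c q t ≤ S.card) :
    ∃ (S' : Finset V) (Xs' : List (Pc k V w)) (q₁ : ℕ), S' ⊆ S ∧ Xs'.length ≤ c ∧
      (∀ X ∈ Xs', SA σ v X) ∧ (Xs.map EE).prod ≤ (Xs'.map EE).prod ∧
      (∀ X ∈ Xs', pind S' X) ∧ (∀ X ∈ Xs', tight q₁ S' X) ∧ H2 q₁ c q ≤ S'.card := by
  induction t generalizing Xs S with
  | zero =>
    refine ⟨S, Xs, 1, Finset.Subset.refl _, by omega, hX, le_refl _, hind, ?_, hcard⟩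
    intro X hXm
    apply P1_tight
    intro s hs
    have h1 := hcnt s hs
    have h2 := hp s hs
    exact P1_one (fun X => oc X s) (pcnt s) Xs (fun Y _ hY => P1_oc_pos Y s hY) (by omega) X hXm
  | succ t ih =>
    by_cases hall : ∀ X ∈ Xs, tight (TT c q t) S X
    · exact ⟨S, Xs, TT c q t, Finset.Subset.refl _, by omega, hX, le_refl _, hind, hall, hcard⟩
    · push Not at hall
      obtain ⟨X, hXm, hnt⟩ := hall
      obtain ⟨S₁, Ys, h1, h2, h3, h4, h5, h6, h7, h8⟩ :=
        refine_piece σ hσ v X (hX X hXm) S (TT c q t) hnt
      obtain ⟨As, Bs, rfl⟩ := List.append_of_mem hXm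
      obtain ⟨S₂, Xs₂, q₁, k1, k2, k3, k4, k5, k6, k7⟩ := ih (As ++ (Ys ++ Bs)) (by
          intro Y hY
          rcases List.mem_append.1 hY with hY | hY
          · exact hX Y (List.mem_append_left _ hY)
          · rcases List.mem_append.1 hY with hY | hY
            · exact h5 Y hY
            · exact hX Y (List.mem_append_right _ (List.mem_cons_of_mem _ hY))) S₁ (by
          intro Y hY
          rcases List.mem_append.1 hY with hY | hY
          · exact P1_pind_mono h1 Y (hind Y (List.mem_append_left _ hY))
          · rcases List.mem_append.1 hY with hY | hY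
            · exact h7 S₁ (P1_pind_mono h1 X (hind X hXm)) Y hY
            · exact P1_pind_mono h1 Y
                (hind Y (List.mem_append_right _ (List.mem_cons_of_mem _ hY)))) (by
          intro s hs
          have h9 := hcnt s (h1 hs)
          rw [List.map_append, List.sum_append, List.map_cons, List.sum_cons] at h9
          rw [List.map_append, List.sum_append, List.map_append, List.sum_append, h6 s]
          exact h9) (by
          intro s hs
          have h9 := hp s (h1 hs)
          have h10 := h8 s hs
          rw [List.filter_append, List.length_append] at h9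
          rw [List.filter_append, List.length_append, List.filter_append, List.length_append]
          have h11 : ((X :: Bs).filter fun X => oc X s).length ≤
              1 + (Bs.filter fun X => oc X s).length := by
            rw [List.filter_cons]
            split_ifs
            · rw [List.length_cons]
              omega
            · omega
          omega) (by
          rw [List.length_append, List.length_cons] at hc
          rw [List.length_append, List.length_append]
          omega) h2
      refine ⟨S₂, Xs₂, q₁, k1.trans h1, k2, k3, le_trans ?_ k4, k5, k6, k7⟩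
      rw [List.map_append, List.prod_append, List.map_cons, List.prod_cons, List.map_append,
        List.prod_append, List.map_append, List.prod_append]
      exact mul_le_mul' (le_refl _) (mul_le_mul' h4 (le_refl _))

end

end Pool.Agent.TRK
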