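import Pool.Agent.TRK.Pi
import Pool.Agent.RKO.Es

/-!
Project TRK (MP_e2be99_lc), module P2: the second phase.

Induction on the number of the pieces: the lemma on one piece, the induction hypothesis for the other pieces and the variables
which are left, and the theorem of Erdos and Szekeres for the two lists.
-/

set_option autoImplicit false

namespace Pool.Agent.TRK

open MvPolynomial
open Pool.Agent.UNK (zar PF dot tp fc Fc)
open Pool.Agent.RKO (Letter wv pt sv tf Srt)

universe u

section

variable {k : Type u} [Field k] {V : Type} {w : ℕ}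

private theorem P2_H2_ge (q₁ : ℕ) (c : ℕ) : ∀ q : ℕ, q ≤ H2 q₁ c q := by
  induction c with
  | zero => exact fun q => le_refl q
  | succ c ih =>
    intro q
    have h1 : q ≤ q * q := Nat.le_mul_self q
    have h2 : H2 q₁ c (q * q) ≤ H2 q₁ (c + 1) q := by
      show _ ≤ PP q₁ (H2 q₁ c (q * q))
      unfold PP
      exact Nat.le_add_right _ _
    exact (h1.trans (ih (q * q))).trans h2

private theorem P2_ind_mono {S S' : Finset V} (h : S' ⊆ S) (T : Tr k V w) (hT : ind S T) : ind S' T := by
  induction T with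
  | leaf B y dep pf => exact fun s hs s' hs' => hT s (h hs) s' (h hs')
  | node μ T₁ T₂ ih₁ ih₂ => exact ⟨ih₁ hT.1, ih₂ hT.2⟩

private theorem P2_pind_mono {S S' : Finset V} (h : S' ⊆ S) (X : Pc k V w) (hX : pind S X) : pind S' X := by
  cases X with
  | ctx fs => exact fun f hf => P2_ind_mono h f.2 (hX f hf)
  | cl T => exact P2_ind_mono h T hX

private theorem P2_tightT_mono {S S' : Finset V} (h : S' ⊆ S) (q₁ : ℕ) (T : Tr k V w) (hT : tightT q₁ S T) :
    tightT q₁ S' T := by
  classical
  intro hs T' hd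
  exact (Finset.card_le_card (Finset.filter_subset_filter _ h)).trans_lt (hT hs T' hd)

private theorem P2_tight_mono {S S' : Finset V} (h : S' ⊆ S) (q₁ : ℕ) (X : Pc k V w) (hX : tight q₁ S X) :
    tight q₁ S' X := by
  classical
  cases X with
  | ctx fs =>
    refine ⟨fun gs₁ gs₂ hg => ?_, fun f hf => P2_tightT_mono h q₁ f.2 (hX.2 f hf)⟩
    exact (Finset.card_le_card (Finset.filter_subset_filter _ h)).trans_lt (hX.1 gs₁ gs₂ hg)
  | cl T => exact P2_tightT_mono h q₁ T hX

private theorem P2_srt_mono {α β : Type*} (occ : β → α → Prop) {rr ss : List α} (h : List.Sublist rr ss)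
    (X : List β) (hX : Srt occ ss X) : Srt occ rr X := by
  unfold Srt at hX ⊢
  exact hX.imp fun {l l'} hl s s' hs hs' hsub => hl s s' hs hs' (hsub.trans h)

private theorem P2_good_mono (v : V → k) {rr ss : List V} (h : List.Sublist rr ss ∨ List.Sublist rr.reverse ss)
    (X : Pc k V w) (hX : good v ss X) : good v rr X := by
  have hsub : ∀ s ∈ rr, s ∈ ss := by
    intro s hs
    rcases h with h | h
    · exact h.subset hs
    · exact h.subset (List.mem_reverse.2 hs)
  obtain ⟨fs, h1, h2, h3, h4⟩ := hX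
  refine ⟨fs, h1, h2, ?_, fun f hf s hs s' hs' => h4 f hf s (hsub s hs) s' (hsub s' hs')⟩
  rcases h with h | h
  · rcases h3 with h3 | h3
    · exact Or.inl (P2_srt_mono _ h fs h3)
    · exact Or.inr (P2_srt_mono _ h.reverse fs h3)
  · rcases h3 with h3 | h3
    · exact Or.inr (P2_srt_mono _ h fs h3)
    · have h5 := h.reverse
      rw [List.reverse_reverse] at h5
      exact Or.inl (P2_srt_mono _ h5 fs h3)

theorem phase2 (σ : ℕ) (hσ : 1 ≤ σ) (v : V → k) (q₁ c q : ℕ) (Xs : List (Pc k V w))
    (hc : Xs.length ≤ c) (hX : ∀ X ∈ Xs, SA σ v X) (S : Finset V) (hind : ∀ X ∈ Xs, pind S X)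
    (ht : ∀ X ∈ Xs, tight q₁ S X) (hcard : H2 q₁ c q ≤ S.card) :
    ∃ (ss : List V) (Xs' : List (Pc k V w)), ss.Nodup ∧ (∀ s ∈ ss, s ∈ S) ∧ q ≤ ss.length ∧
      Xs'.length ≤ 6 * c ∧ (Xs.map EE).prod ≤ (Xs'.map EE).prod ∧
      ∀ X' ∈ Xs', free ss X' ∨ good v ss X' := by
  classical
  induction c generalizing q Xs S with
  | zero =>
    have h1 : Xs = [] := List.eq_nil_of_length_eq_zero (Nat.eq_zero_of_le_zero hc)
    subst h1
    refine ⟨S.toList, [], S.nodup_toList, fun s hs => Finset.mem_toList.1 hs, ?_, by simp, le_refl _, by simp⟩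
    rw [Finset.length_toList]
    exact hcard
  | succ c ih =>
    match Xs, hc, hX, hind, ht with
    | [], _, _, _, _ =>
      refine ⟨S.toList, [], S.nodup_toList, fun s hs => Finset.mem_toList.1 hs, ?_, by simp, le_refl _, by simp⟩
      rw [Finset.length_toList]
      exact (P2_H2_ge q₁ (c + 1) q).trans hcard
    | X :: Xs₁, hc, hX, hind, ht =>
      obtain ⟨ss₁, Ys, h1, h2, h3, h4, h5, h6⟩ := piece σ hσ v q₁ (H2 q₁ c (q * q)) X
        (hX X List.mem_cons_self) S (hind X List.mem_cons_self) (ht X List.mem_cons_self) hcard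
      have hsub : ss₁.toFinset ⊆ S := fun s hs => h2 s (List.mem_toFinset.1 hs)
      obtain ⟨tt, Ys', k1, k2, k3, k4, k5, k6⟩ := ih (q * q) Xs₁ (by
        rw [List.length_cons] at hc
        omega) (fun Y hY => hX Y (List.mem_cons_of_mem _ hY)) ss₁.toFinset
        (fun Y hY => P2_pind_mono hsub Y (hind Y (List.mem_cons_of_mem _ hY)))
        (fun Y hY => P2_tight_mono hsub q₁ Y (ht Y (List.mem_cons_of_mem _ hY))) (by
          rw [List.toFinset_card_of_nodup h1]
          exact h3)
      have k2' : ∀ s ∈ tt, s ∈ ss₁ := fun s hs => List.mem_toFinset.1 (k2 s hs)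
      obtain ⟨rr, r1, r2, r3⟩ := Pool.Agent.RKO.es q ss₁ tt h1 k1 k2' k3
      have hrt : ∀ s ∈ rr, s ∈ tt := fun s hs => r1.subset hs
      refine ⟨rr, Ys ++ Ys', k1.sublist r1, fun s hs => h2 s (k2' s (hrt s hs)), r2, ?_, ?_, ?_⟩
      · rw [List.length_append]
        omega
      · rw [List.map_cons, List.prod_cons, List.map_append, List.prod_append]
        exact mul_le_mul' h5 k5
      · intro X' hX'
        rcases List.mem_append.1 hX' with h7 | h7
        · rcases h6 X' h7 with h8 | h8
          · exact Or.inl fun s hs => h8 s (k2' s (hrt s hs))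
          · exact Or.inr (P2_good_mono v r3 X' h8)
        · rcases k6 X' h7 with h8 | h8
          · exact Or.inl fun s hs => h8 s (hrt s hs)
          · exact Or.inr (P2_good_mono v (Or.inl r1) X' h8)

end

end Pool.Agent.TRK
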