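import Pool.Agent.TRK.Hv
import Pool.Agent.TRK.Gr
import Pool.Agent.TRK.Ea

/-!
Project TRK (MP_e2be99_lc), module Pi.  Text: /team-store/trk_h34.md (section 2, PIECE LEMMA).
Definitions in `Pool/Agent/TRK/Defs.lean` (and `RKO/Defs.lean`, `UNK/Defs.lean`).  Replace the `sorry`; keep the
statements; helper lemmas private.

PLAN.
* `piece_cl` (`X = cl T`, all of `S` occurs in `T`): `heavy` with `m + 1`: `H`, `T'`, `ss₀`.  `st_dec`: if all side trees of `H` have `st < σ`: pieces `ctx H`, `cl T'` (`EE (cl T) ≤ ..`: `ee_dec`), `ss = ss₀`: `AlvC H v` by `HA σ T v` (infixes of `H`); `cl T'` is free.  Otherwise `H = H₁ ++ f :: H₂`; `ss := ss₀` without the (at most one) element occurring in `f`: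
  pieces `ctx H₁`, `cl f.2`, `ctx H₂`, `cl T'` (`ee_dec`, `ee_append`, `ee_frame`).  `Srt` and the last condition are inherited by sublists of `ss₀` and by infixes of `H`.
* `piece`: let `S₀` = elements of `S` not occurring in `X`.  If `m ≤ |S₀|`: `ss = S₀.toList`, `Xs = [X]` (free).  Otherwise `S₁ = S \ S₀` has at least `(m + 1) * (2 * q₁ + HV q₁ (m + 1) + 1)` elements.  `X = cl T`: `piece_cl`.  `X = ctx fs`: (1) if for some splitting `fs = gs₁ ++ f :: gs₂` at least `HV q₁ (m + 1)` elements of `S₁` occur in `f` only: `piece_cl` for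
  `f.2` and these elements: pieces `ctx gs₁ :: (those) ++ [ctx gs₂]` (`gs₁`, `gs₂` free); at most 6.  (2) otherwise `greedy` with `N₂ = HV q₁ (m + 1)`, target `m + 1`: `Xs = [ctx fs]`: `AlvC fs v` from `SA`, unless `fs.length ≤ 1`; but then all elements of `S₁` occur only in one frame (or there is none): case (1) applies (`HV q₁ (m+1) ≤ |S₁|`).
-/

set_option autoImplicit false

namespace Pool.Agent.TRK

open MvPolynomial
open Pool.Agent.UNK (zar PF dot tp fc Fc)
open Pool.Agent.RKO (Letter wv pt sv tf Srt)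

universe u

section

variable {k : Type u} [Field k] {V : Type} {w : ℕ}

private theorem pi_srt {ss₀ ss : List V} {H H' : List (Frame k V w)}
    (h : Srt (fun (f : Frame k V w) s => s ∈ tv f.2) ss₀ H) (h1 : List.Sublist ss ss₀)
    (h2 : List.Sublist H' H) : Srt (fun (f : Frame k V w) s => s ∈ tv f.2) ss H' := by
  have h' : H.Pairwise fun (l l' : Frame k V w) => ∀ s s', s ∈ tv l.2 → s' ∈ tv l'.2 →
      ¬ List.Sublist [s', s] ss₀ := h
  have h3 := h'.sublist h2
  refine List.Pairwise.imp ?_ h3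
  intro a b hab s s' hs hs' hsub
  exact hab s s' hs hs' (hsub.trans h1)

open scoped Classical in
private theorem pi_count (ss : List V) (hnd : ss.Nodup) (B : Finset V)
    (h : ∀ s ∈ ss, ∀ s' ∈ ss, s ∈ B → s' ∈ B → s = s') :
    ss.length ≤ (ss.filter fun s => decide (s ∉ B)).length + 1 := by
  induction ss with
  | nil => simp
  | cons a ss ih =>
    have hnd' := List.nodup_cons.1 hnd
    by_cases ha : a ∈ B
    · have h1 : ss.filter (fun s => decide (s ∉ B)) = ss := by
        rw [List.filter_eq_self]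
        intro s hs
        rw [decide_eq_true_iff]
        intro hsB
        have h2 : a = s := h a List.mem_cons_self s (List.mem_cons_of_mem _ hs) ha hsB
        exact hnd'.1 (h2 ▸ hs)
      rw [List.filter_cons_of_neg (by simp [ha]), h1]
      simp
    · rw [List.filter_cons_of_pos (by simp [ha])]
      have h2 := ih hnd'.2 fun s hs s' hs' => h s (List.mem_cons_of_mem _ hs) s'
        (List.mem_cons_of_mem _ hs')
      simp only [List.length_cons]
      omega

private theorem pi_alv {σ : ℕ} {T T' : Tr k V w} {v : V → k} (hT : HA σ T v)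
    {H J₀ : List (Frame k V w)} (hD : Dec T H T') (hJ₀ : J₀ <:+: H)
    (hst : ∀ f ∈ J₀, st f.2 < σ) : AlvC J₀ v := by
  intro J hJ x
  exact hT H T' hD J (hJ.trans hJ₀) (fun f hf => hst f (hJ.subset hf)) x

private theorem pi_ee_cons (gs₁ gs₂ : List (Frame k V w)) (f : Frame k V w) :
    EE (Pc.ctx (gs₁ ++ f :: gs₂)) ≤ EE (Pc.ctx gs₁) * (EE (Pc.cl f.2) * EE (Pc.ctx gs₂)) := by
  refine (ee_append gs₁ (f :: gs₂)).trans (mul_le_mul' le_rfl ?_)
  have h1 : f :: gs₂ = [f] ++ gs₂ := rfl
  rw [h1]
  exact (ee_append [f] gs₂).trans (mul_le_mul' (ee_frame f) le_rfl)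

private theorem pi_card {S S' : Finset V} (h : S' ⊆ S) (p q : V → Prop) (i : DecidablePred p)
    (j : DecidablePred q) (hpq : ∀ s, p s → q s) :
    (@Finset.filter V p i S').card ≤ (@Finset.filter V q j S).card := by
  refine Finset.card_le_card fun s hs => ?_
  have h5 := Finset.mem_filter.1 hs
  exact Finset.mem_filter.2 ⟨h h5.1, hpq s h5.2⟩

private theorem pi_tight {q₁ : ℕ} {S S' : Finset V} (h : S' ⊆ S) {T : Tr k V w}
    (ht : tightT q₁ S T) : tightT q₁ S' T := by
  classical
  intro hs T' hD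
  refine lt_of_le_of_lt (Finset.card_le_card fun s hs' => ?_) (ht hs T' hD)
  rw [Finset.mem_filter] at hs' ⊢
  exact ⟨h hs'.1, hs'.2⟩

theorem piece_cl (σ : ℕ) (hσ : 1 ≤ σ) (v : V → k) (q₁ m : ℕ) (T : Tr k V w)
    (hT : st T ≤ σ ∧ HA σ T v) (S : Finset V) (hoc : ∀ s ∈ S, s ∈ tv T) (hind : ind S T)
    (ht : tightT q₁ S T) (hcard : HV q₁ (m + 1) ≤ S.card) :
    ∃ (ss : List V) (Xs : List (Pc k V w)), ss.Nodup ∧ (∀ s ∈ ss, s ∈ S) ∧ m ≤ ss.length ∧
      Xs.length ≤ 4 ∧ EE (Pc.cl T) ≤ (Xs.map EE).prod ∧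
      ∀ X' ∈ Xs, free ss X' ∨ good v ss X' := by
  classical
  obtain ⟨H, T', ss₀, hD, hnd, hmem, hlen, hout, hsrt, hone⟩ := heavy q₁ (m + 1) T S hoc hind ht hcard
  obtain ⟨_, _, hcase⟩ := st_dec hσ hD hT.1
  rcases hcase with h | ⟨H₁, f, H₂, rfl, h₁, h₂⟩
  · refine ⟨ss₀, [Pc.ctx H, Pc.cl T'], hnd, hmem, by omega, by simp, ?_, ?_⟩
    · simp only [List.map_cons, List.map_nil, List.prod_cons, List.prod_nil, mul_one]
      exact ee_dec hD
    · intro X' hX'
      rcases List.mem_cons.1 hX' with rfl | hX'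
      · exact Or.inr ⟨H, rfl, pi_alv hT.2 hD (List.infix_refl H) h, Or.inl hsrt, hone⟩
      · rw [List.mem_singleton.1 hX']
        exact Or.inl fun s hs => hout s hs
  · have hf : f ∈ H₁ ++ f :: H₂ := List.mem_append_right _ List.mem_cons_self
    have hsub : List.Sublist (ss₀.filter fun s => decide (s ∉ tv f.2)) ss₀ := List.filter_sublist
    have hcnt := pi_count ss₀ hnd (tv f.2) (hone f hf)
    have hgood : ∀ J₀ : List (Frame k V w), J₀ <:+: H₁ ++ f :: H₂ → (∀ g ∈ J₀, st g.2 < σ) →
        good v (ss₀.filter fun s => decide (s ∉ tv f.2)) (Pc.ctx J₀) := by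
      intro J₀ hJ hst
      refine ⟨J₀, rfl, pi_alv hT.2 hD hJ hst, Or.inl (pi_srt hsrt hsub hJ.sublist), ?_⟩
      intro g hg s hs s' hs'
      exact hone g (hJ.subset hg) s (hsub.subset hs) s' (hsub.subset hs')
    refine ⟨ss₀.filter fun s => decide (s ∉ tv f.2), [Pc.ctx H₁, Pc.cl f.2, Pc.ctx H₂, Pc.cl T'],
      hnd.filter _, fun s hs => hmem s (hsub.subset hs), by omega, by simp, ?_, ?_⟩
    · simp only [List.map_cons, List.map_nil, List.prod_cons, List.prod_nil, mul_one]
      refine (ee_dec hD).trans ((mul_le_mul' (pi_ee_cons H₁ H₂ f) le_rfl).trans ?_)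
      exact le_of_eq (by ring)
    · intro X' hX'
      simp only [List.mem_cons, List.not_mem_nil, or_false] at hX'
      rcases hX' with rfl | rfl | rfl | rfl
      · exact Or.inr (hgood H₁ (List.prefix_append H₁ _).isInfix h₁)
      · refine Or.inl fun s hs => ?_
        have h3 := (List.mem_filter.1 hs).2
        rw [decide_eq_true_iff] at h3
        exact h3
      · refine Or.inr (hgood H₂ ?_ h₂)
        exact ⟨H₁ ++ [f], [], by simp⟩
      · exact Or.inl fun s hs => hout s (hsub.subset hs)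

theorem piece (σ : ℕ) (hσ : 1 ≤ σ) (v : V → k) (q₁ m : ℕ) (X : Pc k V w) (hX : SA σ v X)
    (S : Finset V) (hind : pind S X) (ht : tight q₁ S X) (hcard : PP q₁ m ≤ S.card) :
    ∃ (ss : List V) (Xs : List (Pc k V w)), ss.Nodup ∧ (∀ s ∈ ss, s ∈ S) ∧ m ≤ ss.length ∧
      Xs.length ≤ 6 ∧ EE X ≤ (Xs.map EE).prod ∧ ∀ X' ∈ Xs, free ss X' ∨ good v ss X' := by
  classical
  by_cases h0 : m ≤ (S.filter fun s => ¬ oc X s).card
  · refine ⟨(S.filter fun s => ¬ oc X s).toList, [X], Finset.nodup_toList _, ?_, ?_, by simp, ?_, ?_⟩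
    · intro s hs
      exact (Finset.mem_filter.1 (Finset.mem_toList.1 hs)).1
    · rw [Finset.length_toList]
      exact h0
    · simp
    · intro X' hX'
      rw [List.mem_singleton.1 hX']
      refine Or.inl fun s hs => ?_
      exact (Finset.mem_filter.1 (Finset.mem_toList.1 hs)).2
  · have hsum : (S.filter fun s => oc X s).card + (S.filter fun s => ¬ oc X s).card = S.card :=
      Finset.card_filter_add_card_filter_not _
    have hbig : (m + 1) * (2 * q₁ + HV q₁ (m + 1) + 1) ≤ (S.filter fun s => oc X s).card := by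
      unfold PP at hcard
      omega
    have hexp : (m + 1) * (2 * q₁ + HV q₁ (m + 1) + 1) =
        (m + 1) * (2 * q₁ + HV q₁ (m + 1)) + (m + 1) := by ring
    have hexp2 : HV q₁ (m + 1) ≤ (m + 1) * (2 * q₁ + HV q₁ (m + 1)) := by
      have h2 : 1 * (2 * q₁ + HV q₁ (m + 1)) ≤ (m + 1) * (2 * q₁ + HV q₁ (m + 1)) :=
        Nat.mul_le_mul_right _ (by omega)
      omega
    have hsub : (S.filter fun s => oc X s) ⊆ S := Finset.filter_subset _ _
    have hocS : ∀ s ∈ S.filter (fun s => oc X s), oc X s := fun s hs => (Finset.mem_filter.1 hs).2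
    generalize (S.filter fun s => oc X s) = S₁ at hbig hsub hocS
    clear hsum h0
    cases X with
    | cl T =>
      obtain ⟨ss, Xs, a1, a2, a3, a4, a5, a6⟩ := piece_cl σ hσ v q₁ m T hX S₁ hocS
        (ind_mono hsub hind) (pi_tight hsub ht) (by omega)
      exact ⟨ss, Xs, a1, fun s hs => hsub (a2 s hs), a3, by omega, a5, a6⟩
    | ctx fs =>
      by_cases hc : ∃ gs₁ f gs₂, fs = gs₁ ++ f :: gs₂ ∧ HV q₁ (m + 1) ≤ (S₁.filter fun s =>
          s ∈ tv f.2 ∧ (∀ y ∈ gs₁, ¬ s ∈ tv y.2) ∧ ∀ z ∈ gs₂, ¬ s ∈ tv z.2).card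
      · obtain ⟨gs₁, f, gs₂, rfl, hN⟩ := hc
        have hf : f ∈ gs₁ ++ f :: gs₂ := List.mem_append_right _ List.mem_cons_self
        have hsub2 : (S₁.filter fun s => s ∈ tv f.2 ∧ (∀ y ∈ gs₁, ¬ s ∈ tv y.2) ∧
            ∀ z ∈ gs₂, ¬ s ∈ tv z.2) ⊆ S := (Finset.filter_subset _ _).trans hsub
        obtain ⟨ss, Xs, a1, a2, a3, a4, a5, a6⟩ := piece_cl σ hσ v q₁ m f.2 (hX.1 f hf) _
          (fun s hs => (Finset.mem_filter.1 hs).2.1) (ind_mono hsub2 (hind f hf))
          (pi_tight hsub2 (ht.2 f hf)) hN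
        refine ⟨ss, Pc.ctx gs₁ :: (Xs ++ [Pc.ctx gs₂]), a1, fun s hs => hsub2 (a2 s hs), a3, ?_, ?_, ?_⟩
        · simp only [List.length_cons, List.length_append, List.length_nil]
          omega
        · rw [List.map_cons, List.prod_cons, List.map_append, List.prod_append, List.map_cons,
            List.map_nil, List.prod_cons, List.prod_nil, mul_one]
          exact (pi_ee_cons gs₁ gs₂ f).trans (mul_le_mul' le_rfl (mul_le_mul' a5 le_rfl))
        · intro X' hX'
          rcases List.mem_cons.1 hX' with rfl | hX'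
          · refine Or.inl fun s hs => ?_
            rintro ⟨y, hy, hys⟩
            exact (Finset.mem_filter.1 (a2 s hs)).2.2.1 y hy hys
          · rcases List.mem_append.1 hX' with hX' | hX'
            · exact a6 X' hX'
            · rw [List.mem_singleton.1 hX']
              refine Or.inl fun s hs => ?_
              rintro ⟨y, hy, hys⟩
              exact (Finset.mem_filter.1 (a2 s hs)).2.2.2 y hy hys
      · have hfr : ∀ Y x Z, fs = Y ++ x :: Z → (S₁.filter fun s =>
            s ∈ tv x.2 ∧ (∀ y ∈ Y, ¬ s ∈ tv y.2) ∧ ∀ z ∈ Z, ¬ s ∈ tv z.2).card < HV q₁ (m + 1) := by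
          intro Y x Z h
          by_contra hcon
          exact hc ⟨Y, x, Z, h, not_lt.1 hcon⟩
        have halv : AlvC fs v := by
          rcases hX.2 with h | h
          · exact h
          · exfalso
            have hne : S₁.Nonempty := by
              rw [← Finset.card_pos]
              omega
            obtain ⟨s₀, hs₀⟩ := hne
            obtain ⟨f, hf, hs₀f⟩ := hocS s₀ hs₀
            have hfs : fs = [f] := by
              match fs, h, hf with
              | [g], _, hf =>
                rw [List.mem_singleton.1 hf]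
              | a :: b :: l, h, _ =>
                simp only [List.length_cons] at h
                omega
            have h3 := hfr [] f [] hfs
            have h4 : (S₁.filter fun s => s ∈ tv f.2 ∧ (∀ y ∈ ([] : List (Frame k V w)),
                ¬ s ∈ tv y.2) ∧ ∀ z ∈ ([] : List (Frame k V w)), ¬ s ∈ tv z.2) = S₁ := by
              rw [Finset.filter_eq_self]
              intro s hs
              obtain ⟨g, hg, hsg⟩ := hocS s hs
              rw [hfs] at hg
              rw [List.mem_singleton.1 hg] at hsg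
              exact ⟨hsg, fun y hy => absurd hy List.not_mem_nil,
                fun y hy => absurd hy List.not_mem_nil⟩
            rw [h4] at h3
            omega
        have hg := greedy (fun (f : Frame k V w) s => s ∈ tv f.2) q₁
          (HV q₁ (m + 1)) (m + 1) fs S₁ hocS
        have hg1 := hg (by
          intro Y Z h
          exact lt_of_le_of_lt (pi_card hsub _ _ _ _ fun s hs => hs) (ht.1 Y Z h))
        obtain ⟨ss, a1, a2, a3, a4, a5⟩ := hg1 (by
          intro Y x Z h
          exact lt_of_le_of_lt (pi_card (Finset.Subset.refl S₁) _ _ _ _ fun s hs => hs)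
            (hfr Y x Z h)) (by omega)
        refine ⟨ss, [Pc.ctx fs], a1, fun s hs => hsub (a2 s hs), by omega, by simp, by simp, ?_⟩
        intro X' hX'
        rw [List.mem_singleton.1 hX']
        exact Or.inr ⟨fs, rfl, halv, Or.inl a4, a5⟩

end

end Pool.Agent.TRK
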