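import Pool.Agent.TRK.Bb
import Pool.Agent.TRK.Ea

/-!
Project TRK (MP_e2be99_lc), module Rf.  Text: /team-store/trk_h34.md (section 2, PHASE 1: one refinement).
Definitions in `Pool/Agent/TRK/Defs.lean` (and `RKO/Defs.lean`, `UNK/Defs.lean`).

`refine_cl`: a path of a closed piece gives at most four admissible pieces (by `st_dec` at most one side tree of the path has Strahler number `σ`).
`refine_piece`: a piece which is not tight can be refined into at most six admissible pieces such that at least `q₁` variables occur in two of them.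
-/

set_option autoImplicit false

namespace Pool.Agent.TRK

open MvPolynomial
open Pool.Agent.UNK (zar PF dot tp fc Fc)
open Pool.Agent.RKO (Letter wv pt sv tf Srt)

universe u

section

variable {k : Type u} [Field k] {V : Type} {w : ℕ}

private theorem Rf_two {α : Type*} (p : α → Prop) [DecidablePred p] {As Bs : List α}
    (hA : ∃ Y ∈ As, p Y) (hB : ∃ Y ∈ Bs, p Y) : 2 ≤ ((As ++ Bs).filter fun Y => p Y).length := by
  obtain ⟨A, hA1, hA2⟩ := hA
  obtain ⟨B, hB1, hB2⟩ := hB
  have h1 : 0 < (As.filter fun Y => p Y).length :=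
    List.length_pos_of_mem (List.mem_filter.2 ⟨hA1, by simpa using hA2⟩)
  have h2 : 0 < (Bs.filter fun Y => p Y).length :=
    List.length_pos_of_mem (List.mem_filter.2 ⟨hB1, by simpa using hB2⟩)
  rw [List.filter_append, List.length_append]
  omega

private theorem Rf_split (gs₁ : List (Frame k V w)) (f : Frame k V w) (gs₂ : List (Frame k V w)) :
    EE (Pc.ctx (gs₁ ++ f :: gs₂)) ≤ EE (Pc.ctx gs₁) * (EE (Pc.cl f.2) * EE (Pc.ctx gs₂)) :=
  (ee_append gs₁ (f :: gs₂)).trans (mul_le_mul' le_rfl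
    ((ee_append [f] gs₂).trans (mul_le_mul' (ee_frame f) le_rfl)))

private theorem Rf_alv {σ : ℕ} {v : V → k} {T T' : Tr k V w} {hs hs' : List (Frame k V w)}
    (h : Dec T hs T') (hT : HA σ T v) (hi : hs' <:+: hs) (hlt : ∀ f ∈ hs', st f.2 < σ) :
    AlvC hs' v := fun J hJ x =>
  hT hs T' h J (hJ.trans hi) (fun f hf => hlt f (hJ.subset hf)) x

open scoped Classical in
theorem refine_cl (σ : ℕ) (hσ : 1 ≤ σ) (v : V → k) (T T' : Tr k V w) (hT : st T ≤ σ ∧ HA σ T v)
    (hs : List (Frame k V w)) (h : Dec T hs T') :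
    ∃ Ys : List (Pc k V w), Ys.length ≤ 4 ∧ EE (Pc.cl T) ≤ (Ys.map EE).prod ∧
      (∀ Y ∈ Ys, SA σ v Y) ∧ (∀ u, (Ys.map (pcnt u)).sum = cnt u T) ∧
      (∀ S, ind S T → ∀ Y ∈ Ys, pind S Y) ∧
      ∀ s, inc hs s → s ∈ tv T' → 2 ≤ (Ys.filter fun Y => oc Y s).length := by
  obtain ⟨h1, h2, h3⟩ := st_dec hσ h hT.1
  have hT' : SA σ v (Pc.cl T') := ⟨h1, ha_sub h hT.2⟩
  have hside : ∀ f ∈ hs, st f.2 ≤ σ ∧ HA σ f.2 v := fun f hf => ⟨h2 f hf, ha_side h hT.2 hf⟩
  rcases h3 with h3 | ⟨hs₁, f, hs₂, rfl, h4, h5⟩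
  · refine ⟨[Pc.ctx hs, Pc.cl T'], by simp, ?_, ?_, fun u => ?_, fun S hS Y hY => ?_, fun s h4 h5 => ?_⟩
    · simpa using ee_dec h
    · intro Y hY
      rcases List.mem_cons.1 hY with rfl | hY
      · exact ⟨hside, Or.inl (Rf_alv h hT.2 (List.infix_refl hs) h3)⟩
      · rw [List.mem_singleton.1 hY]
        exact hT'
    · rw [cnt_dec h u]
      simp [pcnt]
    · rcases List.mem_cons.1 hY with rfl | hY
      · exact (ind_dec h hS).2
      · rw [List.mem_singleton.1 hY]
        exact (ind_dec h hS).1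
    · exact Rf_two (fun Y => oc Y s) (As := [Pc.ctx hs]) (Bs := [Pc.cl T'])
        ⟨_, List.mem_singleton_self _, h4⟩ ⟨_, List.mem_singleton_self _, h5⟩
  · have hf : f ∈ hs₁ ++ f :: hs₂ := by simp
    have i1 : hs₁ <:+: hs₁ ++ f :: hs₂ := (List.prefix_append _ _).isInfix
    have i2 : hs₂ <:+: hs₁ ++ f :: hs₂ := ⟨hs₁ ++ [f], [], by simp⟩
    refine ⟨[Pc.ctx hs₁, Pc.cl f.2, Pc.ctx hs₂, Pc.cl T'], by simp, ?_, ?_, fun u => ?_,
      fun S hS Y hY => ?_, fun s h6 h7 => ?_⟩
    · refine (ee_dec h).trans ?_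
      refine (mul_le_mul' (Rf_split hs₁ f hs₂) le_rfl).trans ?_
      rw [List.map_cons, List.map_cons, List.map_cons, List.map_cons, List.map_nil, List.prod_cons,
        List.prod_cons, List.prod_cons, List.prod_cons, List.prod_nil, mul_one, mul_assoc, mul_assoc]
    · intro Y hY
      rcases List.mem_cons.1 hY with rfl | hY
      · exact ⟨fun g hg => hside g (i1.subset hg), Or.inl (Rf_alv h hT.2 i1 h4)⟩
      rcases List.mem_cons.1 hY with rfl | hY
      · exact hside f hf
      rcases List.mem_cons.1 hY with rfl | hY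
      · exact ⟨fun g hg => hside g (i2.subset hg), Or.inl (Rf_alv h hT.2 i2 h5)⟩
      · rw [List.mem_singleton.1 hY]
        exact hT'
    · rw [cnt_dec h u]
      simp only [List.map_cons, List.map_nil, List.sum_cons, List.sum_nil, pcnt, List.map_append,
        List.sum_append]
      omega
    · have h8 := ind_dec h hS
      rcases List.mem_cons.1 hY with rfl | hY
      · exact fun g hg => h8.2 g (i1.subset hg)
      rcases List.mem_cons.1 hY with rfl | hY
      · exact h8.2 f hf
      rcases List.mem_cons.1 hY with rfl | hY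
      · exact fun g hg => h8.2 g (i2.subset hg)
      · rw [List.mem_singleton.1 hY]
        exact h8.1
    · obtain ⟨g, hg, hgs⟩ := h6
      refine Rf_two (fun Y => oc Y s) (As := [Pc.ctx hs₁, Pc.cl f.2, Pc.ctx hs₂]) (Bs := [Pc.cl T'])
        ?_ ⟨_, List.mem_singleton_self _, h7⟩
      rcases List.mem_append.1 hg with hg | hg
      · exact ⟨Pc.ctx hs₁, by simp, g, hg, hgs⟩
      · rcases List.mem_cons.1 hg with rfl | hg
        · exact ⟨Pc.cl g.2, by simp, hgs⟩
        · exact ⟨Pc.ctx hs₂, by simp, g, hg, hgs⟩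

private theorem Rf_sa {σ : ℕ} {v : V → k} {fs gs : List (Frame k V w)} (hX : SA σ v (Pc.ctx fs))
    (hi : gs <:+: fs) : SA σ v (Pc.ctx gs) := by
  refine ⟨fun f hf => hX.1 f (hi.subset hf), ?_⟩
  rcases hX.2 with h | h
  · exact Or.inl fun J hJ x => h J (hJ.trans hi) x
  · exact Or.inr (hi.length_le.trans h)

open scoped Classical in
theorem refine_piece (σ : ℕ) (hσ : 1 ≤ σ) (v : V → k) (X : Pc k V w) (hX : SA σ v X)
    (S : Finset V) (q₁ : ℕ) (hnt : ¬ tight q₁ S X) :
    ∃ (S' : Finset V) (Ys : List (Pc k V w)), S' ⊆ S ∧ q₁ ≤ S'.card ∧ Ys.length ≤ 6 ∧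
      EE X ≤ (Ys.map EE).prod ∧ (∀ Y ∈ Ys, SA σ v Y) ∧
      (∀ u, (Ys.map (pcnt u)).sum = pcnt u X) ∧ (∀ S₁, pind S₁ X → ∀ Y ∈ Ys, pind S₁ Y) ∧
      ∀ s ∈ S', 2 ≤ (Ys.filter fun Y => oc Y s).length := by
  have hcl : ∀ T : Tr k V w, ¬ tightT q₁ S T → ∃ hs T', Dec T hs T' ∧
      q₁ ≤ (S.filter fun s => inc hs s ∧ s ∈ tv T').card := by
    intro T hT
    unfold tightT at hT
    push Not at hT
    exact hT
  cases X with
  | cl T =>
    obtain ⟨hs, T', hd, hq⟩ := hcl T hnt
    obtain ⟨Ys, h1, h2, h3, h4, h5, h6⟩ := refine_cl σ hσ v T T' hX hs hd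
    refine ⟨S.filter fun s => inc hs s ∧ s ∈ tv T', Ys, Finset.filter_subset _ _, hq, by omega, h2, h3,
      h4, h5, fun s hs' => ?_⟩
    have h7 := (Finset.mem_filter.1 hs').2
    exact h6 s h7.1 h7.2
  | ctx fs =>
    have hX' := hX
    by_cases hA : ∀ gs₁ gs₂, fs = gs₁ ++ gs₂ → (S.filter fun s => inc gs₁ s ∧ inc gs₂ s).card < q₁
    · have hB : ∃ f ∈ fs, ¬ tightT q₁ S f.2 := by
        by_contra hc
        push Not at hc
        exact hnt ⟨hA, hc⟩
      obtain ⟨f, hf, hft⟩ := hB
      obtain ⟨gs₁, gs₂, rfl⟩ := List.append_of_mem hf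
      obtain ⟨hs, T', hd, hq⟩ := hcl f.2 hft
      obtain ⟨Ys, h1, h2, h3, h4, h5, h6⟩ := refine_cl σ hσ v f.2 T' (hX.1 f hf) hs hd
      have i1 : gs₁ <:+: gs₁ ++ f :: gs₂ := (List.prefix_append _ _).isInfix
      have i2 : gs₂ <:+: gs₁ ++ f :: gs₂ := ⟨gs₁ ++ [f], [], by simp⟩
      refine ⟨S.filter fun s => inc hs s ∧ s ∈ tv T', Pc.ctx gs₁ :: (Ys ++ [Pc.ctx gs₂]),
        Finset.filter_subset _ _, hq, ?_, ?_, ?_, fun u => ?_, fun S₁ hS₁ => ?_, fun s hs' => ?_⟩
      · rw [List.length_cons, List.length_append, List.length_singleton]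
        omega
      · refine (Rf_split gs₁ f gs₂).trans ?_
        rw [List.map_cons, List.prod_cons, List.map_append, List.prod_append, List.map_cons,
          List.map_nil, List.prod_cons, List.prod_nil, mul_one]
        exact mul_le_mul' le_rfl (mul_le_mul' h2 le_rfl)
      · intro Y hY
        rcases List.mem_cons.1 hY with rfl | hY
        · exact Rf_sa hX' i1
        rcases List.mem_append.1 hY with hY | hY
        · exact h3 Y hY
        · rw [List.mem_singleton.1 hY]
          exact Rf_sa hX' i2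
      · have h7 := h4 u
        simp only [List.map_cons, List.map_append, List.map_nil, List.sum_cons, List.sum_append,
          List.sum_nil, pcnt]
        have h8 : (Ys.map (pcnt u)).sum = cnt u f.2 := h7
        omega
      · intro Y hY
        rcases List.mem_cons.1 hY with rfl | hY
        · exact fun g hg => hS₁ g (i1.subset hg)
        rcases List.mem_append.1 hY with hY | hY
        · exact h5 S₁ (hS₁ f hf) Y hY
        · rw [List.mem_singleton.1 hY]
          exact fun g hg => hS₁ g (i2.subset hg)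
      · have h7 := (Finset.mem_filter.1 hs').2
        have h8 := h6 s h7.1 h7.2
        rw [List.filter_cons, List.filter_append]
        split_ifs
        · rw [List.length_cons, List.length_append]
          omega
        · rw [List.length_append]
          omega
    · push Not at hA
      obtain ⟨gs₁, gs₂, rfl, hq⟩ := hA
      have i1 : gs₁ <:+: gs₁ ++ gs₂ := (List.prefix_append _ _).isInfix
      have i2 : gs₂ <:+: gs₁ ++ gs₂ := (List.suffix_append _ _).isInfix
      refine ⟨S.filter fun s => inc gs₁ s ∧ inc gs₂ s, [Pc.ctx gs₁, Pc.ctx gs₂],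
        Finset.filter_subset _ _, hq, by simp, ?_, ?_, fun u => ?_, fun S₁ hS₁ => ?_, fun s hs' => ?_⟩
      · simpa using ee_append gs₁ gs₂
      · intro Y hY
        rcases List.mem_cons.1 hY with rfl | hY
        · exact Rf_sa hX' i1
        · rw [List.mem_singleton.1 hY]
          exact Rf_sa hX' i2
      · simp [pcnt]
      · intro Y hY
        rcases List.mem_cons.1 hY with rfl | hY
        · exact fun g hg => hS₁ g (i1.subset hg)
        · rw [List.mem_singleton.1 hY]
          exact fun g hg => hS₁ g (i2.subset hg)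
      · have h7 := (Finset.mem_filter.1 hs').2
        exact Rf_two (fun Y => oc Y s) (As := [Pc.ctx gs₁]) (Bs := [Pc.ctx gs₂])
          ⟨_, List.mem_singleton_self _, h7.1⟩ ⟨_, List.mem_singleton_self _, h7.2⟩

end

end Pool.Agent.TRK
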