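import Pool.Agent.TRK.P1
import Pool.Agent.TRK.P2
import Pool.Agent.TRK.In
import Pool.Agent.TRK.Ea
import Pool.Agent.RKO.Mc
import Pool.Agent.RKO.Rk

/-!
Project TRK (MP_e2be99_lc), module Tc.  Text: /team-store/trk_h34.md (section 3, critical sets are bounded).
Definitions in `Pool/Agent/TRK/Defs.lean` (and `RKO/Defs.lean`, `UNK/Defs.lean`).

For every large `S` the pieces are refined (`ind_pieces`, `phase1`, `phase2`); then `a'` is chosen
generic, `S` minimal, the spaces are restricted to the points `pt (Y₀ ∪ (T ∩ ss)) a' v` and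
`RKO.mcl` bounds the length of `ss`.
-/

set_option autoImplicit false

namespace Pool.Agent.TRK

open MvPolynomial
open Pool.Agent.UNK (zar PF dot tp fc Fc)
open Pool.Agent.RKO (Letter wv pt sv tf Srt)

universe u

private theorem Tc_pt_self {k : Type u} [Field k] {V : Type} (Y : Finset V) (v : V → k) :
    pt Y v v = v := by
  classical
  funext u
  simp [pt]

private theorem Tc_min {V : Type} [Fintype V] (P : Finset V → Prop) (h : P Finset.univ) :
    ∃ S, P S ∧ ∀ T, T ⊂ S → ¬ P T := by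
  obtain ⟨S, hS, hmin⟩ := (wellFounded_lt (α := Finset V)).has_min {S | P S} ⟨Finset.univ, h⟩
  exact ⟨S, hS, fun T hT hPT => hmin T hPT hT⟩

private theorem Tc_pow {w g m f : ℕ} (hg : g ≤ w) (hm : m ≤ f) : w ^ (g * m) ≤ w ^ (w * f) := by
  rcases Nat.eq_zero_or_pos w with rfl | hw
  · have : g = 0 := by omega
    subst this
    simp
  · exact Nat.pow_le_pow_right hw (Nat.mul_le_mul hg hm)

/-- the context of a piece -/
private def Tc_fr {k : Type u} [Field k] {V : Type} {w : ℕ} : Pc k V w → List (Frame k V w)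
  | Pc.ctx fs => fs
  | Pc.cl _ => []

private theorem Tc_generic {k : Type u} [Field k] [Infinite k] {V : Type} [Fintype V] {w : ℕ}
    (v : V → k) (F : (V → k) → k) (hF : PF F) (a : V → k) (ha : F a ≠ 0)
    (Xs' : Finset V → List (Pc k V w)) :
    ∃ a' : V → k, F a' ≠ 0 ∧ ∀ S : Finset V, ∀ fs : List (Frame k V w), Pc.ctx fs ∈ Xs' S →
      ∀ J : List (Frame k V w), J <:+: fs → ∀ Y : Finset V,
        (ctxv J v).rank ≤ (ctxv J (pt Y a' v)).rank := by
  classical
  have e1 : ∀ᶠ a' in zar k V, F a' ≠ 0 := PF.ev_ne hF ⟨a, ha⟩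
  have hfin : {J : List (Frame k V w) | ∃ S, ∃ X ∈ Xs' S, J <:+: Tc_fr X}.Finite := by
    refine Set.Finite.subset (Set.finite_iUnion fun S : Finset V =>
      Set.Finite.biUnion (List.finite_toSet (Xs' S)) fun X _ =>
        List.finite_toSet (Tc_fr X).sublists) ?_
    rintro J ⟨S, X, hX, hJ⟩
    exact Set.mem_iUnion.2 ⟨S, Set.mem_biUnion (show X ∈ {x | x ∈ Xs' S} from hX)
      (List.mem_sublists.2 hJ.sublist)⟩
  have e2 : ∀ᶠ a' in zar k V, ∀ J ∈ {J : List (Frame k V w) | ∃ S, ∃ X ∈ Xs' S, J <:+: Tc_fr X},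
      ∀ Y : Finset V, (ctxv J v).rank ≤ (ctxv J (pt Y a' v)).rank := by
    rw [Filter.eventually_all_finite hfin]
    intro J _
    rw [Filter.eventually_all]
    intro Y
    refine RKO.rank_ev (fun a' => ctxv J (pt Y a' v)) (fun p q => ?_) _ v ?_
    · have h1 := RKO.wv_pt_pf (J.map fl) Y v p q
      have h2 : (fun a' : V → k => ctxv J (pt Y a' v) p q) =
          fun a' => wv (J.map fl) (pt Y a' v) p q := by
        funext a'
        rw [ctxv_wv]
      rw [h2]
      exact h1
    · show (ctxv J v).rank ≤ (ctxv J (pt Y v v)).rank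
      rw [Tc_pt_self]
  have := UNK.zar_neBot k V
  obtain ⟨a', h1, h2⟩ := (e1.and e2).exists
  exact ⟨a', h1, fun S fs hfs J hJ Y => h2 J ⟨S, Pc.ctx fs, hfs, hJ⟩ Y⟩

/-- precomposition as an algebra homomorphism -/
private def Tc_res {k : Type u} [Field k] {A B : Type*} (e : B → A) : (A → k) →ₐ[k] (B → k) where
  toFun h := fun b => h (e b)
  map_one' := rfl
  map_mul' _ _ := rfl
  map_zero' := rfl
  map_add' _ _ := rfl
  commutes' _ := rfl

private theorem Tc_free {k : Type u} [Field k] {V : Type} {w : ℕ} {B : Type*} (e : B → V → k)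
    (ss : List V) (he : ∀ t t' : B, ∀ u, u ∉ ss → e t u = e t' u) (t₀ : B) (X : Pc k V w)
    (hX : free ss X) : (EE X).map (Tc_res (k := k) e).toLinearMap ≤ 1 := by
  have hin : ∀ h : (V → k) → k, (∀ t, h (e t) = h (e t₀)) →
      (Tc_res (k := k) e).toLinearMap h ∈ (1 : Submodule k (B → k)) := by
    intro h hh
    refine Submodule.mem_one.2 ⟨h (e t₀), ?_⟩
    funext t
    exact (hh t).symm
  cases X with
  | ctx fs =>
    unfold EE
    rw [Submodule.map_span, Submodule.span_le]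
    rintro _ ⟨_, ⟨p, q, rfl⟩, rfl⟩
    refine hin _ fun t => ?_
    have h1 : ctxv fs (e t) = ctxv fs (e t₀) := by
      refine ctxv_dep fs fun u hu => he t t₀ u fun hus => ?_
      exact hX u hus hu
    show ctxv fs (e t) p q = ctxv fs (e t₀) p q
    rw [h1]
  | cl T =>
    unfold EE
    rw [Submodule.map_span, Submodule.span_le]
    rintro _ ⟨_, ⟨i, rfl⟩, rfl⟩
    refine hin _ fun t => ?_
    have h1 : val T (e t) = val T (e t₀) := by
      refine val_dep T fun u hu => he t t₀ u fun hus => ?_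
      exact hX u hus hu
    show val T (e t) i = val T (e t₀) i
    rw [h1]

private theorem Tc_ctx {k : Type u} [Field k] {V : Type} {w : ℕ} {B : Type*} (e : B → V → k)
    (fs : List (Frame k V w)) :
    (EE (Pc.ctx fs)).map (Tc_res (k := k) e).toLinearMap ≤ ES (fun t => ctxv fs (e t)) := by
  unfold EE ES
  rw [Submodule.map_span, Submodule.span_le]
  rintro _ ⟨_, ⟨p, q, rfl⟩, rfl⟩
  exact Submodule.subset_span ⟨p, q, rfl⟩

private theorem Tc_list {k : Type u} [Field k] {V : Type} {w : ℕ} {B : Type*} (e : B → V → k)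
    (v : V → k) (ss : List V) (he : ∀ t t' : B, ∀ u, u ∉ ss → e t u = e t' u) (t₀ : B)
    (Xs : List (Pc k V w)) (hX : ∀ X ∈ Xs, free ss X ∨ good v ss X) :
    ∃ fss : List (List (Frame k V w)), fss.length ≤ Xs.length ∧
      (∀ fs ∈ fss, Pc.ctx fs ∈ Xs ∧ good v ss (Pc.ctx fs)) ∧
      ((Xs.map EE).prod).map (Tc_res (k := k) e).toLinearMap ≤
        ((fss.map fun fs t => ctxv fs (e t)).map ES).prod := by
  induction Xs with
  | nil =>
    refine ⟨[], le_refl _, fun fs hfs => absurd hfs List.not_mem_nil, ?_⟩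
    simp only [List.map_nil, List.prod_nil]
    rw [Submodule.map_one]
  | cons X Xs ih =>
    obtain ⟨fss, h1, h2, h3⟩ := ih fun Y hY => hX Y (List.mem_cons_of_mem _ hY)
    rw [List.map_cons, List.prod_cons, Submodule.map_mul]
    rcases hX X List.mem_cons_self with hfree | hgood
    · refine ⟨fss, h1.trans (by simp), fun fs hfs =>
        ⟨List.mem_cons_of_mem _ (h2 fs hfs).1, (h2 fs hfs).2⟩, ?_⟩
      refine (mul_le_mul' (Tc_free e ss he t₀ X hfree) h3).trans ?_
      rw [one_mul]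
    · have hgood' := hgood
      obtain ⟨fs₀, rfl, -⟩ := hgood'
      refine ⟨fs₀ :: fss, by simpa using h1, ?_, ?_⟩
      · intro fs hfs
        rcases List.mem_cons.1 hfs with rfl | hfs
        · exact ⟨List.mem_cons_self, hgood⟩
        · exact ⟨List.mem_cons_of_mem _ (h2 fs hfs).1, (h2 fs hfs).2⟩
      · rw [List.map_cons, List.map_cons, List.prod_cons]
        exact mul_le_mul' (Tc_ctx e fs₀) h3

private theorem Tc_infix {α β : Type*} (f : α → β) {J : List β} {l : List α} (h : J <:+: l.map f) :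
    ∃ J' : List α, J' <:+: l ∧ J = J'.map f := by
  obtain ⟨s, t, hst⟩ := h
  obtain ⟨l₁, l₂, hl, h1, h2⟩ := List.map_eq_append_iff.1 hst.symm
  obtain ⟨l₃, l₄, hl', h3, h4⟩ := List.map_eq_append_iff.1 h1
  exact ⟨l₄, ⟨l₃, l₂, by rw [← hl', ← hl]⟩, h4.symm⟩

theorem tc {k : Type u} [Field k] [Infinite k] {V : Type} [Fintype V] {w : ℕ} (σ : ℕ) (hσ : 1 ≤ σ)
    (v : V → k) (ρ b g : ℕ) (hg : g ≤ w) (Xs : List (Pc k V w)) (hlen : Xs.length ≤ 4)
    (hX : ∀ X ∈ Xs, SA σ v X) (hcnt : ∀ u, (Xs.map (pcnt u)).sum ≤ ρ)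
    (hbd : ∀ X ∈ Xs, pbd b X) (F : (V → k) → k) (hF : F ∈ ((Xs.map EE).prod) ^ g) (a : V → k)
    (ha : F a ≠ 0) :
    ∃ (S : Finset V) (a' : V → k), S.card ≤ MT w ρ b ∧ F (pt S a' v) ≠ 0 := by
  classical
  have key : ∀ S : Finset V, ∃ (ss : List V) (Xs' : List (Pc k V w)), MT w ρ b < S.card →
      (ss.Nodup ∧ (∀ s ∈ ss, s ∈ S) ∧ fc (w ^ (w * (6 * cc ρ))) + 1 ≤ ss.length ∧
        Xs'.length ≤ 6 * cc ρ ∧ (Xs.map EE).prod ≤ (Xs'.map EE).prod ∧
        ∀ X' ∈ Xs', free ss X' ∨ good v ss X') := by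
    intro S
    by_cases hS : MT w ρ b < S.card
    · obtain ⟨S₁, a1, a2, a3⟩ := ind_pieces Xs ρ b hcnt hbd S
        (TT (cc ρ) (fc (w ^ (w * (6 * cc ρ))) + 1) ρ) hS.le
      obtain ⟨S', Xs₁, q₁, b1, b2, b3, b4, b5, b6, b7⟩ := phase1 σ hσ v (cc ρ)
        (fc (w ^ (w * (6 * cc ρ))) + 1) ρ ρ Xs hX S₁ a3 (fun s _ => hcnt s)
        (fun s _ => Nat.le_add_left _ _) (by unfold cc; omega) a2.ge
      obtain ⟨ss, Xs', c1, c2, c3, c4, c5, c6⟩ := phase2 σ hσ v q₁ (cc ρ)
        (fc (w ^ (w * (6 * cc ρ))) + 1) Xs₁ b2 b3 S' b5 b6 b7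
      exact ⟨ss, Xs', fun _ => ⟨c1, fun s hs => a1 (b1 (c2 s hs)), c3, c4, b4.trans c5, c6⟩⟩
    · exact ⟨[], [], fun h => absurd h hS⟩
  choose ss Xs' hkey using key
  obtain ⟨a', hne, hrk⟩ := Tc_generic v F (pf_mem Xs g hF) a ha Xs'
  have huniv : F (pt Finset.univ a' v) ≠ 0 := by
    have e : pt Finset.univ a' v = a' := by
      funext u
      simp [pt]
    rw [e]
    exact hne
  obtain ⟨S, hS, hmin⟩ := Tc_min (fun S => F (pt S a' v) ≠ 0) huniv
  refine ⟨S, a', ?_, hS⟩
  by_contra hcard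
  obtain ⟨c1, c2, c3, c4, c5, c6⟩ := hkey S (by omega)
  have hsub : (ss S).toFinset ⊆ S := fun s hs => c2 s (List.mem_toFinset.1 hs)
  -- the restriction
  let e : Finset V → V → k := fun T => pt ((S \ (ss S).toFinset) ∪ (T ∩ (ss S).toFinset)) a' v
  have he : ∀ t t' : Finset V, ∀ u, u ∉ ss S → e t u = e t' u := by
    intro t t' u hu
    have h1 : ∀ t : Finset V, e t u = if u ∈ S \ (ss S).toFinset then a' u else v u := by
      intro t
      show (if u ∈ (S \ (ss S).toFinset) ∪ (t ∩ (ss S).toFinset) then a' u else v u) = _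
      refine if_congr ?_ rfl rfl
      rw [Finset.mem_union, Finset.mem_inter, List.mem_toFinset]
      constructor
      · rintro (h | ⟨-, h⟩)
        · exact h
        · exact absurd h hu
      · exact fun h => Or.inl h
    rw [h1, h1]
  obtain ⟨fss, d1, d2, d3⟩ := Tc_list e v (ss S) he ∅ (Xs' S) c6
  have hF1 : (Tc_res (k := k) e).toLinearMap F ∈
      (((fss.map fun fs t => ctxv fs (e t)).map ES).prod) ^ g := by
    have h1 : (Tc_res (k := k) e).toLinearMap F ∈
        (((Xs.map EE).prod) ^ g).map (Tc_res (k := k) e).toLinearMap :=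
      Submodule.mem_map_of_mem hF
    rw [Submodule.map_pow] at h1
    exact pow_le_pow_left' ((Submodule.map_mono c5).trans d3) g h1
  obtain ⟨Φ, hΦ⟩ := rep (fss.map fun fs t => ctxv fs (e t)) g _ hF1
  have hlen' : (fss.map fun fs (t : Finset V) => ctxv fs (e t)).length = fss.length :=
    List.length_map _
  have hval : ∀ T : Finset V, F (e T) = dot Φ (tf fun ij : Fin g ×
      Fin (fss.map fun fs (t : Finset V) => ctxv fs (e t)).length =>
        wv ((fss.get (Fin.cast hlen' ij.2)).map fl) (e T)) := by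
    intro T
    refine (hΦ T).trans ?_
    congr 1
    congr 1
    funext ij
    rw [← ctxv_wv]
    simp [List.getElem_map]
  have hgood : ∀ i, Pc.ctx (fss.get i) ∈ Xs' S ∧ good v (ss S) (Pc.ctx (fss.get i)) :=
    fun i => d2 _ (List.get_mem fss i)
  have hcon := RKO.mcl (κ := Fin g × Fin (fss.map fun fs (t : Finset V) => ctxv fs (e t)).length)
    (fun ij => (fss.get (Fin.cast hlen' ij.2)).map fl) v a' (ss S) c1
    (by
      intro i J hJ Y
      obtain ⟨J', hJ', rfl⟩ := Tc_infix fl hJ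
      obtain ⟨g1, fs, g2, g3, -⟩ := hgood (Fin.cast hlen' i.2)
      rw [← ctxv_wv, ← ctxv_wv]
      refine le_antisymm ?_ (hrk S _ g1 J' hJ' Y)
      have g4 : fss.get (Fin.cast hlen' i.2) = fs := by injection g2
      exact g3 J' (g4 ▸ hJ') _)
    (by
      intro i l hl s hs s' hs' h1 h2
      obtain ⟨f, hf, rfl⟩ := List.mem_map.1 hl
      obtain ⟨-, fs, g2, -, -, g5⟩ := hgood (Fin.cast hlen' i.2)
      have g4 : fss.get (Fin.cast hlen' i.2) = fs := by injection g2
      exact g5 f (g4 ▸ hf) s hs s' hs' h1 h2)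
    (by
      intro i
      obtain ⟨-, fs, g2, -, g5, -⟩ := hgood (Fin.cast hlen' i.2)
      have g4 : fss.get (Fin.cast hlen' i.2) = fs := by injection g2
      have h7 : ∀ tt : List V, Srt (fun (f : Frame k V w) s => s ∈ tv f.2) tt fs →
          Srt (fun (l : Letter k V w) (s : V) => s ∈ l.B) tt
            ((fss.get (Fin.cast hlen' i.2)).map fl) := by
        intro tt h8
        rw [g4]
        unfold Srt at h8 ⊢
        rw [List.pairwise_map]
        exact h8
      rcases g5 with g5 | g5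
      · exact Or.inl (h7 _ g5)
      · exact Or.inr (h7 _ g5))
    Φ (S \ (ss S).toFinset)
    (by
      intro s hs hs'
      exact (Finset.mem_sdiff.1 hs').2 (List.mem_toFinset.2 hs))
    (by
      have h1 := hval (ss S).toFinset
      have h2 : e (ss S).toFinset = pt ((S \ (ss S).toFinset) ∪ (ss S).toFinset) a' v := by
        show pt ((S \ (ss S).toFinset) ∪ ((ss S).toFinset ∩ (ss S).toFinset)) a' v = _
        rw [Finset.inter_self]
      rw [h2] at h1
      rw [← h1, Finset.sdiff_union_of_subset hsub]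
      exact hS)
    (by
      intro T hT
      have h1 := hval T
      have h2 : e T = pt ((S \ (ss S).toFinset) ∪ T) a' v := by
        show pt ((S \ (ss S).toFinset) ∪ (T ∩ (ss S).toFinset)) a' v = _
        rw [Finset.inter_eq_left.2 hT.1]
      rw [h2] at h1
      rw [← h1]
      by_contra hTne
      refine hmin _ ?_ hTne
      rw [Finset.ssubset_iff_of_subset]
      · obtain ⟨s, hs, hsT⟩ := Finset.exists_of_ssubset hT
        refine ⟨s, hsub hs, fun h2 => ?_⟩
        rcases Finset.mem_union.1 h2 with h3 | h3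
        · exact (Finset.mem_sdiff.1 h3).2 hs
        · exact hsT h3
      · exact Finset.union_subset Finset.sdiff_subset (hT.1.trans hsub))
  rw [Fintype.card_prod, Fintype.card_fin, Fintype.card_fin, hlen'] at hcon
  have h5 : w ^ (g * fss.length) ≤ w ^ (w * (6 * cc ρ)) := Tc_pow hg (d1.trans c4)
  have h6 := RKO.fc_mono h5
  omega

end Pool.Agent.TRK
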